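import Pool.Agent.Lib.MP_ae38e0_lc.Half.Cum

set_option autoImplicit false

/-!
# Half-algebraic attack: the invariants are preserved (ROW ha-ValidOps)
-/

namespace Pool.Agent.LinOT

open Classical

variable {K : Type} [Field K] {ι : Type} [Fintype ι] {L : Submodule K ((ι → K) → K)}
  {StX StY RX RY : Type}

theorem ask_Q (A : Par) (S : HSt L StX StY RX RY) (J : Finset ι) (k b : ℕ) (a : List K)
    (ha : a.length = J.card) : (S.ask A J k b a).Q = S.Q ∪ J :=
  kq_append S.kn J a ha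

theorem sk_le_sm (A : Par) (k : ℕ) : A.sk k ≤ A.sm := by
  unfold Par.sk Par.sm
  have : A.Kc - k ≤ A.Kc := Nat.sub_le _ _
  gcongr

theorem n_le_sk (A : Par) (k : ℕ) : A.n ≤ A.sk k := Nat.le_add_right _ _

theorem sk_anti (A : Par) {k k' : ℕ} (h : k ≤ k') : A.sk k' ≤ A.sk k := by
  unfold Par.sk
  have : A.Kc - k' ≤ A.Kc - k := by omega
  gcongr

theorem sk_succ (A : Par) (k : ℕ) (h : k < A.Kc) : A.sk k = A.sk (k + 1) + A.n ^ 2 := by
  unfold Par.sk
  have : A.Kc - k = (A.Kc - (k + 1)) + 1 := by omega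
  rw [this, Nat.add_mul, one_mul]
  ring

/-- PROOF. `ask_Q`, `cum_step` with `V' = V`, `Q' = Q ∪ J`, `s = sk k ≤ sm` resp. `s = n`; the other
fields are immediate (`zip_fst` for `knpt`; `cloc`: `S.V` is a function of the list `SX.q`). -/
theorem valid_ask (A : Par) (S : HSt L StX StY RX RY) (hV : S.Valid A) (J : Finset ι) (k b : ℕ)
    (a : List K) (ha : a.length = J.card) : (S.ask A J k b a).Valid A := by
  have hQ : (S.ask A J k b a).Q = S.Q ∪ J := ask_Q A S J k b a ha
  refine ⟨hV.locX, hV.locY, hV.lenX, hV.pbY, ?_, ?_, ?_, ?_, ?_, ?_⟩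
  · intro x hx
    have hx' : x ∈ (S.kn ++ (pts J).zip a).map Prod.fst := hx
    rw [List.map_append, List.mem_append, zip_fst _ _ (by rw [ha, pts_length])] at hx'
    rcases hx' with hx' | hx'
    · exact hV.knpt x hx'
    · unfold pts at hx'
      rw [List.mem_map] at hx'
      obtain ⟨p, -, hp⟩ := hx'
      exact ⟨p, hp.symm⟩
  · intro r O O' h
    have h1 := hV.cloc r O O' h
    have h2 : S.SX.q r O = S.SX.q r O' := (hV.locX r O O' h).2.1
    have h3 : S.V r O = S.V r O' := by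
      unfold HSt.V
      rw [h2]
    constructor
    · change S.cum r O ∪ TT (A.sk k) (S.Q ∪ J) (S.V r O) = S.cum r O' ∪ TT (A.sk k) (S.Q ∪ J) (S.V r O')
      rw [h1.1, h3]
    · change S.cumn r O ∪ TT A.n (S.Q ∪ J) (S.V r O) = S.cumn r O' ∪ TT A.n (S.Q ∪ J) (S.V r O')
      rw [h1.2, h3]
  · intro r O
    rw [hQ]
    exact cum_step (hV.cinv r O) le_rfl Finset.subset_union_left (sk_le_sm A k)
  · intro r O
    rw [hQ]
    exact cum_step (hV.cinvn r O) le_rfl Finset.subset_union_left le_rfl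
  · intro r O
    rw [hQ]
    exact Finset.subset_union_right
  · intro r O
    rw [hQ]
    exact Finset.subset_union_right

/-- PROOF. `cum_step` with `V ≤ V' = spn (T.q r O)` (`spn_mono`), `Q' = Q`.  `cloc`: if `O`, `O'` agree
on `T.q r O` then they agree on `S.SX.q r O` (`hq`), and `T.q r O = T.q r O'` by `T.Loc`. -/
theorem valid_updX (A : Par) (S : HSt L StX StY RX RY) (hV : S.Valid A)
    (T : Side (ι → K) K StX RX) (hT : T.Loc) (hq : ∀ r (O : L), ∀ c ∈ S.SX.q r O, c ∈ T.q r O)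
    (hn : ∀ r (O : L), (T.q r O).length ≤ A.n) : (S.updX A T).Valid A := by
  have hle : ∀ r (O : L), S.V r O ≤ (S.updX A T).V r O := fun r O => spn_mono (hq r O)
  refine ⟨hT, hV.locY, hn, hV.pbY, hV.knpt, ?_, ?_, ?_, ?_, ?_⟩
  · intro r O O' h
    have h1 := hV.cloc r O O' (fun c hc => h c (hq r O c hc))
    have h2 : T.q r O = T.q r O' := (hT r O O' h).2.1
    constructor
    · change S.cum r O ∪ TT (A.sk S.k) S.Q (spn (T.q r O)) = S.cum r O' ∪ TT (A.sk S.k) S.Q (spn (T.q r O'))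
      rw [h1.1, h2]
    · change S.cumn r O ∪ TT A.n S.Q (spn (T.q r O)) = S.cumn r O' ∪ TT A.n S.Q (spn (T.q r O'))
      rw [h1.2, h2]
  · intro r O
    exact cum_step (hV.cinv r O) (hle r O) (Finset.Subset.refl _) (sk_le_sm A S.k)
  · intro r O
    exact cum_step (hV.cinvn r O) (hle r O) (Finset.Subset.refl _) le_rfl
  · intro r O
    exact Finset.subset_union_right
  · intro r O
    exact Finset.subset_union_right

/-- PROOF. Immediate. -/
theorem valid_updY (A : Par) (S : HSt L StX StY RX RY) (hV : S.Valid A)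
    (T : Side (ι → K) K StY RY) (hT : T.Loc) (hn : ∀ r (O : L), (lp (T.q r O)).card ≤ A.n) :
    (S.updY T).Valid A :=
  ⟨hV.locX, hT, hV.lenX, hn, hV.knpt, hV.cloc, hV.cinv, hV.cinvn, hV.cT, hV.cTn⟩

/-- The size of the sets `TT n`. PROOF. `TT_card`, `finrank_spn`, `lenX`. -/
theorem TTn_card (A : Par) (S : HSt L StX StY RX RY) (hV : S.Valid A) (r : RX) (O : L) :
    (TT A.n S.Q (S.V r O)).card ≤ A.n ^ 2 := by
  have h1 := TT_card A.n S.Q (S.V r O)
  have h2 : Module.finrank K (S.V r O) ≤ A.n := (finrank_spn _).trans (hV.lenX r O)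
  calc (TT A.n S.Q (S.V r O)).card ≤ Module.finrank K (S.V r O) * A.n := h1
    _ ≤ A.n * A.n := Nat.mul_le_mul_right _ h2
    _ = A.n ^ 2 := (sq _).symm

/-- PROOF. `cum_card`, `finrank_spn`, `lenX`. -/
theorem cum_le (A : Par) (S : HSt L StX StY RX RY) (hV : S.Valid A) (r : RX) (O : L) :
    (S.cum r O).card ≤ A.n * A.sm := by
  have h2 : Module.finrank K (S.V r O) ≤ A.n := (finrank_spn _).trans (hV.lenX r O)
  exact (cum_card (hV.cinv r O)).trans (Nat.mul_le_mul_right _ h2)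

/-- PROOF. `cum_card`, `finrank_spn`, `lenX`. -/
theorem cumn_le (A : Par) (S : HSt L StX StY RX RY) (hV : S.Valid A) (r : RX) (O : L) :
    (S.cumn r O).card ≤ A.n ^ 2 := by
  have h2 : Module.finrank K (S.V r O) ≤ A.n := (finrank_spn _).trans (hV.lenX r O)
  rw [sq]
  exact (cum_card (hV.cinvn r O)).trans (Nat.mul_le_mul_right _ h2)

end Pool.Agent.LinOT
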