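import Pool.Agent.Lib.MP_ae38e0_lc.Half.ExitX
import Pool.Agent.Lib.MP_ae38e0_lc.Half.ValidOps

set_option autoImplicit false

/-!
# Half-algebraic attack: the asks of the eavesdropper, batches (ROW ha-AskH)
-/

namespace Pool.Agent.LinOT

open Classical

variable {K : Type} [Field K] {ι : Type} [Fintype ι] {L : Submodule K ((ι → K) → K)} [Fintype L]
  {StX StY RX RY : Type} [Fintype RX] [Fintype RY]

/-- The sets of the state after a batch, as a function of the view. -/
noncomputable def AskH_cum (A : Par) (S : HSt L StX StY RX RY) (x : RX × L) : Finset ι :=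
  S.cum x.1 x.2 ∪ TT (A.sk S.k) (S.Q ∪ S.hv A) (S.V x.1 x.2)

/-- The execution may leave the good ones. -/
def AskH_ex (A : Par) (S : HSt L StX StY RX RY) (w : RX × RY × L) : Prop :=
  S.WG A.n (wx w) (wy w) ∧ ∃ p ∈ Finset.univ \ (S.Q ∪ S.hv A),
    p ∈ AskH_cum A S (wx w) \ S.cum (wx w).1 (wx w).2 ∧ p ∈ S.PB (wy w).1 (wy w).2

omit [Fintype L] [Fintype RX] [Fintype RY] in
theorem AskH_pos (A : Par) (hA : A.Ok) : 0 < A.Th ∧ 0 < A.Bm := by
  have h1 := hA.n1
  have h4 := hA.h4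
  have hT : 0 < A.Th := by
    rw [hA.T1]; positivity
  refine ⟨hT, ?_⟩
  rw [hA.B1]; positivity

/-- A good execution is weakly good. -/
theorem AskH_good_wg (A : Par) (S : HSt L StX StY RX RY) (hV : S.Valid A) (w : RX × RY × L)
    (hw : S.good w) : S.WG A.n (wx w) (wy w) := by
  unfold HSt.WG
  unfold HSt.good at hw
  refine Finset.disjoint_of_subset_left ?_ hw
  intro p hp
  rw [Finset.mem_sdiff]
  refine ⟨hV.cT _ _ (TT_mono (n_le_sk A S.k) le_rfl hp), ?_⟩
  exact (mem_TT.mp hp).1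

/-- The first term. -/
theorem AskH_first (g g' : Prop) [Decidable g] [Decidable g'] (x d : ℝ) (hx : 0 ≤ x) (hd : 0 ≤ d) :
    (if g' then min 1 (x + d) else 1) - (if g then min 1 x else 1) ≤
      (if g then d else 0) + (if g ∧ ¬ g' then (1 : ℝ) else 0) := by
  have hm0 : 0 ≤ min 1 x := le_min zero_le_one hx
  by_cases hg : g
  · by_cases hg' : g'
    · simp only [hg, hg', if_true, not_true_eq_false, and_false, if_false, add_zero]
      have : min 1 (x + d) ≤ min 1 x + d := by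
        rcases le_total 1 x with h | h
        · rw [min_eq_left h]
          exact (min_le_left _ _).trans (by linarith)
        · rw [min_eq_right h]
          exact min_le_right _ _
      linarith
    · simp only [hg, hg', if_true, if_false, not_false_eq_true, and_self]
      linarith
  · by_cases hg' : g'
    · simp only [hg, hg', if_true, if_false, false_and, add_zero]
      have : min 1 (x + d) ≤ 1 := min_le_left _ _
      linarith
    · simp only [hg, hg', if_false, false_and, add_zero]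
      linarith

/-- The number of points of two families which are in `J`. -/
theorem AskH_inter (P Q J : Finset ι) (hJ : Disjoint J Q) :
    ((P ∩ (Q ∪ J)).card : ℝ) = (P ∩ Q).card + ∑ p ∈ J, (if p ∈ P then (1 : ℝ) else 0) := by
  have h1 : P ∩ (Q ∪ J) = (P ∩ Q) ∪ (P ∩ J) := Finset.inter_union_distrib_left _ _ _
  have h2 : Disjoint (P ∩ Q) (P ∩ J) := by
    rw [Finset.disjoint_left]
    intro p hp hq
    exact Finset.disjoint_left.mp hJ (Finset.mem_inter.mp hq).2 (Finset.mem_inter.mp hp).2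
  rw [h1, Finset.card_union_of_disjoint h2]
  push_cast
  congr 1
  rw [Finset.sum_boole]
  congr 2
  ext p
  simp only [Finset.mem_inter, Finset.mem_filter]
  tauto

/-- The estimate for one execution. -/
theorem AskH_term (A : Par) (hA : A.Ok) (S : HSt L StX StY RX RY) (hV : S.Valid A)
    (w : RX × RY × L) (a : List K) (ha : a.length = (S.hv A).card) :
    (S.ask A (S.hv A) S.k (S.b + (S.hv A).card) a).pot A w - S.pot A w ≤
      (if S.good w then ((S.hv A).card : ℝ) / A.Bm else 0) +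
      (if AskH_ex A S w then (1 : ℝ) else 0) -
      (A.Th : ℝ) / A.Bm * (∑ p ∈ S.hv A, ((if p ∈ S.PB (wy w).1 (wy w).2 then (1 : ℝ) else 0) +
        (if p ∈ S.cum (wx w).1 (wx w).2 then (1 : ℝ) else 0))) -
      4 / (A.Th : ℝ) * (AskH_cum A S (wx w) \ S.cum (wx w).1 (wx w).2).card := by
  obtain ⟨hT, hB⟩ := AskH_pos A hA
  have hTr : (0 : ℝ) < A.Th := by exact_mod_cast hT
  have hBr : (0 : ℝ) < A.Bm := by exact_mod_cast hB
  obtain ⟨J, hJ⟩ : ∃ J, J = S.hv A := ⟨_, rfl⟩
  obtain ⟨S', hS'⟩ : ∃ S', S' = S.ask A (S.hv A) S.k (S.b + (S.hv A).card) a := ⟨_, rfl⟩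
  have hQ' : S'.Q = S.Q ∪ J := by rw [hS', hJ]; exact ask_Q A S _ _ _ a ha
  have hPB' : S'.PB w.2.1 w.2.2 = S.PB w.2.1 w.2.2 := by rw [hS']; rfl
  have hc' : S'.cum w.1 w.2.2 = AskH_cum A S (wx w) := by rw [hS']; rfl
  have hcn' : S.cumn w.1 w.2.2 ⊆ S'.cumn w.1 w.2.2 := by
    rw [hS']; exact Finset.subset_union_left
  have hk' : S'.k = S.k := by rw [hS']; rfl
  have hb' : S'.b = S.b + J.card := by rw [hS', hJ]; rfl
  have hJQ : Disjoint J S.Q := by
    rw [Finset.disjoint_left]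
    intro p hp
    rw [hJ, HSt.hv, Finset.mem_filter] at hp
    exact hp.2.1
  have hsub : S.cum w.1 w.2.2 ⊆ AskH_cum A S (wx w) := Finset.subset_union_left
  rw [← hS', ← hJ]
  unfold HSt.pot
  rw [hQ', hPB', hc', hk', hb']
  have e1 := AskH_first (S.good w) (S'.good w) ((S.k : ℝ) / A.Kc + (S.b : ℝ) / A.Bm)
    ((J.card : ℝ) / A.Bm) (by positivity) (by positivity)
  have e1' : (S.k : ℝ) / A.Kc + ((S.b + J.card : ℕ) : ℝ) / A.Bm =
      ((S.k : ℝ) / A.Kc + (S.b : ℝ) / A.Bm) + (J.card : ℝ) / A.Bm := by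
    push_cast; ring
  rw [e1']
  -- exits
  have e2 : (if S.good w ∧ ¬ S'.good w then (1 : ℝ) else 0) ≤
      (if AskH_ex A S w then (1 : ℝ) else 0) := by
    by_cases h : S.good w ∧ ¬ S'.good w
    · have hx : AskH_ex A S w := by
        unfold AskH_ex
        rw [← hJ]
        refine ⟨AskH_good_wg A S hV w h.1, ?_⟩
        have h2 := h.2
        unfold HSt.good at h2
        rw [hQ', hPB', hc', Finset.not_disjoint_iff] at h2
        obtain ⟨p, hp1, hp2⟩ := h2
        rw [Finset.mem_sdiff] at hp1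
        refine ⟨p, Finset.mem_sdiff.mpr ⟨Finset.mem_univ _, hp1.2⟩, ?_, hp2⟩
        rw [Finset.mem_sdiff]
        refine ⟨hp1.1, fun hc => ?_⟩
        refine Finset.disjoint_left.mp h.1 (Finset.mem_sdiff.mpr ⟨hc, fun hq => hp1.2 ?_⟩) hp2
        exact Finset.mem_union_left _ hq
      rw [if_pos h, if_pos hx]
    · rw [if_neg h]
      split_ifs <;> norm_num
  -- second term
  have e3 : (A.h : ℝ) / A.Kc * ((A.n : ℝ) + (A.n : ℝ) ^ 2 - (S.PB w.2.1 w.2.2 ∩ (S.Q ∪ J)).card -
      (S'.cumn w.1 w.2.2 ∩ (S.Q ∪ J)).card) ≤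
      (A.h : ℝ) / A.Kc * ((A.n : ℝ) + (A.n : ℝ) ^ 2 - (S.PB w.2.1 w.2.2 ∩ S.Q).card -
      (S.cumn w.1 w.2.2 ∩ S.Q).card) := by
    refine mul_le_mul_of_nonneg_left ?_ (by positivity)
    have i1 : ((S.PB w.2.1 w.2.2 ∩ S.Q).card : ℝ) ≤ (S.PB w.2.1 w.2.2 ∩ (S.Q ∪ J)).card := by
      exact_mod_cast Finset.card_le_card
        (Finset.inter_subset_inter (Finset.Subset.refl _) Finset.subset_union_left)
    have i2 : ((S.cumn w.1 w.2.2 ∩ S.Q).card : ℝ) ≤ (S'.cumn w.1 w.2.2 ∩ (S.Q ∪ J)).card := by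
      exact_mod_cast Finset.card_le_card
        (Finset.inter_subset_inter hcn' Finset.subset_union_left)
    linarith
  -- third term
  have e4 : (A.Th : ℝ) / A.Bm * ((A.n : ℝ) + A.n * A.sm - (S.PB w.2.1 w.2.2 ∩ (S.Q ∪ J)).card -
      (AskH_cum A S (wx w) ∩ (S.Q ∪ J)).card) ≤
      (A.Th : ℝ) / A.Bm * ((A.n : ℝ) + A.n * A.sm - (S.PB w.2.1 w.2.2 ∩ S.Q).card -
      (S.cum w.1 w.2.2 ∩ S.Q).card) -
      (A.Th : ℝ) / A.Bm * (∑ p ∈ J, ((if p ∈ S.PB (wy w).1 (wy w).2 then (1 : ℝ) else 0) +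
        (if p ∈ S.cum (wx w).1 (wx w).2 then (1 : ℝ) else 0))) := by
    rw [← mul_sub]
    refine mul_le_mul_of_nonneg_left ?_ (by positivity)
    have i1 := AskH_inter (S.PB w.2.1 w.2.2) S.Q J hJQ
    have i2 := AskH_inter (S.cum w.1 w.2.2) S.Q J hJQ
    have i3 : ((S.cum w.1 w.2.2 ∩ (S.Q ∪ J)).card : ℝ) ≤
        (AskH_cum A S (wx w) ∩ (S.Q ∪ J)).card := by
      exact_mod_cast Finset.card_le_card
        (Finset.inter_subset_inter hsub (Finset.Subset.refl _))
    have i4 : ∑ p ∈ J, ((if p ∈ S.PB (wy w).1 (wy w).2 then (1 : ℝ) else 0) +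
        (if p ∈ S.cum (wx w).1 (wx w).2 then (1 : ℝ) else 0)) =
        ∑ p ∈ J, (if p ∈ S.PB w.2.1 w.2.2 then (1 : ℝ) else 0) +
        ∑ p ∈ J, (if p ∈ S.cum w.1 w.2.2 then (1 : ℝ) else 0) := Finset.sum_add_distrib
    rw [i4]
    linarith
  -- fourth term
  have e5 : ((AskH_cum A S (wx w)).card : ℝ) =
      (S.cum w.1 w.2.2).card + (AskH_cum A S (wx w) \ S.cum (wx w).1 (wx w).2).card := by
    have := Finset.card_sdiff_add_card_eq_card hsub
    have h2 : (AskH_cum A S (wx w)).card =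
        (AskH_cum A S (wx w) \ S.cum (wx w).1 (wx w).2).card + (S.cum w.1 w.2.2).card := this.symm
    rw [h2]; push_cast; ring
  rw [e5]
  have e6 : 4 / (A.Th : ℝ) * ((A.n : ℝ) * A.sm - ((S.cum w.1 w.2.2).card +
      (AskH_cum A S (wx w) \ S.cum (wx w).1 (wx w).2).card)) =
      4 / (A.Th : ℝ) * ((A.n : ℝ) * A.sm - (S.cum w.1 w.2.2).card) -
      4 / (A.Th : ℝ) * (AskH_cum A S (wx w) \ S.cum (wx w).1 (wx w).2).card := by ring
  rw [e6]
  linarith

/-- PROOF. `J = hv`, `S'.Q = Q ∪ J`, `k` is the same.  Let `N x := S'.cum x \ S.cum x`, `G := univ \ (Q ∪ J)`.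
`exit_x` for the state `S`, `U = S.XX`, `U' = S.YY`; `hdeg` from `deg_x` (`h - 1 ≥ 2`); `hlight`
from `light_y` (the points of `G` are light).  `w ∈ R` exits if `good w`, not `good' w`: then some
`p ∉ Q ∪ J` is in `cum' \ cum` and in `PB`; and `good w → WG`.  First term: grows by at most
`#J/Bm` if `good w` (so `w ∈ RW`), at most `1` if `w` exits, and not otherwise.  Fourth term:
decreases by `(4/Th) #N`, `N ⊆ G` (`TT_disj`).  Third term: decreases by
`(Th/Bm) (#(PB ∩ Q') - #(PB ∩ Q) + #(cum' ∩ Q') - #(cum ∩ Q)) ≥ (Th/Bm) ∑ p ∈ J, ([p ∈ PB] + [p ∈ cum])`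
(`J` is disjoint from `Q`), and `∑ w ∈ RW` of this is `≥ #J * #RW / Bm` because a heavy `p` has
`Th * (#{w ∈ RW | p ∈ PB} + #{w ∈ RW | p ∈ cum}) > #RW`.  Second term: does not grow. -/
theorem ask_h_pot (hL : ∀ O, O ∈ L ↔ ∃ f : ι → K, O = ev f) (A : Par) (hA : A.Ok)
    (S : HSt L StX StY RX RY) (hV : S.Valid A) (hU : S.Unc A)
    (a : RX × RY × L → List K) (ha : ∀ w, (a w).length = (S.hv A).card) :
    ∑ w ∈ S.R, (S.ask A (S.hv A) S.k (S.b + (S.hv A).card) (a w)).pot A w ≤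
      ∑ w ∈ S.R, S.pot A w := by
  obtain ⟨hT, hB⟩ := AskH_pos A hA
  have hTr : (0 : ℝ) < A.Th := by exact_mod_cast hT
  have hBr : (0 : ℝ) < A.Bm := by exact_mod_cast hB
  have hn1 := hA.n1
  have hh4 := hA.h4
  -- the exits
  have hexit := exit_x hL A S hV (S.XX A.n) (S.YY A.n) (Finset.filter_subset _ _)
    (Finset.filter_subset _ _)
    (fun x hx y hy hxy => ⟨Finset.mem_filter.mpr ⟨hx, y, hy, hxy⟩,
      Finset.mem_filter.mpr ⟨hy, x, hx, hxy⟩⟩)
    (fun x => AskH_cum A S x \ S.cum x.1 x.2)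
    (by
      intro p r O O' h
      have h1 := (hV.cloc r O O' h).1
      have h2 := (hV.locX r (O : (ι → K) → K) (O' : (ι → K) → K) h).2.1
      have h3 : S.V r (O : L) = S.V r (O' : L) := by
        unfold HSt.V
        rw [h2]
      have h4 : AskH_cum A S (r, O) = AskH_cum A S (r, O') := by
        unfold AskH_cum
        simp only
        rw [h1, h3]
      simp only
      rw [h4, h1])
    (Finset.univ \ (S.Q ∪ S.hv A))
    (by
      intro x hx
      have h1 := deg_x hL A S hV hU x hx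
      have h2 : 2 ≤ A.h - 1 := by omega
      exact (Nat.mul_le_mul_right _ h2).trans h1)
    (by
      intro p hp
      rw [Finset.mem_sdiff, Finset.mem_union, not_or] at hp
      have h1 : S.Light A p := by
        by_contra hl
        exact hp.2.2 (Finset.mem_filter.mpr ⟨Finset.mem_univ _, hp.2.1, hl⟩)
      exact light_y hL A hA S hV hU p h1.1)
  have hexit' : A.Th * (S.R.filter fun w => AskH_ex A S w).card ≤
      4 * ∑ w ∈ S.R, ((AskH_cum A S (wx w) \ S.cum (wx w).1 (wx w).2) ∩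
          (Finset.univ \ (S.Q ∪ S.hv A))).card := by
    unfold AskH_ex
    convert hexit
  have hexitr : (A.Th : ℝ) * ((S.R.filter fun w => AskH_ex A S w).card : ℝ) ≤
      4 * ∑ w ∈ S.R, ((AskH_cum A S (wx w) \ S.cum (wx w).1 (wx w).2).card : ℝ) := by
    calc (A.Th : ℝ) * ((S.R.filter fun w => AskH_ex A S w).card : ℝ)
        ≤ 4 * ∑ w ∈ S.R, (((AskH_cum A S (wx w) \ S.cum (wx w).1 (wx w).2) ∩
          (Finset.univ \ (S.Q ∪ S.hv A))).card : ℝ) := by exact_mod_cast hexit'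
      _ ≤ _ := by
        refine mul_le_mul_of_nonneg_left (Finset.sum_le_sum fun w _ => ?_) (by norm_num)
        exact_mod_cast Finset.card_le_card Finset.inter_subset_left
  -- the heavy points
  have hheavy : ((S.hv A).card : ℝ) * (S.RW A.n).card ≤
      A.Th * ∑ w ∈ S.R, ∑ p ∈ S.hv A, ((if p ∈ S.PB (wy w).1 (wy w).2 then (1 : ℝ) else 0) +
        (if p ∈ S.cum (wx w).1 (wx w).2 then (1 : ℝ) else 0)) := by
    have h1 : ∀ p ∈ S.hv A, ((S.RW A.n).card : ℝ) ≤ A.Th * ∑ w ∈ S.RW A.n,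
        ((if p ∈ S.PB (wy w).1 (wy w).2 then (1 : ℝ) else 0) +
        (if p ∈ S.cum (wx w).1 (wx w).2 then (1 : ℝ) else 0)) := by
      intro p hp
      have hp2 := (Finset.mem_filter.mp hp).2.2
      rw [Finset.sum_add_distrib, Finset.sum_boole, Finset.sum_boole]
      have h2 : (S.RW A.n).card ≤
          A.Th * (((S.RW A.n).filter fun w => p ∈ S.PB (wy w).1 (wy w).2).card +
          ((S.RW A.n).filter fun w => p ∈ S.cum (wx w).1 (wx w).2).card) := by
        by_contra hlt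
        push Not at hlt
        apply hp2
        constructor
        · exact (Nat.mul_le_mul_left _ (Nat.le_add_right _ _)).trans hlt.le
        · exact (Nat.mul_le_mul_left _ (Nat.le_add_left _ _)).trans hlt.le
      exact_mod_cast h2
    calc ((S.hv A).card : ℝ) * (S.RW A.n).card = ∑ p ∈ S.hv A, ((S.RW A.n).card : ℝ) := by
          rw [Finset.sum_const, nsmul_eq_mul]
      _ ≤ ∑ p ∈ S.hv A, A.Th * ∑ w ∈ S.RW A.n,
          ((if p ∈ S.PB (wy w).1 (wy w).2 then (1 : ℝ) else 0) +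
          (if p ∈ S.cum (wx w).1 (wx w).2 then (1 : ℝ) else 0)) := Finset.sum_le_sum h1
      _ = A.Th * ∑ w ∈ S.RW A.n, ∑ p ∈ S.hv A,
          ((if p ∈ S.PB (wy w).1 (wy w).2 then (1 : ℝ) else 0) +
          (if p ∈ S.cum (wx w).1 (wx w).2 then (1 : ℝ) else 0)) := by
          rw [← Finset.mul_sum, Finset.sum_comm]
      _ ≤ _ := by
          refine mul_le_mul_of_nonneg_left ?_ hTr.le
          refine Finset.sum_le_sum_of_subset_of_nonneg (Finset.filter_subset _ _) ?_
          intro w _ _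
          refine Finset.sum_nonneg fun p _ => ?_
          split_ifs <;> norm_num
  -- the good executions
  have hgood : ∑ w ∈ S.R, (if S.good w then ((S.hv A).card : ℝ) / A.Bm else 0) ≤
      ((S.hv A).card : ℝ) / A.Bm * (S.RW A.n).card := by
    rw [← Finset.sum_filter, Finset.sum_const, nsmul_eq_mul, mul_comm]
    refine mul_le_mul_of_nonneg_left ?_ (by positivity)
    have : (S.R.filter fun w => S.good w) ⊆ S.RW A.n := by
      intro w hw
      rw [Finset.mem_filter] at hw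
      exact Finset.mem_filter.mpr ⟨hw.1, AskH_good_wg A S hV w hw.2⟩
    exact_mod_cast Finset.card_le_card this
  -- the sum
  have hsum := Finset.sum_le_sum (s := S.R) fun w _ => AskH_term A hA S hV w (a w) (ha w)
  rw [Finset.sum_sub_distrib, Finset.sum_sub_distrib, Finset.sum_sub_distrib,
    Finset.sum_add_distrib, ← Finset.mul_sum, ← Finset.mul_sum, Finset.sum_boole] at hsum
  have k1 : ((S.R.filter fun w => AskH_ex A S w).card : ℝ) ≤
      4 / (A.Th : ℝ) * ∑ w ∈ S.R, ((AskH_cum A S (wx w) \ S.cum (wx w).1 (wx w).2).card : ℝ) := by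
    rw [div_mul_eq_mul_div, le_div_iff₀ hTr, mul_comm]
    exact hexitr
  have k2 : ((S.hv A).card : ℝ) / A.Bm * (S.RW A.n).card ≤ (A.Th : ℝ) / A.Bm *
      ∑ w ∈ S.R, ∑ p ∈ S.hv A, ((if p ∈ S.PB (wy w).1 (wy w).2 then (1 : ℝ) else 0) +
        (if p ∈ S.cum (wx w).1 (wx w).2 then (1 : ℝ) else 0)) := by
    rw [div_mul_eq_mul_div, div_mul_eq_mul_div]
    exact div_le_div_of_nonneg_right hheavy hBr.le
  linarith

end Pool.Agent.LinOT
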