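import Pool.Agent.Lib.MP_ae38e0_lc.Half.ValidOps

set_option autoImplicit false

/-!
# Half-algebraic attack: the asks of the eavesdropper, first kind (ROW ha-AskX)
-/

namespace Pool.Agent.LinOT

open Classical

variable {K : Type} [Field K] {ι : Type} [Fintype ι] {L : Submodule K ((ι → K) → K)} [Fintype L]
  {StX StY RX RY : Type} [Fintype RX] [Fintype RY]

/-- The cumulative sets do not change. -/
theorem AskX_cum (A : Par) (S : HSt L StX StY RX RY) (hV : S.Valid A)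
    (hk : S.k < A.Kc) (J : Finset ι) (hJ : J.card ≤ A.n ^ 2) (a : List K) (r : RX) (O : L) :
    (S.ask A J (S.k + 1) S.b a).cum r O = S.cum r O := by
  show S.cum r O ∪ TT (A.sk (S.k + 1)) (S.Q ∪ J) (S.V r O) = S.cum r O
  apply Finset.union_eq_left.mpr
  refine Finset.Subset.trans (TT_ask hJ) ?_
  rw [← sk_succ A S.k hk]
  exact hV.cT r O

theorem AskX_term (A : Par) (S : HSt L StX StY RX RY) (hV : S.Valid A)
    (hk : S.k < A.Kc) (x : RX × L) (a : List K)
    (ha : a.length = (TT A.n S.Q (S.V x.1 x.2)).card) (w : RX × RY × L) :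
    (S.ask A (TT A.n S.Q (S.V x.1 x.2)) (S.k + 1) S.b a).pot A w ≤
      S.pot A w + (if S.good w then 1 / (A.Kc : ℝ) else 0) -
        (if ¬ S.WG A.n x (wy w) then (A.h : ℝ) / A.Kc else 0) := by
  set J := TT A.n S.Q (S.V x.1 x.2) with hJdef
  have hJ : J.card ≤ A.n ^ 2 := TTn_card A S hV x.1 x.2
  have hQ : (S.ask A J (S.k + 1) S.b a).Q = S.Q ∪ J := ask_Q A S J _ _ a ha
  have hcum := AskX_cum A S hV hk J hJ a w.1 w.2.2
  have hcumn : S.cumn w.1 w.2.2 ⊆ (S.ask A J (S.k + 1) S.b a).cumn w.1 w.2.2 :=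
    Finset.subset_union_left
  have hPB : (S.ask A J (S.k + 1) S.b a).PB w.2.1 w.2.2 = S.PB w.2.1 w.2.2 := rfl
  have hk' : (S.ask A J (S.k + 1) S.b a).k = S.k + 1 := rfl
  have hb' : (S.ask A J (S.k + 1) S.b a).b = S.b := rfl
  have hKc : 0 < (A.Kc : ℝ) := by
    have : 0 < A.Kc := by omega
    exact_mod_cast this
  have hgood : S.good w → (S.ask A J (S.k + 1) S.b a).good w := by
    intro h
    unfold HSt.good at h ⊢
    rw [hcum, hQ, hPB]
    refine h.mono_left ?_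
    exact Finset.sdiff_subset_sdiff (Finset.Subset.refl _) Finset.subset_union_left
  have h1 : (if (S.ask A J (S.k + 1) S.b a).good w then
        min 1 (((S.k + 1 : ℕ) : ℝ) / A.Kc + (S.b : ℝ) / A.Bm) else 1) ≤
      (if S.good w then min 1 ((S.k : ℝ) / A.Kc + (S.b : ℝ) / A.Bm) else 1) +
        (if S.good w then 1 / (A.Kc : ℝ) else 0) := by
    by_cases hg : S.good w
    · rw [if_pos (hgood hg), if_pos hg, if_pos hg]
      push_cast
      have h2 : ((S.k : ℝ) + 1) / A.Kc = (S.k : ℝ) / A.Kc + 1 / A.Kc := by ring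
      rw [h2]
      have h3 : 0 ≤ 1 / (A.Kc : ℝ) := by positivity
      rcases le_total 1 ((S.k : ℝ) / A.Kc + (S.b : ℝ) / A.Bm) with h4 | h4
      · rw [min_eq_left h4]
        exact (min_le_left _ _).trans (by linarith)
      · rw [min_eq_right h4]
        exact (min_le_right _ _).trans (by linarith)
    · rw [if_neg hg, if_neg hg]
      split
      · exact (min_le_left _ _).trans (by linarith)
      · linarith
  have h2 : ((S.PB w.2.1 w.2.2 ∩ S.Q).card : ℝ) + (if ¬ S.WG A.n x (wy w) then (1 : ℝ) else 0) ≤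
      ((S.PB w.2.1 w.2.2 ∩ (S.Q ∪ J)).card : ℝ) := by
    by_cases hw : ¬ S.WG A.n x (wy w)
    · rw [if_pos hw]
      have h3 : (S.PB w.2.1 w.2.2 ∩ S.Q).card < (S.PB w.2.1 w.2.2 ∩ (S.Q ∪ J)).card := by
        apply Finset.card_lt_card
        unfold HSt.WG at hw
        rw [Finset.not_disjoint_iff] at hw
        obtain ⟨p, hp1, hp2⟩ := hw
        refine Finset.ssubset_iff_of_subset
          (Finset.inter_subset_inter (Finset.Subset.refl _) Finset.subset_union_left) |>.mpr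
          ⟨p, Finset.mem_inter.mpr ⟨hp2, Finset.mem_union_right _ hp1⟩, ?_⟩
        intro h4
        exact (mem_TT.mp hp1).1 (Finset.mem_inter.mp h4).2
      exact_mod_cast h3
    · rw [if_neg hw, add_zero]
      exact_mod_cast Finset.card_le_card
        (Finset.inter_subset_inter (Finset.Subset.refl _) Finset.subset_union_left)
  have h3 : ((S.cumn w.1 w.2.2 ∩ S.Q).card : ℝ) ≤
      (((S.ask A J (S.k + 1) S.b a).cumn w.1 w.2.2 ∩ (S.Q ∪ J)).card : ℝ) := by
    exact_mod_cast Finset.card_le_card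
      (Finset.inter_subset_inter hcumn Finset.subset_union_left)
  have h4 : ((S.cum w.1 w.2.2 ∩ S.Q).card : ℝ) ≤
      ((S.cum w.1 w.2.2 ∩ (S.Q ∪ J)).card : ℝ) := by
    exact_mod_cast Finset.card_le_card
      (Finset.inter_subset_inter (Finset.Subset.refl _) Finset.subset_union_left)
  have h5 : (A.h : ℝ) / A.Kc * ((A.n : ℝ) + (A.n : ℝ) ^ 2 -
        (S.PB w.2.1 w.2.2 ∩ (S.Q ∪ J)).card -
        ((S.ask A J (S.k + 1) S.b a).cumn w.1 w.2.2 ∩ (S.Q ∪ J)).card) ≤
      (A.h : ℝ) / A.Kc * ((A.n : ℝ) + (A.n : ℝ) ^ 2 - (S.PB w.2.1 w.2.2 ∩ S.Q).card -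
        (S.cumn w.1 w.2.2 ∩ S.Q).card) -
        (if ¬ S.WG A.n x (wy w) then (A.h : ℝ) / A.Kc else 0) := by
    have h6 : (if ¬ S.WG A.n x (wy w) then (A.h : ℝ) / A.Kc else 0) =
        (A.h : ℝ) / A.Kc * (if ¬ S.WG A.n x (wy w) then (1 : ℝ) else 0) := by
      split <;> simp
    rw [h6, ← mul_sub]
    apply mul_le_mul_of_nonneg_left _ (by positivity)
    linarith
  have h6 : (A.Th : ℝ) / A.Bm * ((A.n : ℝ) + A.n * A.sm - (S.PB w.2.1 w.2.2 ∩ (S.Q ∪ J)).card -
        (S.cum w.1 w.2.2 ∩ (S.Q ∪ J)).card) ≤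
      (A.Th : ℝ) / A.Bm * ((A.n : ℝ) + A.n * A.sm - (S.PB w.2.1 w.2.2 ∩ S.Q).card -
        (S.cum w.1 w.2.2 ∩ S.Q).card) := by
    apply mul_le_mul_of_nonneg_left _ (by positivity)
    have h7 : (0 : ℝ) ≤ (if ¬ S.WG A.n x (wy w) then (1 : ℝ) else 0) := by
      split <;> norm_num
    linarith
  unfold HSt.pot
  rw [hQ, hcum, hPB, hk', hb']
  linarith

/-- PROOF. Let `J = TT n Q V(x)`, `#J ≤ n^2` (`TTn_card`), `S' = S.ask ..`, `S'.Q = Q ∪ J` (`ask_Q`).
`S'.cum = S.cum`: `TT (sk (k+1)) (Q ∪ J) V ⊆ TT (sk (k+1) + n^2) Q V = TT (sk k) Q V ⊆ cum`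
(`TT_ask`, `sk_succ`, `cT`).  So `good w → good' w`.  Termwise: the first term grows by at most
`1/Kc` if `good w`, and not at all otherwise (`good' w` or not, it is `≤ 1`); `good w → w ∈ RW`
(`TT n Q V ⊆ cum \ Q` by `cT`, `n_le_sk`, `TT_mono`, `TT_disj`).  In the second term
`#(PB ∩ Q')` is at least `#(PB ∩ Q) + 1` for `w ∈ RW` with `¬ WG x (wy w)` (some `p ∈ J ∩ PB`,
`p ∉ Q`), and `#(cumn' ∩ Q') ≥ #(cumn ∩ Q)`.  The other terms do not grow.  So
`∑ pot' ≤ ∑ pot + #RW / Kc - (h/Kc) * #{w ∈ RW | ¬ WG x (wy w)} ≤ ∑ pot`. -/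
theorem ask_x_pot (A : Par) (hA : A.Ok) (S : HSt L StX StY RX RY) (hV : S.Valid A)
    (hk : S.k < A.Kc) (x : RX × L) (hx : (S.RW A.n).card <
        A.h * ((S.RW A.n).filter fun w => ¬ S.WG A.n x (wy w)).card)
    (a : RX × RY × L → List K) (ha : ∀ w, (a w).length = (TT A.n S.Q (S.V x.1 x.2)).card) :
    ∑ w ∈ S.R, (S.ask A (TT A.n S.Q (S.V x.1 x.2)) (S.k + 1) S.b (a w)).pot A w ≤
      ∑ w ∈ S.R, S.pot A w := by
  have hKc : 0 < (A.Kc : ℝ) := by
    have : 0 < A.Kc := by omega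
    exact_mod_cast this
  refine (Finset.sum_le_sum fun w _ => AskX_term A S hV hk x (a w) (ha w) w).trans ?_
  rw [Finset.sum_sub_distrib, Finset.sum_add_distrib]
  have h1 : ∑ w ∈ S.R, (if S.good w then 1 / (A.Kc : ℝ) else 0) ≤
      (S.RW A.n).card * (1 / (A.Kc : ℝ)) := by
    rw [← Finset.sum_filter, Finset.sum_const, nsmul_eq_mul]
    apply mul_le_mul_of_nonneg_right _ (by positivity)
    have : (S.R.filter fun w => S.good w) ⊆ S.RW A.n := by
      intro w hw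
      rw [Finset.mem_filter] at hw
      unfold HSt.RW
      rw [Finset.mem_filter]
      refine ⟨hw.1, ?_⟩
      have h2 := hw.2
      unfold HSt.good at h2
      unfold HSt.WG
      refine h2.mono_left ?_
      intro p hp
      rw [Finset.mem_sdiff]
      refine ⟨hV.cT w.1 w.2.2 (TT_mono (n_le_sk A S.k) le_rfl hp), (mem_TT.mp hp).1⟩
    exact_mod_cast Finset.card_le_card this
  have h2 : (((S.RW A.n).filter fun w => ¬ S.WG A.n x (wy w)).card : ℝ) * ((A.h : ℝ) / A.Kc) ≤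
      ∑ w ∈ S.R, (if ¬ S.WG A.n x (wy w) then (A.h : ℝ) / A.Kc else 0) := by
    rw [← Finset.sum_filter, Finset.sum_const, nsmul_eq_mul]
    apply mul_le_mul_of_nonneg_right _ (by positivity)
    have : ((S.RW A.n).filter fun w => ¬ S.WG A.n x (wy w)) ⊆
        (S.R.filter fun w => ¬ S.WG A.n x (wy w)) := by
      apply Finset.filter_subset_filter
      exact Finset.filter_subset _ _
    exact_mod_cast Finset.card_le_card this
  have h3 : ((S.RW A.n).card : ℝ) <
      A.h * ((S.RW A.n).filter fun w => ¬ S.WG A.n x (wy w)).card := by exact_mod_cast hx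
  have h4 : ((S.RW A.n).card : ℝ) * (1 / (A.Kc : ℝ)) ≤
      (((S.RW A.n).filter fun w => ¬ S.WG A.n x (wy w)).card : ℝ) * ((A.h : ℝ) / A.Kc) := by
    rw [mul_one_div, ← mul_div_assoc]
    apply div_le_div_of_nonneg_right _ hKc.le
    linarith [mul_comm (A.h : ℝ) (((S.RW A.n).filter fun w => ¬ S.WG A.n x (wy w)).card : ℝ)]
  linarith

end Pool.Agent.LinOT
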