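import Pool.Agent.Lib.MP_ae38e0_lc.Half.ValidOps

set_option autoImplicit false

/-!
# Half-algebraic attack: the asks of the eavesdropper, second kind (ROW ha-AskY)
-/

namespace Pool.Agent.LinOT

open Classical

variable {K : Type} [Field K] {ι : Type} [Fintype ι] {L : Submodule K ((ι → K) → K)} [Fintype L]
  {StX StY RX RY : Type} [Fintype RX] [Fintype RY]

omit [Fintype L] [Fintype RX] [Fintype RY] in
/-- A good execution is weakly good. -/
theorem AskY_good_WG (A : Par) (S : HSt L StX StY RX RY) (hV : S.Valid A)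
    (w : RX × RY × L) (hw : S.good w) : S.WG A.n (wx w) (wy w) := by
  unfold HSt.good at hw
  unfold HSt.WG wx wy
  refine Disjoint.mono_left ?_ hw
  intro p hp
  rw [Finset.mem_sdiff]
  exact ⟨hV.cT _ _ (TT_mono (n_le_sk A S.k) le_rfl hp), (mem_TT.mp hp).1⟩

omit [Fintype L] [Fintype RX] [Fintype RY] in
/-- The cumulative sets do not change when at most `n ^ 2` points are asked. -/
theorem AskY_cum (A : Par) (S : HSt L StX StY RX RY) (hV : S.Valid A) (hk : S.k < A.Kc)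
    (J : Finset ι) (hJ : J.card ≤ A.n ^ 2) (a : List K) (r : RX) (O : L) :
    (S.ask A J (S.k + 1) S.b a).cum r O = S.cum r O := by
  show S.cum r O ∪ TT (A.sk (S.k + 1)) (S.Q ∪ J) (S.V r O) = S.cum r O
  apply Finset.union_eq_left.mpr
  refine (TT_ask hJ).trans ?_
  rw [← sk_succ A S.k hk]
  exact hV.cT r O

omit [Fintype L] [Fintype RX] [Fintype RY] in
/-- The change of the potential in one execution. -/
theorem AskY_term (A : Par) (S : HSt L StX StY RX RY) (hV : S.Valid A)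
    (hk : S.k < A.Kc) (J : Finset ι) (hJ : J.card ≤ A.n ^ 2)
    (a : List K) (ha : a.length = J.card) (w : RX × RY × L) (P : Prop) [Decidable P]
    (hP : P → ∃ p, p ∉ S.Q ∧ p ∈ J ∧ p ∈ S.cumn w.1 w.2.2) :
    (S.ask A J (S.k + 1) S.b a).pot A w ≤
      S.pot A w + (if S.good w then 1 / (A.Kc : ℝ) else 0) -
        (if P then (A.h : ℝ) / (A.Kc : ℝ) else 0) := by
  have hQ := ask_Q A S J (S.k + 1) S.b a ha
  have hcum := AskY_cum A S hV hk J hJ a
  have hcumn : ∀ r (O : L), S.cumn r O ⊆ (S.ask A J (S.k + 1) S.b a).cumn r O := by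
    intro r O
    exact Finset.subset_union_left
  have hKc : (0 : ℝ) < (A.Kc : ℝ) := by
    have : 0 < A.Kc := by omega
    exact_mod_cast this
  have hK0 : (0 : ℝ) ≤ (A.h : ℝ) / (A.Kc : ℝ) := by positivity
  have hB0 : (0 : ℝ) ≤ (A.Th : ℝ) / (A.Bm : ℝ) := by positivity
  set S' := S.ask A J (S.k + 1) S.b a with hS'
  have hPB : S'.PB w.2.1 w.2.2 = S.PB w.2.1 w.2.2 := rfl
  -- first term
  have h1 : (if S'.good w then min 1 ((S'.k : ℝ) / A.Kc + (S'.b : ℝ) / A.Bm) else 1) ≤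
      (if S.good w then min 1 ((S.k : ℝ) / A.Kc + (S.b : ℝ) / A.Bm) else 1) +
        (if S.good w then 1 / (A.Kc : ℝ) else 0) := by
    by_cases hg : S.good w
    · have hg' : S'.good w := by
        unfold HSt.good at hg ⊢
        rw [hcum, hQ, hPB]
        refine Disjoint.mono_left ?_ hg
        intro p hp
        rw [Finset.mem_sdiff] at hp ⊢
        exact ⟨hp.1, fun h => hp.2 (Finset.mem_union_left _ h)⟩
      rw [if_pos hg, if_pos hg', if_pos hg]
      have hk' : ((S'.k : ℕ) : ℝ) = (S.k : ℝ) + 1 := by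
        show (((S.k + 1 : ℕ)) : ℝ) = (S.k : ℝ) + 1
        push_cast
        ring
      have hb' : ((S'.b : ℕ) : ℝ) = (S.b : ℝ) := rfl
      rw [hk', hb', add_div]
      have h0 : (0 : ℝ) ≤ 1 / (A.Kc : ℝ) := by positivity
      rcases le_total (1 : ℝ) ((S.k : ℝ) / A.Kc + (S.b : ℝ) / A.Bm) with h | h
      · rw [min_eq_left h]
        exact (min_le_left _ _).trans (by linarith)
      · rw [min_eq_right h]
        exact (min_le_right _ _).trans (by linarith)
    · rw [if_neg hg, if_neg hg, add_zero]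
      split_ifs
      · exact min_le_left _ _
      · exact le_rfl
  -- the cardinalities
  have c1 : ((S.PB w.2.1 w.2.2 ∩ S.Q).card : ℝ) ≤ ((S'.PB w.2.1 w.2.2 ∩ S'.Q).card : ℝ) := by
    have : (S.PB w.2.1 w.2.2 ∩ S.Q).card ≤ (S'.PB w.2.1 w.2.2 ∩ S'.Q).card := by
      apply Finset.card_le_card
      rw [hPB, hQ]
      exact Finset.inter_subset_inter_left Finset.subset_union_left
    exact_mod_cast this
  have c2 : ((S.cum w.1 w.2.2 ∩ S.Q).card : ℝ) ≤ ((S'.cum w.1 w.2.2 ∩ S'.Q).card : ℝ) := by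
    have : (S.cum w.1 w.2.2 ∩ S.Q).card ≤ (S'.cum w.1 w.2.2 ∩ S'.Q).card := by
      apply Finset.card_le_card
      rw [hcum, hQ]
      exact Finset.inter_subset_inter_left Finset.subset_union_left
    exact_mod_cast this
  have c3 : ((S.cumn w.1 w.2.2 ∩ S.Q).card : ℝ) + (if P then 1 else 0) ≤
      ((S'.cumn w.1 w.2.2 ∩ S'.Q).card : ℝ) := by
    have : (S.cumn w.1 w.2.2 ∩ S.Q).card + (if P then 1 else 0) ≤
        (S'.cumn w.1 w.2.2 ∩ S'.Q).card := by
      by_cases hp : P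
      · obtain ⟨p, hp1, hp2, hp3⟩ := hP hp
        rw [if_pos hp]
        have hni : p ∉ S.cumn w.1 w.2.2 ∩ S.Q := fun h => hp1 (Finset.mem_inter.mp h).2
        rw [← Finset.card_insert_of_notMem hni]
        apply Finset.card_le_card
        rw [hQ]
        intro q hq
        rw [Finset.mem_insert, Finset.mem_inter] at hq
        rw [Finset.mem_inter]
        rcases hq with hq | hq
        · rw [hq]
          exact ⟨hcumn _ _ hp3, Finset.mem_union_right _ hp2⟩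
        · exact ⟨hcumn _ _ hq.1, Finset.mem_union_left _ hq.2⟩
      · rw [if_neg hp, add_zero]
        apply Finset.card_le_card
        rw [hQ]
        exact Finset.inter_subset_inter (hcumn _ _) Finset.subset_union_left
    exact_mod_cast this
  have c4 : ((S'.cum w.1 w.2.2).card : ℝ) = ((S.cum w.1 w.2.2).card : ℝ) := by
    rw [hcum]
  have c5 : ((S'.PB w.2.1 w.2.2).card : ℝ) = ((S.PB w.2.1 w.2.2).card : ℝ) := by
    rw [hPB]
  have h2 : (A.h : ℝ) / A.Kc * ((A.n : ℝ) + (A.n : ℝ) ^ 2 - (S'.PB w.2.1 w.2.2 ∩ S'.Q).card -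
      (S'.cumn w.1 w.2.2 ∩ S'.Q).card) ≤
      (A.h : ℝ) / A.Kc * ((A.n : ℝ) + (A.n : ℝ) ^ 2 - (S.PB w.2.1 w.2.2 ∩ S.Q).card -
      (S.cumn w.1 w.2.2 ∩ S.Q).card) - (if P then (A.h : ℝ) / (A.Kc : ℝ) else 0) := by
    have e : (if P then (A.h : ℝ) / (A.Kc : ℝ) else 0) =
        (A.h : ℝ) / (A.Kc : ℝ) * (if P then 1 else 0) := by
      split_ifs <;> simp
    rw [e, ← mul_sub]
    apply mul_le_mul_of_nonneg_left _ hK0
    linarith
  have h3 : (A.Th : ℝ) / A.Bm * ((A.n : ℝ) + A.n * A.sm - (S'.PB w.2.1 w.2.2 ∩ S'.Q).card -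
      (S'.cum w.1 w.2.2 ∩ S'.Q).card) ≤
      (A.Th : ℝ) / A.Bm * ((A.n : ℝ) + A.n * A.sm - (S.PB w.2.1 w.2.2 ∩ S.Q).card -
      (S.cum w.1 w.2.2 ∩ S.Q).card) := by
    apply mul_le_mul_of_nonneg_left _ hB0
    linarith
  unfold HSt.pot
  rw [c4, c5]
  linarith

/-- PROOF. As `ask_x_pot`, with `J = PB y \ Q`, `#J ≤ n ≤ n^2` (`n ≥ 1`).  Progress: for `w ∈ RW` with
`¬ WG (wx w) y` some `p ∈ TT n Q V(w)` (so `p ∉ Q`, and `p ∈ cumn w` by `cTn`) is in `PB y`, so
`p ∈ J` and `#(cumn' ∩ Q') ≥ #(cumn ∩ Q) + 1`. -/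
theorem ask_y_pot (A : Par) (hA : A.Ok) (S : HSt L StX StY RX RY) (hV : S.Valid A)
    (hk : S.k < A.Kc) (y : RY × L) (hy : (S.RW A.n).card <
        A.h * ((S.RW A.n).filter fun w => ¬ S.WG A.n (wx w) y).card)
    (a : RX × RY × L → List K) (ha : ∀ w, (a w).length = (S.PB y.1 y.2 \ S.Q).card) :
    ∑ w ∈ S.R, (S.ask A (S.PB y.1 y.2 \ S.Q) (S.k + 1) S.b (a w)).pot A w ≤
      ∑ w ∈ S.R, S.pot A w := by
  have hn := hA.n1
  have hJ : (S.PB y.1 y.2 \ S.Q).card ≤ A.n ^ 2 := by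
    calc (S.PB y.1 y.2 \ S.Q).card ≤ (S.PB y.1 y.2).card :=
          Finset.card_le_card Finset.sdiff_subset
      _ ≤ A.n := hV.pbY _ _
      _ ≤ A.n ^ 2 := by nlinarith
  have hKc : (0 : ℝ) < (A.Kc : ℝ) := by
    have : 0 < A.Kc := by omega
    exact_mod_cast this
  have hterm : ∀ w ∈ S.R, (S.ask A (S.PB y.1 y.2 \ S.Q) (S.k + 1) S.b (a w)).pot A w ≤
      S.pot A w + (if S.WG A.n (wx w) (wy w) then 1 / (A.Kc : ℝ) else 0) -
        (if (S.WG A.n (wx w) (wy w) ∧ ¬ S.WG A.n (wx w) y) then (A.h : ℝ) / (A.Kc : ℝ) else 0) := by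
    intro w _
    have h := AskY_term A S hV hk (S.PB y.1 y.2 \ S.Q) hJ (a w) (ha w) w
      (S.WG A.n (wx w) (wy w) ∧ ¬ S.WG A.n (wx w) y) ?_
    · have hgw : (if S.good w then 1 / (A.Kc : ℝ) else 0) ≤
          (if S.WG A.n (wx w) (wy w) then 1 / (A.Kc : ℝ) else 0) := by
        by_cases hg : S.good w
        · rw [if_pos hg, if_pos (AskY_good_WG A S hV w hg)]
        · rw [if_neg hg]
          split_ifs
          · positivity
          · exact le_rfl
      linarith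
    · rintro ⟨-, h2⟩
      unfold HSt.WG at h2
      rw [Finset.not_disjoint_iff] at h2
      obtain ⟨p, hp1, hp2⟩ := h2
      have hpQ := (mem_TT.mp hp1).1
      exact ⟨p, hpQ, Finset.mem_sdiff.mpr ⟨hp2, hpQ⟩, hV.cTn _ _ hp1⟩
  refine (Finset.sum_le_sum hterm).trans ?_
  rw [Finset.sum_sub_distrib, Finset.sum_add_distrib]
  have e1 : ∑ w ∈ S.R, (if S.WG A.n (wx w) (wy w) then 1 / (A.Kc : ℝ) else 0) =
      ((S.RW A.n).card : ℝ) * (1 / (A.Kc : ℝ)) := by
    rw [← Finset.sum_filter, Finset.sum_const, nsmul_eq_mul]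
    rfl
  have e2 : ∑ w ∈ S.R, (if (S.WG A.n (wx w) (wy w) ∧ ¬ S.WG A.n (wx w) y)
      then (A.h : ℝ) / (A.Kc : ℝ) else 0) =
      (((S.RW A.n).filter fun w => ¬ S.WG A.n (wx w) y).card : ℝ) *
        ((A.h : ℝ) / (A.Kc : ℝ)) := by
    rw [← Finset.sum_filter, Finset.sum_const, nsmul_eq_mul]
    congr 2
    unfold HSt.RW
    rw [Finset.filter_filter]
  rw [e1, e2]
  have hy' : ((S.RW A.n).card : ℝ) ≤
      (A.h : ℝ) * (((S.RW A.n).filter fun w => ¬ S.WG A.n (wx w) y).card : ℝ) := by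
    exact_mod_cast hy.le
  have h3 : ((S.RW A.n).card : ℝ) * (1 / (A.Kc : ℝ)) ≤
      (A.h : ℝ) * (((S.RW A.n).filter fun w => ¬ S.WG A.n (wx w) y).card : ℝ) *
        (1 / (A.Kc : ℝ)) := by
    apply mul_le_mul_of_nonneg_right hy'
    positivity
  have h4 : (A.h : ℝ) * (((S.RW A.n).filter fun w => ¬ S.WG A.n (wx w) y).card : ℝ) *
        (1 / (A.Kc : ℝ)) = (((S.RW A.n).filter fun w => ¬ S.WG A.n (wx w) y).card : ℝ) *
        ((A.h : ℝ) / (A.Kc : ℝ)) := by ring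
  linarith

end Pool.Agent.LinOT
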