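import Pool.Agent.Lib.MP_ae38e0_lc.Half.Basic

set_option autoImplicit false

/-!
# Half-algebraic attack: closed states
-/

namespace Pool.Agent.LinOT

open Classical

variable {K : Type} [Field K] {ι : Type} [Fintype ι] {L : Submodule K ((ι → K) → K)} [Fintype L]
  {StX StY RX RY : Type} [Fintype RX] [Fintype RY]

/-- Closed states. -/
def HSt.Clo (S : HSt L StX StY RX RY) (A : Par) : Prop := S.Unc A ∧ ∀ p ∉ S.Q, S.Light A p

theorem four_le_Th (A : Par) (hA : A.Ok) : 4 * A.n ^ 2 ≤ A.Th := by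
  have h1 := hA.T1
  have h2 : A.n ≤ A.sm := Nat.le_add_right _ _
  have h3 := hA.h4
  rw [h1]
  calc 4 * A.n ^ 2 = 4 * 1 * A.n * A.n := by ring
    _ ≤ 4 * A.h * A.n * (A.sm + 1) := by
      gcongr
      · omega
      · omega

end Pool.Agent.LinOT
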