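import Mathlib

set_option autoImplicit false

/-!
# Half-algebraic attack: a lemma on bipartite graphs (ROW ha-GraphA)
-/

namespace Pool.Agent.LinOT

open Classical

/-- PROOF. `e := #edges > 0` as `a ∈ A` has a partner.  For `a ∈ A`: the edges `z` with `E a z.2` are
at least `e - e/h` (by `hA`), and they are `∑ b ∈ B with E a b, deg b` with `deg b ≤ #A`, so
`#{b | E a b} * #A * h ≥ (h-1) e`.  In the same way `#{a | E a b} * #B * h ≥ (h-1) e` for `b ∈ B`.
Hence for `a ∈ A`: `#{b ∈ B | ¬ E a b} * (h-1) e ≤ #B * h * ∑ b ∈ B with ¬ E a b, deg b ≤ #B * e`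
(by `hA` again: `h * #{z edge | ¬ E a z.2} ≤ e`).  Cancel `e`. -/
theorem graph_deg {α β : Type} (A : Finset α) (B : Finset β) (E : α → β → Prop) (h : ℕ)
    (hA : ∀ a ∈ A, h * ((A ×ˢ B).filter fun z => E z.1 z.2 ∧ ¬ E a z.2).card ≤
      ((A ×ˢ B).filter fun z => E z.1 z.2).card)
    (hB : ∀ b ∈ B, h * ((A ×ˢ B).filter fun z => E z.1 z.2 ∧ ¬ E z.1 b).card ≤
      ((A ×ˢ B).filter fun z => E z.1 z.2).card)
    (a : α) (ha : a ∈ A) (hp : ∃ b ∈ B, E a b) :
    (h - 1) * (B.filter fun b => ¬ E a b).card ≤ B.card := by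
  obtain ⟨b0, hb0, hab⟩ := hp
  have hepos : 0 < ((A ×ˢ B).filter fun z => E z.1 z.2).card := by
    rw [Finset.card_pos]
    exact ⟨(a, b0), by simp [ha, hb0, hab]⟩
  have hsplit : ∀ b : β, ((A ×ˢ B).filter fun z => E z.1 z.2 ∧ E z.1 b).card +
      ((A ×ˢ B).filter fun z => E z.1 z.2 ∧ ¬ E z.1 b).card =
      ((A ×ˢ B).filter fun z => E z.1 z.2).card := by
    intro b
    rw [← Finset.filter_filter, ← Finset.filter_filter]
    exact Finset.card_filter_add_card_filter_not (s := (A ×ˢ B).filter fun z => E z.1 z.2)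
      (fun z => E z.1 b)
  set e := ((A ×ˢ B).filter fun z => E z.1 z.2).card with he
  -- degrees on the right side
  have hdeg : ∀ b ∈ B, (h - 1) * e ≤ h * ((A.filter fun x => E x b).card * B.card) := by
    intro b hb
    have h1 : ((A ×ˢ B).filter fun z => E z.1 z.2 ∧ E z.1 b).card ≤
        (A.filter fun x => E x b).card * B.card := by
      rw [← Finset.card_product]
      apply Finset.card_le_card
      intro z hz
      simp only [Finset.mem_filter, Finset.mem_product] at hz ⊢
      exact ⟨⟨hz.1.1, hz.2.2⟩, hz.1.2⟩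
    have h2 := hB b hb
    have h3 := hsplit b
    have h4 : h * ((A ×ˢ B).filter fun z => E z.1 z.2 ∧ E z.1 b).card +
        h * ((A ×ˢ B).filter fun z => E z.1 z.2 ∧ ¬ E z.1 b).card = h * e := by
      rw [← mul_add, h3]
    have h5 : h * ((A ×ˢ B).filter fun z => E z.1 z.2 ∧ E z.1 b).card ≤
        h * ((A.filter fun x => E x b).card * B.card) := Nat.mul_le_mul_left h h1
    have h6 : (h - 1) * e = h * e - e := by rw [Nat.sub_mul, one_mul]
    omega
  have hbad : ((A ×ˢ B).filter fun z => E z.1 z.2 ∧ ¬ E a z.2).card =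
      ∑ b ∈ B.filter (fun b => ¬ E a b), (A.filter fun x => E x b).card := by
    have hr : ((A ×ˢ B).filter fun z => E z.1 z.2 ∧ ¬ E a z.2).card =
        ∑ b ∈ B, (A.filter fun x => E x b ∧ ¬ E a b).card := by
      simp only [Finset.card_filter]
      rw [Finset.sum_product_right]
    rw [hr, Finset.sum_filter]
    refine Finset.sum_congr rfl fun b _ => ?_
    by_cases hb : E a b
    · simp [hb]
    · simp [hb]
  have key : (B.filter fun b => ¬ E a b).card * ((h - 1) * e) ≤ B.card * e := by
    calc (B.filter fun b => ¬ E a b).card * ((h - 1) * e)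
        = ∑ b ∈ B.filter (fun b => ¬ E a b), (h - 1) * e := by
          rw [Finset.sum_const, smul_eq_mul]
      _ ≤ ∑ b ∈ B.filter (fun b => ¬ E a b), h * ((A.filter fun x => E x b).card * B.card) :=
          Finset.sum_le_sum fun b hb => hdeg b (Finset.mem_filter.mp hb).1
      _ = B.card * (h * ∑ b ∈ B.filter (fun b => ¬ E a b), (A.filter fun x => E x b).card) := by
          rw [Finset.mul_sum, Finset.mul_sum]
          exact Finset.sum_congr rfl fun b _ => by ring
      _ ≤ B.card * e := by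
          rw [← hbad]; exact Nat.mul_le_mul_left _ (hA a ha)
  have key2 : ((h - 1) * (B.filter fun b => ¬ E a b).card) * e ≤ B.card * e := by
    calc _ = (B.filter fun b => ¬ E a b).card * ((h - 1) * e) := by ring
      _ ≤ _ := key
  exact Nat.le_of_mul_le_mul_right key2 hepos

end Pool.Agent.LinOT
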