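import Pool.Agent.Lib.MP_ae38e0_lc.Half.FrameA
import Pool.Agent.Lib.MP_ae38e0_lc.Half.GraphA

set_option autoImplicit false

/-!
# Half-algebraic attack: unconfused states are close to products (ROW ha-FrameB)
-/

namespace Pool.Agent.LinOT

open Classical

variable {K : Type} [Field K] {ι : Type} [Fintype ι] {L : Submodule K ((ι → K) → K)} [Fintype L]
  {StX StY RX RY : Type} [Fintype RX] [Fintype RY]

theorem FrameB_swap {α β : Type} (A : Finset α) (B : Finset β) (P : α → β → Prop) :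
    ((B ×ˢ A).filter fun z => P z.2 z.1).card = ((A ×ˢ B).filter fun z => P z.1 z.2).card := by
  refine Finset.card_nbij' Prod.swap Prod.swap ?_ ?_ ?_ ?_
  · intro z hz
    simp only [Finset.coe_filter, Finset.mem_product, Set.mem_setOf_eq, Prod.fst_swap,
      Prod.snd_swap] at hz ⊢
    exact ⟨⟨hz.1.2, hz.1.1⟩, hz.2⟩
  · intro z hz
    simp only [Finset.coe_filter, Finset.mem_product, Set.mem_setOf_eq, Prod.fst_swap,
      Prod.snd_swap] at hz ⊢
    exact ⟨⟨hz.1.2, hz.1.1⟩, hz.2⟩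
  · intro z _; rfl
  · intro z _; rfl

theorem FrameB_le (h : ℕ) {a b a' b' : ℕ} (e1 : a' = a) (e2 : b' = b) (H : h * a ≤ b) :
    h * a' ≤ b' := by rw [e1, e2]; exact H

theorem FrameB_locY (A : Par) (S : HSt L StX StY RX RY) (hV : S.Valid A) (G : Finset ι → Prop) :
    LocP L S.SY (fun y => G (S.PB y.1 y.2)) := by
  intro r O O' h
  have h1 : S.PB r O = S.PB r O' := by
    unfold HSt.PB
    rw [(hV.locY r O O' h).2.1]
  show G (S.PB r O) ↔ G (S.PB r O')
  rw [h1]

theorem FrameB_locX (A : Par) (S : HSt L StX StY RX RY) (hV : S.Valid A)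
    (G : Submodule K (ι → K) → Prop) : LocP L S.SX (fun x => G (S.V x.1 x.2)) := by
  intro r O O' h
  have h1 : S.V r O = S.V r O' := by
    unfold HSt.V
    rw [(hV.locX r O O' h).2.1]
  show G (S.V r O) ↔ G (S.V r O')
  rw [h1]

theorem FrameB_true {St R : Type} (T : Side (ι → K) K St R) :
    LocP L T (fun _ : R × L => True) := fun _ _ _ _ => Iff.rfl

/-- all weakly good pairs -/
theorem FrameB_all (hL : ∀ O, O ∈ L ↔ ∃ f : ι → K, O = ev f) (A : Par)
    (S : HSt L StX StY RX RY) (hV : S.Valid A) :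
    ((S.XX A.n ×ˢ S.YY A.n).filter fun z => S.WG A.n z.1 z.2).card =
      kc L (S.kn.map Prod.fst) * (S.RW A.n).card := by
  have h := pair_xy hL A S hV (fun _ => True) (fun _ => True) (FrameB_true _) (FrameB_true _)
  simpa using h

theorem FrameB_y (hL : ∀ O, O ∈ L ↔ ∃ f : ι → K, O = ev f) (A : Par)
    (S : HSt L StX StY RX RY) (hV : S.Valid A) (G : RY × L → Prop) (hG : LocP L S.SY G) :
    ((S.XX A.n ×ˢ S.YY A.n).filter fun z => S.WG A.n z.1 z.2 ∧ G z.2).card =
      kc L (S.kn.map Prod.fst) * ((S.RW A.n).filter fun w => G (wy w)).card := by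
  have h := pair_xy hL A S hV (fun _ => True) G (FrameB_true _) hG
  simpa using h

theorem FrameB_x (hL : ∀ O, O ∈ L ↔ ∃ f : ι → K, O = ev f) (A : Par)
    (S : HSt L StX StY RX RY) (hV : S.Valid A) (G : RX × L → Prop) (hG : LocP L S.SX G) :
    ((S.XX A.n ×ˢ S.YY A.n).filter fun z => S.WG A.n z.1 z.2 ∧ G z.1).card =
      kc L (S.kn.map Prod.fst) * ((S.RW A.n).filter fun w => G (wx w)).card := by
  have h := pair_xy hL A S hV G (fun _ => True) hG (FrameB_true _)
  simpa using h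

theorem FrameB_hA (hL : ∀ O, O ∈ L ↔ ∃ f : ι → K, O = ev f) (A : Par)
    (S : HSt L StX StY RX RY) (hV : S.Valid A) (hU : S.Unc A) (a : RX × L) (ha : a ∈ S.XX A.n) :
    A.h * ((S.XX A.n ×ˢ S.YY A.n).filter fun z => S.WG A.n z.1 z.2 ∧ ¬ S.WG A.n a z.2).card ≤
      ((S.XX A.n ×ˢ S.YY A.n).filter fun z => S.WG A.n z.1 z.2).card := by
  have h1 := FrameB_y hL A S hV (fun y => ¬ S.WG A.n a y)
    (FrameB_locY A S hV (fun J => ¬ Disjoint (TT A.n S.Q (S.V a.1 a.2)) J))
  have h2 := hU.1 a ha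
  have h3 := FrameB_all hL A S hV
  have h4 : ((S.XX A.n ×ˢ S.YY A.n).filter fun z => S.WG A.n z.1 z.2 ∧ ¬ S.WG A.n a z.2).card =
      kc L (S.kn.map Prod.fst) * ((S.RW A.n).filter fun w => ¬ S.WG A.n a (wy w)).card := by
    convert h1
  rw [h3, h4]
  calc _ = kc L (S.kn.map Prod.fst) *
        (A.h * ((S.RW A.n).filter fun w => ¬ S.WG A.n a (wy w)).card) := by ring
    _ ≤ _ := Nat.mul_le_mul_left _ h2

theorem FrameB_hB (hL : ∀ O, O ∈ L ↔ ∃ f : ι → K, O = ev f) (A : Par)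
    (S : HSt L StX StY RX RY) (hV : S.Valid A) (hU : S.Unc A) (b : RY × L) (hb : b ∈ S.YY A.n) :
    A.h * ((S.XX A.n ×ˢ S.YY A.n).filter fun z => S.WG A.n z.1 z.2 ∧ ¬ S.WG A.n z.1 b).card ≤
      ((S.XX A.n ×ˢ S.YY A.n).filter fun z => S.WG A.n z.1 z.2).card := by
  have h1 := FrameB_x hL A S hV (fun x => ¬ S.WG A.n x b)
    (FrameB_locX A S hV (fun W => ¬ Disjoint (TT A.n S.Q W) (S.PB b.1 b.2)))
  have h2 := hU.2 b hb
  have h3 := FrameB_all hL A S hV
  have h4 : ((S.XX A.n ×ˢ S.YY A.n).filter fun z => S.WG A.n z.1 z.2 ∧ ¬ S.WG A.n z.1 b).card =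
      kc L (S.kn.map Prod.fst) * ((S.RW A.n).filter fun w => ¬ S.WG A.n (wx w) b).card := by
    convert h1
  rw [h3, h4]
  calc _ = kc L (S.kn.map Prod.fst) *
        (A.h * ((S.RW A.n).filter fun w => ¬ S.WG A.n (wx w) b).card) := by ring
    _ ≤ _ := Nat.mul_le_mul_left _ h2

theorem FrameB_px (A : Par) (S : HSt L StX StY RX RY) (x : RX × L) (hx : x ∈ S.XX A.n) :
    ∃ y ∈ S.YY A.n, S.WG A.n x y := by
  unfold HSt.XX at hx
  rw [Finset.mem_filter] at hx
  obtain ⟨hx1, y, hy, hxy⟩ := hx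
  exact ⟨y, Finset.mem_filter.2 ⟨hy, x, hx1, hxy⟩, hxy⟩

theorem FrameB_py (A : Par) (S : HSt L StX StY RX RY) (y : RY × L) (hy : y ∈ S.YY A.n) :
    ∃ x ∈ S.XX A.n, S.WG A.n x y := by
  unfold HSt.YY at hy
  rw [Finset.mem_filter] at hy
  obtain ⟨hy1, x, hx, hxy⟩ := hy
  exact ⟨x, Finset.mem_filter.2 ⟨hx, y, hy1, hxy⟩, hxy⟩

/-- Counting the edges over the vertices with `G`. -/
theorem FrameB_count {α β : Type} (A : Finset α) (B : Finset β) (E : α → β → Prop) (G : β → Prop)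
    (h T k e : ℕ) (hh : 4 ≤ h)
    (hd : ∀ b ∈ B, (h - 1) * (A.filter fun a => ¬ E a b).card ≤ A.card)
    (hp : ∀ b ∈ B, ∃ a ∈ A, E a b)
    (h1 : ((A ×ˢ B).filter fun z => E z.1 z.2 ∧ G z.2).card = k * e)
    (h2 : T * (k * e) ≤ ((A ×ˢ B).filter fun z => E z.1 z.2).card) :
    T * (B.filter G).card ≤ 2 * B.card := by
  rcases Finset.eq_empty_or_nonempty A with hA | hA
  · have hB : B = ∅ := by
      rw [Finset.eq_empty_iff_forall_notMem]
      intro b hb
      obtain ⟨a, ha, _⟩ := hp b hb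
      rw [hA] at ha
      exact Finset.notMem_empty _ ha
    rw [hB]
    simp
  have h3 : ((A ×ˢ B).filter fun z => E z.1 z.2 ∧ G z.2).card =
      ∑ b ∈ B.filter G, (A.filter fun a => E a b).card := by
    have h4 : ((A ×ˢ B).filter fun z => E z.1 z.2 ∧ G z.2).card =
        ∑ b ∈ B.filter G, (((A ×ˢ B).filter fun z => E z.1 z.2 ∧ G z.2).filter
          fun z => z.2 = b).card := by
      apply Finset.card_eq_sum_card_fiberwise
      intro z hz
      simp only [Finset.coe_filter, Finset.mem_product, Set.mem_setOf_eq] at hz ⊢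
      exact ⟨hz.1.2, hz.2.2⟩
    rw [h4]
    refine Finset.sum_congr rfl fun b hb => ?_
    rw [Finset.mem_filter] at hb
    refine Finset.card_nbij' (fun z => z.1) (fun a => (a, b)) ?_ ?_ ?_ ?_
    · intro z hz
      simp only [Finset.coe_filter, Finset.mem_product, Set.mem_setOf_eq, Finset.mem_filter] at hz ⊢
      obtain ⟨⟨⟨h5, _⟩, h6, _⟩, h7⟩ := hz
      rw [← h7]
      exact ⟨h5, h6⟩
    · intro a ha
      simp only [Finset.coe_filter, Finset.mem_product, Set.mem_setOf_eq, Finset.mem_filter] at ha ⊢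
      exact ⟨⟨⟨ha.1, hb.1⟩, ha.2, hb.2⟩, trivial⟩
    · intro z hz
      simp only [Finset.coe_filter, Finset.mem_product, Set.mem_setOf_eq, Finset.mem_filter] at hz
      exact Prod.ext rfl hz.2.symm
    · intro a _; rfl
  have h5 : ∀ b ∈ B, A.card ≤ 2 * (A.filter fun a => E a b).card := by
    intro b hb
    have h6 := hd b hb
    have h7 : (A.filter fun a => E a b).card + (A.filter fun a => ¬ E a b).card = A.card :=
      Finset.card_filter_add_card_filter_not _
    have h8 : 3 * (A.filter fun a => ¬ E a b).card ≤ (h - 1) * (A.filter fun a => ¬ E a b).card :=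
      Nat.mul_le_mul_right _ (by omega)
    omega
  have h6 : (B.filter G).card * A.card ≤ 2 * (k * e) := by
    rw [← h1, h3, Finset.mul_sum, ← smul_eq_mul, ← Finset.sum_const]
    exact Finset.sum_le_sum fun b hb => h5 b (Finset.mem_filter.1 hb).1
  have h7 : ((A ×ˢ B).filter fun z => E z.1 z.2).card ≤ A.card * B.card := by
    rw [← Finset.card_product]
    exact Finset.card_filter_le _ _
  have h8 : A.card * (T * (B.filter G).card) ≤ A.card * (2 * B.card) := by
    calc A.card * (T * (B.filter G).card) = T * ((B.filter G).card * A.card) := by ring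
      _ ≤ T * (2 * (k * e)) := Nat.mul_le_mul_left _ h6
      _ = 2 * (T * (k * e)) := by ring
      _ ≤ 2 * (A.card * B.card) := Nat.mul_le_mul_left _ (h2.trans h7)
      _ = A.card * (2 * B.card) := by ring
  exact Nat.le_of_mul_le_mul_left h8 (Finset.card_pos.2 hA)

/-- PROOF. `graph_deg` with `pair_xy` (`GX = True`, `GY y = ¬ WG x y`, and `True, True`). -/
theorem deg_x (hL : ∀ O, O ∈ L ↔ ∃ f : ι → K, O = ev f) (A : Par)
    (S : HSt L StX StY RX RY) (hV : S.Valid A) (hU : S.Unc A) (x : RX × L) (hx : x ∈ S.XX A.n) :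
    (A.h - 1) * ((S.YY A.n).filter fun y => ¬ S.WG A.n x y).card ≤ (S.YY A.n).card := by
  exact graph_deg (S.XX A.n) (S.YY A.n) (S.WG A.n) A.h (FrameB_hA hL A S hV hU)
    (FrameB_hB hL A S hV hU) x hx (FrameB_px A S x hx)

/-- PROOF. As `deg_x`, with the two factors exchanged (`graph_deg` for the flipped relation;
`Finset.card_bij` / `Finset.card_map` with `Prod.swap`). -/
theorem deg_y (hL : ∀ O, O ∈ L ↔ ∃ f : ι → K, O = ev f) (A : Par)
    (S : HSt L StX StY RX RY) (hV : S.Valid A) (hU : S.Unc A) (y : RY × L) (hy : y ∈ S.YY A.n) :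
    (A.h - 1) * ((S.XX A.n).filter fun x => ¬ S.WG A.n x y).card ≤ (S.XX A.n).card := by
  refine graph_deg (S.YY A.n) (S.XX A.n) (fun y x => S.WG A.n x y) A.h ?_ ?_ y hy
    (FrameB_py A S y hy)
  · intro b hb
    have h1 := FrameB_hB hL A S hV hU b hb
    have e1 := FrameB_swap (S.XX A.n) (S.YY A.n) (fun x y => S.WG A.n x y ∧ ¬ S.WG A.n x b)
    have e2 := FrameB_swap (S.XX A.n) (S.YY A.n) (fun x y => S.WG A.n x y)
    have h2 := FrameB_le A.h e1 e2 (by convert h1)
    convert h2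
  · intro a ha
    have h1 := FrameB_hA hL A S hV hU a ha
    have e1 := FrameB_swap (S.XX A.n) (S.YY A.n) (fun x y => S.WG A.n x y ∧ ¬ S.WG A.n a y)
    have e2 := FrameB_swap (S.XX A.n) (S.YY A.n) (fun x y => S.WG A.n x y)
    have h2 := FrameB_le A.h e1 e2 (by convert h1)
    convert h2

/-- PROOF. `Th * #{z ∈ XX × YY | WG, p ∈ PB z.2} = Th * kc * #{w ∈ RW | p ∈ PB} ≤ kc * #RW =
#{z | WG} ≤ #XX * #YY` (`pair_xy` twice).  The left side is
`Th * ∑ y ∈ YY with p ∈ PB y, deg y` and `2 * deg y ≥ #XX` by `deg_y` (`h ≥ 4`).  Cancel `#XX`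
(if `XX = ∅` then `YY = ∅`). -/
theorem light_y (hL : ∀ O, O ∈ L ↔ ∃ f : ι → K, O = ev f) (A : Par) (hA : A.Ok)
    (S : HSt L StX StY RX RY) (hV : S.Valid A) (hU : S.Unc A) (p : ι)
    (hp : A.Th * ((S.RW A.n).filter fun w => p ∈ S.PB (wy w).1 (wy w).2).card ≤
      (S.RW A.n).card) :
    A.Th * ((S.YY A.n).filter fun y => p ∈ S.PB y.1 y.2).card ≤ 2 * (S.YY A.n).card := by
  have key := FrameB_count (S.XX A.n) (S.YY A.n) (S.WG A.n) (fun y => p ∈ S.PB y.1 y.2) A.h A.Th
    (kc L (S.kn.map Prod.fst)) ((S.RW A.n).filter fun w => p ∈ S.PB (wy w).1 (wy w).2).card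
    hA.h4 (deg_y hL A S hV hU) (FrameB_py A S)
    (by
      have h := FrameB_y hL A S hV (fun y => p ∈ S.PB y.1 y.2) (FrameB_locY A S hV (fun J => p ∈ J))
      convert h)
    (by
      rw [FrameB_all hL A S hV]
      calc _ = kc L (S.kn.map Prod.fst) *
            (A.Th * ((S.RW A.n).filter fun w => p ∈ S.PB (wy w).1 (wy w).2).card) := by ring
        _ ≤ _ := Nat.mul_le_mul_left _ hp)
  convert key

/-- PROOF. As `light_y`, with `deg_x`. -/
theorem light_x (hL : ∀ O, O ∈ L ↔ ∃ f : ι → K, O = ev f) (A : Par) (hA : A.Ok)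
    (S : HSt L StX StY RX RY) (hV : S.Valid A) (hU : S.Unc A) (p : ι)
    (hp : A.Th * ((S.RW A.n).filter fun w => p ∈ S.cum (wx w).1 (wx w).2).card ≤
      (S.RW A.n).card) :
    A.Th * ((S.XX A.n).filter fun x => p ∈ S.cum x.1 x.2).card ≤ 2 * (S.XX A.n).card := by
  have hG : LocP L S.SX (fun x => p ∈ S.cum x.1 x.2) := by
    intro r O O' h
    show p ∈ S.cum r O ↔ p ∈ S.cum r O'
    rw [(hV.cloc r O O' h).1]
  have key := FrameB_count (S.YY A.n) (S.XX A.n) (fun y x => S.WG A.n x y)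
    (fun x => p ∈ S.cum x.1 x.2) A.h A.Th
    (kc L (S.kn.map Prod.fst)) ((S.RW A.n).filter fun w => p ∈ S.cum (wx w).1 (wx w).2).card
    hA.h4 (deg_x hL A S hV hU) (FrameB_px A S)
    (by
      have h := FrameB_x hL A S hV (fun x => p ∈ S.cum x.1 x.2) hG
      have e := FrameB_swap (S.XX A.n) (S.YY A.n) (fun x y => S.WG A.n x y ∧ p ∈ S.cum x.1 x.2)
      have h2 : ((S.XX A.n ×ˢ S.YY A.n).filter fun z => S.WG A.n z.1 z.2 ∧
          p ∈ S.cum z.1.1 z.1.2).card = kc L (S.kn.map Prod.fst) *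
          ((S.RW A.n).filter fun w => p ∈ S.cum (wx w).1 (wx w).2).card := by
        convert h
      refine Eq.trans ?_ h2
      convert e)
    (by
      have e := FrameB_swap (S.XX A.n) (S.YY A.n) (fun x y => S.WG A.n x y)
      have h3 := FrameB_all hL A S hV
      have h4 : A.Th * (kc L (S.kn.map Prod.fst) *
          ((S.RW A.n).filter fun w => p ∈ S.cum (wx w).1 (wx w).2).card) ≤
          kc L (S.kn.map Prod.fst) * (S.RW A.n).card := by
        calc _ = kc L (S.kn.map Prod.fst) *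
            (A.Th * ((S.RW A.n).filter fun w => p ∈ S.cum (wx w).1 (wx w).2).card) := by ring
          _ ≤ _ := Nat.mul_le_mul_left _ hp
      have h5 : kc L (S.kn.map Prod.fst) * (S.RW A.n).card ≤
          ((S.YY A.n ×ˢ S.XX A.n).filter fun z => S.WG A.n z.2 z.1).card := by
        rw [e]
        exact h3.symm.le
      exact h4.trans h5)
  convert key

end Pool.Agent.LinOT
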