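import Mathlib

set_option autoImplicit false

/-!
# Half-algebraic attack: a lemma on bipartite graphs (ROW ha-GraphC)
-/

namespace Pool.Agent.LinOT

open Classical

theorem GraphC_card_left {α β : Type} (A : Finset α) (B : Finset β) (P : α → β → Prop)
    [∀ a b, Decidable (P a b)] :
    ((A ×ˢ B).filter fun z => P z.1 z.2).card = ∑ a ∈ A, (B.filter fun b => P a b).card := by
  rw [Finset.card_filter, Finset.sum_product]
  exact Finset.sum_congr rfl fun a _ => (Finset.card_filter _ _).symm

theorem GraphC_card_right {α β : Type} (A : Finset α) (B : Finset β) (P : α → β → Prop)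
    [∀ a b, Decidable (P a b)] :
    ((A ×ˢ B).filter fun z => P z.1 z.2).card = ∑ b ∈ B, (A.filter fun a => P a b).card := by
  rw [Finset.card_filter, Finset.sum_product_right]
  exact Finset.sum_congr rfl fun a _ => (Finset.card_filter _ _).symm

theorem GraphC_deg {α β : Type} (A : Finset α) (E : α → β → Prop) (h : ℕ)
    (hh : 4 ≤ h) (b : β) (hb : (h - 1) * (A.filter fun a => ¬ E a b).card ≤ A.card) :
    (A.card : ℝ) * (((h : ℝ) - 2) / ((h : ℝ) - 1)) ≤ ((A.filter fun a => E a b).card : ℝ) := by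
  have hR : (4 : ℝ) ≤ (h : ℝ) := by exact_mod_cast hh
  have hpos : (0 : ℝ) < (h : ℝ) - 1 := by linarith
  have h1 : ((h : ℝ) - 1) * ((A.filter fun a => ¬ E a b).card : ℝ) ≤ (A.card : ℝ) := by
    have h2 : (((h - 1 : ℕ) : ℝ)) * ((A.filter fun a => ¬ E a b).card : ℝ) ≤ (A.card : ℝ) := by
      exact_mod_cast hb
    rwa [Nat.cast_sub (by omega : 1 ≤ h), Nat.cast_one] at h2
  have h3 : ((A.filter fun a => E a b).card : ℝ) + ((A.filter fun a => ¬ E a b).card : ℝ) =
      (A.card : ℝ) := by
    exact_mod_cast Finset.card_filter_add_card_filter_not (s := A) (fun a => E a b)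
  rw [← mul_div_assoc, div_le_iff₀ hpos]
  nlinarith

/-- PROOF. Let `c = #{b ∈ B | ob b = g}`, which is the maximum of `#{b ∈ B | ob b = v}`.
`#{z edge | oa z.1 = some (ob z.2)} ≤ ∑ a ∈ A, #{b ∈ B | oa a = some (ob b)} ≤ #A * c`.
`#{z edge | ob z.2 = g} = ∑ b ∈ B with ob b = g, deg b ≥ c * (#A - #A/(h-1))` (by `hB`).
So agree - win `≤ c * #A/(h-1) ≤ #A * #B / (h-1)`, and `e := #edges ≥ (1 - 1/(h-1)) #A #B`
`= (h-2)/(h-1) #A #B`, hence agree - win `≤ e/(h-2)`. -/
theorem guess_graph {α β σ : Type} (A : Finset α) (B : Finset β) (E : α → β → Prop) (h : ℕ)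
    (hh : 4 ≤ h) (hB : ∀ b ∈ B, (h - 1) * (A.filter fun a => ¬ E a b).card ≤ A.card)
    (oa : α → Option σ) (ob : β → σ) (g : σ)
    (hg : ∀ v, (B.filter fun b => ob b = v).card ≤ (B.filter fun b => ob b = g).card) :
    (((A ×ˢ B).filter fun z => E z.1 z.2 ∧ oa z.1 = some (ob z.2)).card : ℝ) -
      ((A ×ˢ B).filter fun z => E z.1 z.2 ∧ ob z.2 = g).card ≤
      (1 / ((h : ℝ) - 2)) * ((A ×ˢ B).filter fun z => E z.1 z.2).card := by
  have hR : (4 : ℝ) ≤ (h : ℝ) := by exact_mod_cast hh
  have hpos : (0 : ℝ) < (h : ℝ) - 1 := by linarith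
  have hpos2 : (0 : ℝ) < (h : ℝ) - 2 := by linarith
  -- agree
  have hagree : (((A ×ˢ B).filter fun z => E z.1 z.2 ∧ oa z.1 = some (ob z.2)).card : ℝ) ≤
      (A.card : ℝ) * ((B.filter fun b => ob b = g).card : ℝ) := by
    have h1 : ((A ×ˢ B).filter fun z => E z.1 z.2 ∧ oa z.1 = some (ob z.2)).card ≤
        A.card * (B.filter fun b => ob b = g).card := by
      rw [GraphC_card_left A B (fun a b => E a b ∧ oa a = some (ob b))]
      calc ∑ a ∈ A, (B.filter fun b => E a b ∧ oa a = some (ob b)).card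
          ≤ ∑ _a ∈ A, (B.filter fun b => ob b = g).card := by
            apply Finset.sum_le_sum
            intro a _
            rcases hoa : oa a with _ | v
            · have : (B.filter fun b => E a b ∧ (none : Option σ) = some (ob b)) = ∅ := by
                apply Finset.filter_eq_empty_iff.mpr
                intro b _ hb
                exact absurd hb.2 (by simp)
              rw [this]
              simp
            · refine le_trans (Finset.card_le_card ?_) (hg v)
              intro b hb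
              rw [Finset.mem_filter] at hb ⊢
              refine ⟨hb.1, ?_⟩
              exact (Option.some.inj hb.2.2).symm
        _ = A.card * (B.filter fun b => ob b = g).card := by
            rw [Finset.sum_const, smul_eq_mul]
    exact_mod_cast h1
  -- win
  have hwin : ((B.filter fun b => ob b = g).card : ℝ) *
      ((A.card : ℝ) * (((h : ℝ) - 2) / ((h : ℝ) - 1))) ≤
      (((A ×ˢ B).filter fun z => E z.1 z.2 ∧ ob z.2 = g).card : ℝ) := by
    rw [GraphC_card_right A B (fun a b => E a b ∧ ob b = g)]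
    push_cast
    calc ((B.filter fun b => ob b = g).card : ℝ) *
          ((A.card : ℝ) * (((h : ℝ) - 2) / ((h : ℝ) - 1)))
        = ∑ _b ∈ B.filter (fun b => ob b = g),
            ((A.card : ℝ) * (((h : ℝ) - 2) / ((h : ℝ) - 1))) := by
          rw [Finset.sum_const, nsmul_eq_mul]
      _ ≤ ∑ b ∈ B.filter (fun b => ob b = g), ((A.filter fun a => E a b ∧ ob b = g).card : ℝ) := by
          apply Finset.sum_le_sum
          intro b hb
          rw [Finset.mem_filter] at hb
          have h1 := GraphC_deg A E h hh b (hB b hb.1)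
          have h2 : (A.filter fun a => E a b ∧ ob b = g) = A.filter fun a => E a b := by
            apply Finset.filter_congr
            intro a _
            simp [hb.2]
          rw [h2]
          exact h1
      _ ≤ ∑ b ∈ B, ((A.filter fun a => E a b ∧ ob b = g).card : ℝ) := by
          apply Finset.sum_le_sum_of_subset_of_nonneg (Finset.filter_subset _ _)
          intro i _ _
          positivity
  -- edges
  have hedge : (B.card : ℝ) * ((A.card : ℝ) * (((h : ℝ) - 2) / ((h : ℝ) - 1))) ≤
      (((A ×ˢ B).filter fun z => E z.1 z.2).card : ℝ) := by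
    rw [GraphC_card_right A B (fun a b => E a b)]
    push_cast
    calc (B.card : ℝ) * ((A.card : ℝ) * (((h : ℝ) - 2) / ((h : ℝ) - 1)))
        = ∑ _b ∈ B, ((A.card : ℝ) * (((h : ℝ) - 2) / ((h : ℝ) - 1))) := by
          rw [Finset.sum_const, nsmul_eq_mul]
      _ ≤ ∑ b ∈ B, ((A.filter fun a => E a b).card : ℝ) := by
          apply Finset.sum_le_sum
          intro b hb
          exact GraphC_deg A E h hh b (hB b hb)
  have hc : ((B.filter fun b => ob b = g).card : ℝ) ≤ (B.card : ℝ) := by
    exact_mod_cast Finset.card_filter_le _ _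
  have hA0 : (0 : ℝ) ≤ (A.card : ℝ) := by positivity
  set c : ℝ := ((B.filter fun b => ob b = g).card : ℝ) with hcdef
  set a : ℝ := (A.card : ℝ) with hadef
  set b : ℝ := (B.card : ℝ) with hbdef
  set e : ℝ := (((A ×ˢ B).filter fun z => E z.1 z.2).card : ℝ) with hedef
  have hq : a * (((h : ℝ) - 2) / ((h : ℝ) - 1)) = a - a / ((h : ℝ) - 1) := by
    field_simp
    ring
  rw [hq] at hwin
  have h1 : (1 / ((h : ℝ) - 2)) * (b * (a * (((h : ℝ) - 2) / ((h : ℝ) - 1)))) ≤
      (1 / ((h : ℝ) - 2)) * e := by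
    apply mul_le_mul_of_nonneg_left hedge
    positivity
  have h2 : (1 / ((h : ℝ) - 2)) * (b * (a * (((h : ℝ) - 2) / ((h : ℝ) - 1)))) =
      b * (a / ((h : ℝ) - 1)) := by
    field_simp
  rw [h2] at h1
  have h3 : c * (a / ((h : ℝ) - 1)) ≤ b * (a / ((h : ℝ) - 1)) := by
    apply mul_le_mul_of_nonneg_right hc
    positivity
  nlinarith [hagree, hwin, h1, h3]

end Pool.Agent.LinOT
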