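import Pool.Agent.Lib.MP_ae38e0_lc.Half.Basic

set_option autoImplicit false

/-!
# Half-algebraic attack: the guess of the eavesdropper
-/

namespace Pool.Agent.LinOT

open Classical

variable {K : Type} [Field K] {ι : Type} [Fintype ι] {L : Submodule K ((ι → K) → K)} [Fintype L]
  {StX StY RX RY σ : Type} [Fintype RX] [Fintype RY]

/-- The most frequent output of the side `Y`. -/
noncomputable def gsY [Nonempty σ] (A : Par) (oy : RY → StY → σ) (S : HSt L StX StY RX RY) : σ :=
  Function.argmin (fun v => (S.YY A.n).card -
    ((S.YY A.n).filter fun y => oy y.1 (S.SY.s y.1 y.2) = v).card)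

/-- The most frequent output of the side `X`. -/
noncomputable def gsX [Nonempty σ] (A : Par) (ox : RX → StX → σ) (S : HSt L StX StY RX RY) : σ :=
  Function.argmin (fun v => (S.XX A.n).card -
    ((S.XX A.n).filter fun x => ox x.1 (S.SX.s x.1 x.2) = v).card)

end Pool.Agent.LinOT
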