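import Pool.Agent.Lib.MP_ae38e0_lc.Half.PotPos
import Pool.Agent.Lib.MP_ae38e0_lc.Half.GsDef
import Pool.Agent.Lib.MP_ae38e0_lc.Half.CloDef
import Pool.Agent.Lib.MP_ae38e0_lc.Half.FrameB
import Pool.Agent.Lib.MP_ae38e0_lc.Half.GraphC

set_option autoImplicit false

/-!
# Half-algebraic attack: the final state (ROW ha-LeafX)
-/

namespace Pool.Agent.LinOT

open Classical

variable {K : Type} [Field K] {ι : Type} [Fintype ι] {L : Submodule K ((ι → K) → K)} [Fintype L]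
  {StX StY RX RY σ : Type} [Fintype RX] [Fintype RY]

/-- Exchange of the factors. -/
theorem LeafX_swap {α β : Type} (A : Finset α) (B : Finset β) (P : α → β → Prop)
    [DecidablePred fun z : β × α => P z.2 z.1] [DecidablePred fun z : α × β => P z.1 z.2] :
    ((B ×ˢ A).filter fun z => P z.2 z.1).card = ((A ×ˢ B).filter fun z => P z.1 z.2).card := by
  refine Finset.card_nbij' Prod.swap Prod.swap ?_ ?_ ?_ ?_
  · intro z hz
    simp only [Finset.coe_filter, Finset.mem_product, Set.mem_ofPred_eq] at hz ⊢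
    exact ⟨⟨hz.1.2, hz.1.1⟩, hz.2⟩
  · intro z hz
    simp only [Finset.coe_filter, Finset.mem_product, Set.mem_ofPred_eq] at hz ⊢
    exact ⟨⟨hz.1.2, hz.1.1⟩, hz.2⟩
  · intro z _
    rfl
  · intro z _
    rfl

theorem LeafX_max [Nonempty σ] (A : Par) (ox : RX → StX → σ) (S : HSt L StX StY RX RY) (v : σ) :
    ((S.XX A.n).filter fun x => ox x.1 (S.SX.s x.1 x.2) = v).card ≤
      ((S.XX A.n).filter fun x => ox x.1 (S.SX.s x.1 x.2) = gsX A ox S).card := by
  have h := Function.argmin_le (fun v => (S.XX A.n).card -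
    ((S.XX A.n).filter fun x => ox x.1 (S.SX.s x.1 x.2) = v).card) v
  have h1 := Finset.card_filter_le (S.XX A.n) (fun x => ox x.1 (S.SX.s x.1 x.2) = v)
  have h2 := Finset.card_filter_le (S.XX A.n)
    (fun x => ox x.1 (S.SX.s x.1 x.2) = gsX A ox S)
  unfold gsX at h2 ⊢
  omega

/-- The joint event. -/
theorem LeafX_pair (hL : ∀ O, O ∈ L ↔ ∃ f : ι → K, O = ev f) (A : Par)
    (S : HSt L StX StY RX RY) (hV : S.Valid A) (cy : RY → StY → Option σ) (ox : RX → StX → σ) :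
    ((S.XX A.n ×ˢ S.YY A.n).filter fun z => S.WG A.n z.1 z.2 ∧
      cy z.2.1 (S.SY.s z.2.1 z.2.2) = some (ox z.1.1 (S.SX.s z.1.1 z.1.2))).card =
      kc L (S.kn.map Prod.fst) * ((S.RW A.n).filter fun w =>
        cy w.2.1 (S.SY.s w.2.1 w.2.2) = some (ox w.1 (S.SX.s w.1 w.2.2))).card := by
  have hp := pair_eq L S.SX S.SY hV.locX hV.locY S.kn
    (fun (x : RX × L) (y : RY × L) => S.WG A.n x y ∧
      cy y.1 (S.SY.s y.1 y.2) = some (ox x.1 (S.SX.s x.1 x.2))) (by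
        intro r s O O' U U' h1 h2
        have a := hV.locX r O O' h1
        have b := hV.locY s U U' h2
        simp only [HSt.WG, HSt.V, HSt.PB, a.1, a.2.1, b.1, b.2.1]) (by
        intro r s O U h
        exact wg_not_tch hL A S hV (r, O) (s, U) h.1)
  have e1 : ((S.XX A.n ×ˢ S.YY A.n).filter fun z => S.WG A.n z.1 z.2 ∧
      cy z.2.1 (S.SY.s z.2.1 z.2.2) = some (ox z.1.1 (S.SX.s z.1.1 z.1.2))) =
      ((supp L S.SX S.kn ×ˢ supp L S.SY S.kn).filter fun z => S.WG A.n z.1 z.2 ∧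
      cy z.2.1 (S.SY.s z.2.1 z.2.2) = some (ox z.1.1 (S.SX.s z.1.1 z.1.2))) := by
    ext z
    simp only [HSt.XX, HSt.YY, Finset.mem_filter, Finset.mem_product]
    constructor
    · rintro ⟨⟨⟨h1, -⟩, ⟨h2, -⟩⟩, h3⟩
      exact ⟨⟨h1, h2⟩, h3⟩
    · rintro ⟨⟨h1, h2⟩, h3⟩
      exact ⟨⟨⟨h1, z.2, h2, h3.1⟩, ⟨h2, z.1, h1, h3.1⟩⟩, h3⟩
  rw [e1, HSt.RW, HSt.R, Finset.filter_filter]
  convert hp using 4
  exact Iff.rfl

/-- The event for the guess. -/
theorem LeafX_win (hL : ∀ O, O ∈ L ↔ ∃ f : ι → K, O = ev f) (A : Par)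
    (S : HSt L StX StY RX RY) (hV : S.Valid A) (ox : RX → StX → σ) (g : σ) :
    ((S.XX A.n ×ˢ S.YY A.n).filter fun z => S.WG A.n z.1 z.2 ∧
      ox z.1.1 (S.SX.s z.1.1 z.1.2) = g).card =
      kc L (S.kn.map Prod.fst) * ((S.RW A.n).filter fun w =>
        g = ox w.1 (S.SX.s w.1 w.2.2)).card := by
  have hp := pair_xy hL A S hV (fun x => ox x.1 (S.SX.s x.1 x.2) = g) (fun _ => True) (by
    intro r O O' h
    simp only [(hV.locX r O O' h).1]) (by
    intro r O O' h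
    rfl)
  simp only [and_true] at hp
  rw [hp]
  refine congrArg _ (congrArg _ (Finset.filter_congr fun w _ => ?_))
  exact eq_comm

theorem LeafX_all (hL : ∀ O, O ∈ L ↔ ∃ f : ι → K, O = ev f) (A : Par)
    (S : HSt L StX StY RX RY) (hV : S.Valid A) :
    ((S.XX A.n ×ˢ S.YY A.n).filter fun z => S.WG A.n z.1 z.2).card =
      kc L (S.kn.map Prod.fst) * (S.RW A.n).card := by
  have hp := pair_xy hL A S hV (fun _ => True) (fun _ => True) (by
    intro r O O' h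
    rfl) (by
    intro r O O' h
    rfl)
  simpa using hp

omit [Fintype L] [Fintype RX] [Fintype RY] in
theorem LeafX_good (A : Par) (S : HSt L StX StY RX RY) (hV : S.Valid A) (w : RX × RY × L)
    (hw : ¬ S.WG A.n (wx w) (wy w)) : ¬ S.good w := by
  intro hg
  apply hw
  unfold HSt.WG
  unfold HSt.good at hg
  refine Finset.disjoint_of_subset_left ?_ hg
  intro p hp
  rw [Finset.mem_sdiff]
  refine ⟨hV.cT _ _ (TT_mono (Nat.le_add_right _ _) le_rfl hp), ?_⟩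
  exact Finset.disjoint_left.mp (TT_disj _ _ _) hp

/-- **The final state; the linear party has the output.**
PROOF. As `leaf_y`, with the two sides exchanged in `guess_graph` (and `deg_x`). -/
theorem leaf_x [Nonempty σ] (hL : ∀ O, O ∈ L ↔ ∃ f : ι → K, O = ev f) (A : Par) (hA : A.Ok)
    (S : HSt L StX StY RX RY) (hV : S.Valid A) (hC : S.Clo A) (cy : RY → StY → Option σ)
    (ox : RX → StX → σ) :
    ∑ w ∈ S.R, ((if cy w.2.1 (S.SY.s w.2.1 w.2.2) = some (ox w.1 (S.SX.s w.1 w.2.2))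
        then (1 : ℝ) else 0) -
      (if gsX A ox S = ox w.1 (S.SX.s w.1 w.2.2) then (1 : ℝ) else 0)) ≤
      ∑ w ∈ S.R, (S.pot A w + 1 / ((A.h : ℝ) - 2)) := by
  have hh : (4 : ℝ) ≤ (A.h : ℝ) := by exact_mod_cast hA.h4
  have hc0 : (0 : ℝ) ≤ 1 / ((A.h : ℝ) - 2) := by
    apply div_nonneg zero_le_one
    linarith
  have hk : (0 : ℝ) < kc L (S.kn.map Prod.fst) := by exact_mod_cast kc_pos L _
  have hg := guess_graph (S.YY A.n) (S.XX A.n) (fun y x => S.WG A.n x y) A.h hA.h4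
    (fun x hx => deg_x hL A S hV hC.1 x hx)
    (fun y => cy y.1 (S.SY.s y.1 y.2)) (fun x => ox x.1 (S.SX.s x.1 x.2)) (gsX A ox S)
    (LeafX_max A ox S)
  have g1 : ((S.YY A.n ×ˢ S.XX A.n).filter fun z => S.WG A.n z.2 z.1 ∧
      cy z.1.1 (S.SY.s z.1.1 z.1.2) = some (ox z.2.1 (S.SX.s z.2.1 z.2.2))).card = _ :=
    (LeafX_swap (S.XX A.n) (S.YY A.n) (fun x y => S.WG A.n x y ∧
      cy y.1 (S.SY.s y.1 y.2) = some (ox x.1 (S.SX.s x.1 x.2)))).trans
      (LeafX_pair hL A S hV cy ox)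
  have g2 : ((S.YY A.n ×ˢ S.XX A.n).filter fun z => S.WG A.n z.2 z.1 ∧
      ox z.2.1 (S.SX.s z.2.1 z.2.2) = gsX A ox S).card = _ :=
    (LeafX_swap (S.XX A.n) (S.YY A.n) (fun x y => S.WG A.n x y ∧
      ox x.1 (S.SX.s x.1 x.2) = gsX A ox S)).trans (LeafX_win hL A S hV ox (gsX A ox S))
  have g3 : ((S.YY A.n ×ˢ S.XX A.n).filter fun z => S.WG A.n z.2 z.1).card = _ :=
    (LeafX_swap (S.XX A.n) (S.YY A.n) (fun x y => S.WG A.n x y)).trans (LeafX_all hL A S hV)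
  beta_reduce at hg
  rw [g1, g2, g3] at hg
  push_cast at hg
  set c1 := ((S.RW A.n).filter fun w =>
        cy w.2.1 (S.SY.s w.2.1 w.2.2) = some (ox w.1 (S.SX.s w.1 w.2.2))).card with hc1
  set c2 := ((S.RW A.n).filter fun w => gsX A ox S = ox w.1 (S.SX.s w.1 w.2.2)).card with hc2
  have h1 : (c1 : ℝ) - c2 ≤ 1 / ((A.h : ℝ) - 2) * (S.RW A.n).card := by
    by_contra hcon
    push Not at hcon
    have h2 := mul_lt_mul_of_pos_left hcon hk
    nlinarith
  have h3 : ∑ w ∈ S.RW A.n, ((if cy w.2.1 (S.SY.s w.2.1 w.2.2) = some (ox w.1 (S.SX.s w.1 w.2.2))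
        then (1 : ℝ) else 0) -
      (if gsX A ox S = ox w.1 (S.SX.s w.1 w.2.2) then (1 : ℝ) else 0)) = c1 - c2 := by
    rw [Finset.sum_sub_distrib, hc1, hc2, Finset.sum_boole, Finset.sum_boole]
  have h4 : c1 - c2 ≤ ∑ w ∈ S.RW A.n, (S.pot A w + 1 / ((A.h : ℝ) - 2)) := by
    refine h1.trans ?_
    rw [Finset.sum_add_distrib, Finset.sum_const, nsmul_eq_mul]
    have h5 : 0 ≤ ∑ w ∈ S.RW A.n, S.pot A w :=
      Finset.sum_nonneg fun w _ => pot_nonneg A hA S hV w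
    linarith
  rw [← Finset.sum_filter_add_sum_filter_not S.R (fun w => S.WG A.n (wx w) (wy w)),
    ← Finset.sum_filter_add_sum_filter_not S.R (fun w => S.WG A.n (wx w) (wy w))
      (fun w => S.pot A w + 1 / ((A.h : ℝ) - 2))]
  refine add_le_add ?_ ?_
  · have h6 : (S.R.filter fun w => S.WG A.n (wx w) (wy w)) = S.RW A.n := rfl
    rw [h6, h3]
    exact h4
  · refine Finset.sum_le_sum fun w hw => ?_
    have h7 := one_le_pot A hA S hV w (LeafX_good A S hV w (Finset.mem_filter.mp hw).2)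
    split_ifs <;> linarith

end Pool.Agent.LinOT
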