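import Pool.Agent.Lib.MP_ae38e0_lc.Half.PotPos
import Pool.Agent.Lib.MP_ae38e0_lc.Half.GsDef
import Pool.Agent.Lib.MP_ae38e0_lc.Half.CloDef
import Pool.Agent.Lib.MP_ae38e0_lc.Half.FrameB
import Pool.Agent.Lib.MP_ae38e0_lc.Half.GraphC

set_option autoImplicit false

/-!
# Half-algebraic attack: the final state (ROW ha-LeafY)
-/

namespace Pool.Agent.LinOT

open Classical

variable {K : Type} [Field K] {ι : Type} [Fintype ι] {L : Submodule K ((ι → K) → K)} [Fintype L]
  {StX StY RX RY σ : Type} [Fintype RX] [Fintype RY]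

/-- The most frequent output is at least as frequent as any other one. -/
theorem LeafY_gs_max [Nonempty σ] (A : Par) (S : HSt L StX StY RX RY) (oy : RY → StY → σ) (v : σ) :
    ((S.YY A.n).filter fun y => oy y.1 (S.SY.s y.1 y.2) = v).card ≤
      ((S.YY A.n).filter fun y => oy y.1 (S.SY.s y.1 y.2) = gsY A oy S).card := by
  have h := Function.argmin_le (fun v => (S.YY A.n).card -
    ((S.YY A.n).filter fun y => oy y.1 (S.SY.s y.1 y.2) = v).card) v
  have h1 := Finset.card_filter_le (S.YY A.n) (fun y => oy y.1 (S.SY.s y.1 y.2) = v)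
  have h2 := Finset.card_filter_le (S.YY A.n)
    (fun y => oy y.1 (S.SY.s y.1 y.2) = gsY A oy S)
  unfold gsY at h2 ⊢
  omega

/-- Weakly good pairs are determined by the answers. -/
theorem LeafY_wg_loc (A : Par) (S : HSt L StX StY RX RY) (hV : S.Valid A) (r : RX) (s : RY)
    (O O' U U' : L) (h1 : ∀ c ∈ S.SX.q r O, (O : (ι → K) → K) c = (O' : (ι → K) → K) c)
    (h2 : ∀ c ∈ S.SY.q s U, (U : (ι → K) → K) c = (U' : (ι → K) → K) c) :
    S.WG A.n (r, O) (s, U) ↔ S.WG A.n (r, O') (s, U') := by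
  have e1 := (hV.locX r O O' h1).2.1
  have e2 := (hV.locY s U U' h2).2.1
  unfold HSt.WG HSt.V HSt.PB
  simp only
  rw [e1, e2]

/-- Pairs with a joint predicate. -/
theorem LeafY_pair (hL : ∀ O, O ∈ L ↔ ∃ f : ι → K, O = ev f) (A : Par)
    (S : HSt L StX StY RX RY) (hV : S.Valid A) (G : RX × L → RY × L → Prop)
    (hG : ∀ (r : RX) (s : RY) (O O' U U' : L),
      (∀ c ∈ S.SX.q r O, (O : (ι → K) → K) c = (O' : (ι → K) → K) c) →
      (∀ c ∈ S.SY.q s U, (U : (ι → K) → K) c = (U' : (ι → K) → K) c) →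
      (G (r, O) (s, U) ↔ G (r, O') (s, U'))) :
    ((S.XX A.n ×ˢ S.YY A.n).filter fun z => S.WG A.n z.1 z.2 ∧ G z.1 z.2).card =
      kc L (S.kn.map Prod.fst) * ((S.RW A.n).filter fun w => G (wx w) (wy w)).card := by
  have h := pair_eq L S.SX S.SY hV.locX hV.locY S.kn (fun x y => S.WG A.n x y ∧ G x y)
    (fun r s O O' U U' h1 h2 =>
      and_congr (LeafY_wg_loc A S hV r s O O' U U' h1 h2) (hG r s O O' U U' h1 h2))
    (fun r s O U hw => wg_not_tch hL A S hV (r, O) (s, U) hw.1)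
  have e1 : ((S.XX A.n ×ˢ S.YY A.n).filter fun z => S.WG A.n z.1 z.2 ∧ G z.1 z.2) =
      ((supp L S.SX S.kn ×ˢ supp L S.SY S.kn).filter fun z => S.WG A.n z.1 z.2 ∧ G z.1 z.2) := by
    ext z
    simp only [Finset.mem_filter, Finset.mem_product, HSt.XX, HSt.YY]
    constructor
    · rintro ⟨⟨⟨a, -⟩, b, -⟩, c⟩
      exact ⟨⟨a, b⟩, c⟩
    · rintro ⟨⟨a, b⟩, c⟩
      exact ⟨⟨⟨a, z.2, b, c.1⟩, b, z.1, a, c.1⟩, c⟩
  have e2 : ((S.RW A.n).filter fun w => G (wx w) (wy w)) =
      ((cs L orc (real L S.SX S.SY) S.kn).filter fun w : RX × RY × L =>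
        S.WG A.n (w.1, w.2.2) (w.2.1, w.2.2) ∧ G (w.1, w.2.2) (w.2.1, w.2.2)) := by
    unfold HSt.RW HSt.R
    rw [Finset.filter_filter]
    rfl
  rw [e1, e2]
  convert h

/-- Executions which are not weakly good have potential at least one. -/
theorem LeafY_not_rw (A : Par) (hA : A.Ok) (S : HSt L StX StY RX RY) (hV : S.Valid A)
    (w : RX × RY × L) (hw : ¬ S.WG A.n (wx w) (wy w)) : 1 ≤ S.pot A w := by
  apply one_le_pot A hA S hV w
  intro hg
  apply hw
  unfold HSt.good at hg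
  unfold HSt.WG
  refine hg.mono_left ?_
  intro p hp
  rw [Finset.mem_sdiff]
  refine ⟨?_, (mem_TT.mp hp).1⟩
  exact hV.cT w.1 w.2.2 (TT_mono (Nat.le_add_right _ _) le_rfl hp)

/-- **The final state; the party with few points has the output.**
PROOF. Let `c0 = 1/(h-2)`, `f w = [cx = some oy] - [gsY = oy] ≤ 1`.  For `w ∈ R` not in `RW`:
`good w` fails (`TT n Q V ⊆ cum \ Q`), so `f w ≤ 1 ≤ pot w` (`one_le_pot`).  On `RW`:
`∑ w ∈ RW, f w = #{w ∈ RW | cx = some oy} - #{w ∈ RW | gsY = oy}`; with `kc`: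
`kc * #{w ∈ RW | cx = some oy} = #{z ∈ XX × YY | WG, cx z.1 = some (oy z.2)}` — this joint event
is not a product, so use `pair_eq` for `G x y := WG x y ∧ cx x = some (oy y)` (local by `Loc`; the
pairs are in `XX × YY`) — and the same for the others; then `guess_graph` (`deg_y`, `hg` from
`Function.argmin_le` as in `guess_max` of `Bounded.lean`) gives
`kc * ∑ w ∈ RW, f w ≤ c0 * kc * #RW`; divide by `kc > 0`; `pot ≥ 0`. -/
theorem leaf_y [Nonempty σ] (hL : ∀ O, O ∈ L ↔ ∃ f : ι → K, O = ev f) (A : Par) (hA : A.Ok)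
    (S : HSt L StX StY RX RY) (hV : S.Valid A) (hC : S.Clo A) (cx : RX → StX → Option σ)
    (oy : RY → StY → σ) :
    ∑ w ∈ S.R, ((if cx w.1 (S.SX.s w.1 w.2.2) = some (oy w.2.1 (S.SY.s w.2.1 w.2.2))
        then (1 : ℝ) else 0) -
      (if gsY A oy S = oy w.2.1 (S.SY.s w.2.1 w.2.2) then (1 : ℝ) else 0)) ≤
      ∑ w ∈ S.R, (S.pot A w + 1 / ((A.h : ℝ) - 2)) := by
  have hh : (4 : ℝ) ≤ A.h := by exact_mod_cast hA.h4
  have hc0 : 0 ≤ 1 / ((A.h : ℝ) - 2) := by
    apply div_nonneg zero_le_one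
    linarith
  rw [← Finset.sum_filter_add_sum_filter_not S.R (fun w => S.WG A.n (wx w) (wy w)),
    ← Finset.sum_filter_add_sum_filter_not S.R (fun w => S.WG A.n (wx w) (wy w))
      (fun w => S.pot A w + 1 / ((A.h : ℝ) - 2))]
  refine add_le_add ?_ ?_
  · -- the weakly good executions
    have hRW : (S.R.filter fun w => S.WG A.n (wx w) (wy w)) = S.RW A.n := rfl
    rw [hRW]
    have g1 : ((S.XX A.n ×ˢ S.YY A.n).filter fun z => S.WG A.n z.1 z.2 ∧
          cx z.1.1 (S.SX.s z.1.1 z.1.2) = some (oy z.2.1 (S.SY.s z.2.1 z.2.2))).card =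
        kc L (S.kn.map Prod.fst) * ((S.RW A.n).filter fun w =>
          cx w.1 (S.SX.s w.1 w.2.2) = some (oy w.2.1 (S.SY.s w.2.1 w.2.2))).card := by
      have := LeafY_pair hL A S hV
        (fun x y => cx x.1 (S.SX.s x.1 x.2) = some (oy y.1 (S.SY.s y.1 y.2)))
        (fun r s O O' U U' h1 h2 => by
          have a1 := (hV.locX r O O' h1).1
          have a2 := (hV.locY s U U' h2).1
          simp only
          rw [a1, a2])
      simp only [wx, wy] at this
      convert this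
    have g2 : ((S.XX A.n ×ˢ S.YY A.n).filter fun z => S.WG A.n z.1 z.2 ∧
          oy z.2.1 (S.SY.s z.2.1 z.2.2) = gsY A oy S).card =
        kc L (S.kn.map Prod.fst) * ((S.RW A.n).filter fun w =>
          oy w.2.1 (S.SY.s w.2.1 w.2.2) = gsY A oy S).card := by
      have := LeafY_pair hL A S hV (fun _ y => oy y.1 (S.SY.s y.1 y.2) = gsY A oy S)
        (fun r s O O' U U' h1 h2 => by
          have a2 := (hV.locY s U U' h2).1
          simp only
          rw [a2])
      simp only [wy] at this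
      convert this
    have g3 : ((S.XX A.n ×ˢ S.YY A.n).filter fun z => S.WG A.n z.1 z.2).card =
        kc L (S.kn.map Prod.fst) * (S.RW A.n).card := by
      have := LeafY_pair hL A S hV (fun _ _ => True) (fun r s O O' U U' h1 h2 => Iff.rfl)
      simpa using this
    have hg' : (((S.XX A.n ×ˢ S.YY A.n).filter fun z => S.WG A.n z.1 z.2 ∧
          cx z.1.1 (S.SX.s z.1.1 z.1.2) = some (oy z.2.1 (S.SY.s z.2.1 z.2.2))).card : ℝ) -
        (((S.XX A.n ×ˢ S.YY A.n).filter fun z => S.WG A.n z.1 z.2 ∧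
          oy z.2.1 (S.SY.s z.2.1 z.2.2) = gsY A oy S).card : ℝ) ≤
        (1 / ((A.h : ℝ) - 2)) *
          (((S.XX A.n ×ˢ S.YY A.n).filter fun z => S.WG A.n z.1 z.2).card : ℝ) := by
      convert guess_graph (S.XX A.n) (S.YY A.n) (fun x y => S.WG A.n x y) A.h hA.h4
        (fun y hy => by convert deg_y hL A S hV hC.1 y hy)
        (fun x => cx x.1 (S.SX.s x.1 x.2)) (fun y => oy y.1 (S.SY.s y.1 y.2)) (gsY A oy S)
        (fun v => by convert LeafY_gs_max A S oy v)
    rw [g1, g2, g3] at hg'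
    push_cast at hg'
    have hk : (0 : ℝ) < kc L (S.kn.map Prod.fst) := by exact_mod_cast kc_pos L _
    have s1 : ∑ w ∈ S.RW A.n, (if cx w.1 (S.SX.s w.1 w.2.2) =
        some (oy w.2.1 (S.SY.s w.2.1 w.2.2)) then (1 : ℝ) else 0) =
        (((S.RW A.n).filter fun w =>
          cx w.1 (S.SX.s w.1 w.2.2) = some (oy w.2.1 (S.SY.s w.2.1 w.2.2))).card : ℝ) := by
      rw [Finset.sum_ite, Finset.sum_const_zero, add_zero, Finset.sum_const, nsmul_eq_mul, mul_one]
    have s2 : ∑ w ∈ S.RW A.n, (if gsY A oy S = oy w.2.1 (S.SY.s w.2.1 w.2.2)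
        then (1 : ℝ) else 0) =
        (((S.RW A.n).filter fun w => oy w.2.1 (S.SY.s w.2.1 w.2.2) = gsY A oy S).card : ℝ) := by
      rw [Finset.sum_ite, Finset.sum_const_zero, add_zero, Finset.sum_const, nsmul_eq_mul, mul_one]
      congr 2
      ext w
      simp only [Finset.mem_filter]
      exact and_congr_right fun _ => eq_comm
    rw [Finset.sum_sub_distrib, s1, s2]
    have s3 : ∑ w ∈ S.RW A.n, (S.pot A w + 1 / ((A.h : ℝ) - 2)) ≥
        (1 / ((A.h : ℝ) - 2)) * (S.RW A.n).card := by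
      have : (1 / ((A.h : ℝ) - 2)) * ((S.RW A.n).card : ℝ) =
          ∑ w ∈ S.RW A.n, (1 / ((A.h : ℝ) - 2)) := by
        rw [Finset.sum_const, nsmul_eq_mul, mul_comm]
      rw [this]
      apply Finset.sum_le_sum
      intro w _
      have := pot_nonneg A hA S hV w
      linarith
    refine le_trans ?_ s3
    have s4 : (kc L (S.kn.map Prod.fst) : ℝ) *
        ((((S.RW A.n).filter fun w =>
          cx w.1 (S.SX.s w.1 w.2.2) = some (oy w.2.1 (S.SY.s w.2.1 w.2.2))).card : ℝ) -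
        (((S.RW A.n).filter fun w => oy w.2.1 (S.SY.s w.2.1 w.2.2) = gsY A oy S).card : ℝ)) ≤
        (kc L (S.kn.map Prod.fst) : ℝ) * ((1 / ((A.h : ℝ) - 2)) * (S.RW A.n).card) := by
      linarith
    exact le_of_mul_le_mul_left s4 hk
  · -- the others
    apply Finset.sum_le_sum
    intro w hw
    rw [Finset.mem_filter] at hw
    have h1 := LeafY_not_rw A hA S hV w hw.2
    have h2 : (if cx w.1 (S.SX.s w.1 w.2.2) = some (oy w.2.1 (S.SY.s w.2.1 w.2.2))
        then (1 : ℝ) else 0) ≤ 1 := by split_ifs <;> norm_num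
    have h3 : (0 : ℝ) ≤ (if gsY A oy S = oy w.2.1 (S.SY.s w.2.1 w.2.2)
        then (1 : ℝ) else 0) := by split_ifs <;> norm_num
    linarith

end Pool.Agent.LinOT
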