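import Pool.Agent.Lib.MP_ae38e0_lc.Half.Exec
import Pool.Agent.Lib.MP_ae38e0_lc.Half.LeafX
import Pool.Agent.Lib.MP_ae38e0_lc.Half.LeafY

set_option autoImplicit false

/-!
# Half-algebraic attack: key agreement
-/

namespace Pool.Agent.LinOT

open Classical

variable {K : Type} [Field K] {ι : Type} [Fintype ι] {L : Submodule K ((ι → K) → K)}
  {RX RY RA RB M X Y σ : Type}

/-- The numbers for `n` queries and precision `h`. -/
def mkPar (n h : ℕ) : Par where
  n := n
  h := h
  Kc := h ^ 2 * (n + n ^ 2)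
  Th := 4 * h * n * ((n + h ^ 2 * (n + n ^ 2) * n ^ 2) + 1)
  Bm := h * (4 * h * n * ((n + h ^ 2 * (n + n ^ 2) * n ^ 2) + 1)) *
    (n * ((n + h ^ 2 * (n + n ^ 2) * n ^ 2) + 1))

theorem mkPar_ok (n h : ℕ) (hn : 1 ≤ n) (hh : 4 ≤ h) : (mkPar n h).Ok :=
  ⟨hn, hh, rfl, rfl, rfl⟩

theorem mkPar_rest (n h : ℕ) (hn : 1 ≤ n) (hh : 4 ≤ h) :
    (mkPar n h).rest 0 0 ≤ 130 * h ^ 6 * n ^ 10 := by
  have hB : 0 < (mkPar n h).Bm := by
    show 0 < h * (4 * h * n * ((n + h ^ 2 * (n + n ^ 2) * n ^ 2) + 1)) *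
      (n * ((n + h ^ 2 * (n + n ^ 2) * n ^ 2) + 1))
    positivity
  unfold Par.rest
  rw [if_pos hB]
  show (h ^ 2 * (n + n ^ 2) - 0) * n ^ 2 + (2 * (h * (4 * h * n *
    ((n + h ^ 2 * (n + n ^ 2) * n ^ 2) + 1)) * (n * ((n + h ^ 2 * (n + n ^ 2) * n ^ 2) + 1))) - 0)
    ≤ _
  rw [Nat.sub_zero, Nat.sub_zero]
  have h1 : n ≤ n ^ 2 := by nlinarith
  have h2 : n ^ 2 ≤ n ^ 4 := Nat.pow_le_pow_right hn (by norm_num)
  have h3 : n + h ^ 2 * (n + n ^ 2) * n ^ 2 + 1 ≤ 3 * (h ^ 2 * n ^ 4) := by
    have e1 : h ^ 2 * (n + n ^ 2) * n ^ 2 ≤ 2 * (h ^ 2 * n ^ 4) := by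
      calc h ^ 2 * (n + n ^ 2) * n ^ 2 ≤ h ^ 2 * (n ^ 2 + n ^ 2) * n ^ 2 := by gcongr
        _ = 2 * (h ^ 2 * n ^ 4) := by ring
    have e2 : n + 1 ≤ h ^ 2 * n ^ 4 := by
      have : 16 ≤ h ^ 2 := by nlinarith
      have e3 : 1 ≤ n ^ 4 := Nat.one_le_pow _ _ hn
      have e4 : n ≤ n ^ 4 := h1.trans h2
      nlinarith
    omega
  have h4 : h ^ 2 * (n + n ^ 2) * n ^ 2 ≤ h ^ 6 * n ^ 10 := by
    calc h ^ 2 * (n + n ^ 2) * n ^ 2 ≤ h ^ 2 * (n ^ 2 + n ^ 2) * n ^ 2 := by gcongr
      _ = 2 * h ^ 2 * n ^ 4 := by ring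
      _ ≤ h ^ 4 * h ^ 2 * n ^ 10 := by
        have : 2 ≤ h ^ 4 := by
          calc 2 ≤ 4 ^ 4 := by norm_num
            _ ≤ h ^ 4 := Nat.pow_le_pow_left hh 4
        have h5 : n ^ 4 ≤ n ^ 10 := Nat.pow_le_pow_right hn (by norm_num)
        gcongr
      _ = h ^ 6 * n ^ 10 := by ring
  have h5 : 2 * (h * (4 * h * n * ((n + h ^ 2 * (n + n ^ 2) * n ^ 2) + 1)) *
      (n * ((n + h ^ 2 * (n + n ^ 2) * n ^ 2) + 1))) ≤ 72 * (h ^ 6 * n ^ 10) := by
    calc 2 * (h * (4 * h * n * ((n + h ^ 2 * (n + n ^ 2) * n ^ 2) + 1)) *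
        (n * ((n + h ^ 2 * (n + n ^ 2) * n ^ 2) + 1)))
        ≤ 2 * (h * (4 * h * n * (3 * (h ^ 2 * n ^ 4))) * (n * (3 * (h ^ 2 * n ^ 4)))) := by gcongr
      _ = 72 * (h ^ 6 * n ^ 10) := by ring
  calc h ^ 2 * (n + n ^ 2) * n ^ 2 + 2 * (h * (4 * h * n *
      ((n + h ^ 2 * (n + n ^ 2) * n ^ 2) + 1)) * (n * ((n + h ^ 2 * (n + n ^ 2) * n ^ 2) + 1)))
      ≤ h ^ 6 * n ^ 10 + 72 * (h ^ 6 * n ^ 10) := by omega
    _ ≤ 130 * h ^ 6 * n ^ 10 := by
      have : 0 ≤ h ^ 6 * n ^ 10 := Nat.zero_le _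
      nlinarith

/-- The points of the queries along a short transcript. -/
theorem lp_short (P : Party (ι → K) K M X) (O : (ι → K) → K) (s : P.St) (r n : ℕ) (m : M)
    (h : ∀ l : List (M × M), l.length = r → (lp (P.asked O s l)).card ≤ n)
    (l : List (M × M)) (hl : l.length ≤ r) : (lp (P.asked O s l)).card ≤ n := by
  have h1 := h (l ++ List.replicate (r - l.length) (m, m)) (by simp; omega)
  rw [asked_append] at h1
  exact (Finset.card_le_card (lp_mono fun c hc => List.mem_append_left _ hc)).trans h1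

variable [Fintype L] [Fintype RX] [Fintype RY] [Fintype RA] [Fintype RB]

theorem half_core [Nonempty RX] [Nonempty RY]
    (hL : ∀ O, O ∈ L ↔ ∃ f : ι → K, O = ev f) (A : Par) (hA : A.Ok)
    (PX : Party (ι → K) K M X) (PY : Party (ι → K) K M Y) (iX : RX → PX.St) (iY : RY → PY.St)
    (ag : RX → PX.St → RY → PY.St → Prop) (ou : RX → PX.St → RY → PY.St → σ)
    (gs : HSt L PX.St PY.St RX RY → σ) (NY : ℕ)
    (hleaf : ∀ S : HSt L PX.St PY.St RX RY, S.Valid A → S.Clo A →
      ∑ w ∈ S.R, ((if ag w.1 (S.SX.s w.1 w.2.2) w.2.1 (S.SY.s w.2.1 w.2.2) then (1 : ℝ) else 0) -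
        (if gs S = ou w.1 (S.SX.s w.1 w.2.2) w.2.1 (S.SY.s w.2.1 w.2.2) then (1 : ℝ) else 0)) ≤
        ∑ w ∈ S.R, (S.pot A w + 1 / ((A.h : ℝ) - 2)))
    (t : List Bool) (m : M)
    (hlx : ∀ (r : RX) (O : L) (l : List (M × M)), l.length ≤ t.count true →
        (PX.asked O (iX r) l).length ≤ A.n)
    (hly : ∀ (r : RY) (O : L) (l : List (M × M)), l.length ≤ t.count false →
        (lp (PY.asked O (iY r) l)).card ≤ A.n)
    (hny : ∀ (r : RY) (O : L) (l : List (M × M)), l.length ≤ t.count false →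
        (PY.asked O (iY r) l).length ≤ NY) :
    prob (fun w : RX × RY × L =>
      ag w.1 (hexec PX PY (w.2.2 : (ι → K) → K) t (iX w.1) (iY w.2.1) m).2.1
        w.2.1 (hexec PX PY (w.2.2 : (ι → K) → K) t (iX w.1) (iY w.2.1) m).2.2) - 5 / A.h ≤
    prob (fun w : RX × RY × L => (hev A PX PY gs t
      (hexec PX PY (w.2.2 : (ι → K) → K) t (iX w.1) (iY w.2.1) m).1 (HSt.start iX iY) m).run
        (w.2.2 : (ι → K) → K) =
      ou w.1 (hexec PX PY (w.2.2 : (ι → K) → K) t (iX w.1) (iY w.2.1) m).2.1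
        w.2.1 (hexec PX PY (w.2.2 : (ι → K) → K) t (iX w.1) (iY w.2.1) m).2.2) := by
  have hh4 : (4 : ℝ) ≤ A.h := by exact_mod_cast hA.h4
  have hh : (0 : ℝ) < A.h := by linarith
  have hc0 : (0 : ℝ) ≤ 1 / ((A.h : ℝ) - 2) := by
    apply div_nonneg zero_le_one
    linarith
  have h := half_main hL A hA PX PY ag ou gs (1 / ((A.h : ℝ) - 2)) hc0 NY hleaf t
    (HSt.start iX iY) m (start_valid A iX iY) (start_Done A iX iY)
    (fun r O l hl => by simpa [HSt.start, Side.start] using hlx r O l hl)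
    (fun r O l hl => by simpa [HSt.start, Side.start] using hly r O l hl)
    (fun r O l hl => by simpa [HSt.start, Side.start] using hny r O l hl)
  rw [start_R] at h
  have e1 : ∀ w : RX × RY × L, (HSt.start iX iY : HSt L PX.St PY.St RX RY).pot A w +
      1 / ((A.h : ℝ) - 2) ≤ 5 / A.h := by
    intro w
    rw [start_pot A hA]
    have : 1 / ((A.h : ℝ) - 2) ≤ 2 / A.h := by
      rw [div_le_div_iff₀ (by linarith) hh]
      linarith
    have e : (5 : ℝ) / A.h = 3 / A.h + 2 / A.h := by ring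
    rw [e]
    linarith
  have h2 := h.trans (Finset.sum_le_sum fun w _ => e1 w)
  rw [Finset.sum_const, nsmul_eq_mul, Finset.card_univ] at h2
  unfold payH at h2
  rw [Finset.sum_sub_distrib] at h2
  simp only [Finset.sum_ite, Finset.sum_const_zero, add_zero, Finset.sum_const, nsmul_eq_mul,
        mul_one] at h2
  have hN : (0 : ℝ) < Fintype.card (RX × RY × L) := by
    have : Nonempty L := ⟨0⟩
    exact_mod_cast Fintype.card_pos
  rw [prob_eq, prob_eq, sub_le_iff_le_add, div_add' _ _ _ hN.ne', div_le_div_iff_of_pos_right hN]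
  have h3 : ∀ a b c : ℝ, a - b ≤ c → a ≤ b + c := fun a b c h => by linarith
  have h4 := h3 _ _ _ h2
  rw [mul_comm (Fintype.card (RX × RY × L) : ℝ)] at h4
  exact h4

/-- **Key agreement** where one party asks only few values. -/
theorem half_attack [Nonempty σ] [Nonempty RA] [Nonempty RB]
    (hL : ∀ O, O ∈ L ↔ ∃ f : ι → K, O = ev f) (A : Party (ι → K) K M X)
    (B : Party (ι → K) K M Y) (iA : RA → A.St) (iB : RB → B.St) (outA : RA → A.St → Option σ)
    (outB : RB → B.St → σ) (m0 : M) (N n h : ℕ) (hn : 1 ≤ n) (hh : 1 ≤ h)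
    (hA : ∀ O ∈ L, ∀ (ra : RA) (l : List (M × M)), l.length = N →
      (A.asked O (iA ra) l).length ≤ n)
    (hB : ∀ O ∈ L, ∀ (rb : RB) (l : List (M × M)), l.length = N →
      (B.asked O (iB rb) l).length ≤ n)
    (hs : (∀ O ∈ L, ∀ (ra : RA) (l : List (M × M)), l.length = N →
        (lp (A.asked O (iA ra) l)).card ≤ n) ∨
      (∀ O ∈ L, ∀ (rb : RB) (l : List (M × M)), l.length = N →
        (lp (B.asked O (iB rb) l)).card ≤ n)) :
    ∃ E : List (M × M) → Comp (ι → K) K σ,
      (∀ t O, ((E t).asked O).length ≤ 130 * h ^ 6 * n ^ 10) ∧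
      (∀ t O, ∀ q ∈ (E t).asked O, ∃ p : ι, q = pt p) ∧
      prob (fun w : RA × RB × L =>
        outA w.1 (exec A B w.2.2 N (iA w.1) (iB w.2.1) m0).2.1 =
        some (outB w.2.1 (exec A B w.2.2 N (iA w.1) (iB w.2.1) m0).2.2)) - 5 / h ≤
      prob (fun w : RA × RB × L =>
        (E (exec A B w.2.2 N (iA w.1) (iB w.2.1) m0).1).run w.2.2 =
        outB w.2.1 (exec A B w.2.2 N (iA w.1) (iB w.2.1) m0).2.2) := by
  have hh' : (0 : ℝ) < h := by exact_mod_cast hh
  rcases Nat.lt_or_ge h 4 with h4 | h4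
  · refine ⟨fun _ => .ret (Classical.arbitrary σ), fun t O => by simp, fun t O q hq => by
      simp at hq, ?_⟩
    have a1 : ∀ p : RA × RB × L → Prop, prob p ≤ 1 := by
      intro p
      rw [prob_eq]
      apply div_le_one_of_le₀ _ (Nat.cast_nonneg _)
      exact_mod_cast Finset.card_le_univ _
    have a2 : ∀ p : RA × RB × L → Prop, 0 ≤ prob p := by
      intro p
      rw [prob_eq]
      positivity
    refine le_trans ?_ (a2 _)
    have b1 := a1 (fun w : RA × RB × L =>
      outA w.1 (exec A B w.2.2 N (iA w.1) (iB w.2.1) m0).2.1 =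
        some (outB w.2.1 (exec A B w.2.2 N (iA w.1) (iB w.2.1) m0).2.2))
    have h5 : (1 : ℝ) ≤ 5 / h := by
      rw [one_le_div hh']
      have : (h : ℝ) ≤ 4 := by exact_mod_cast h4.le
      linarith
    linarith
  · have hok := mkPar_ok n h hn h4
    rcases hs with hs | hs
    · -- the second party is the linear one
      refine ⟨fun t => hev (L := L) (mkPar n h) B A (gsX (mkPar n h) (fun r s => outB r s)) (turnsY N)
        (flat t) (HSt.start iB iA) m0, ?_, ?_, ?_⟩
      · intro t O
        refine (hev_asked (mkPar n h) hok B A _ O (turnsY N) (flat t) (HSt.start iB iA) m0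
          (start_valid _ iB iA) ?_ ?_).trans (mkPar_rest n h hn h4)
        · intro r O l hl
          rw [(turnsY_count N).1] at hl
          simpa [HSt.start, Side.start, mkPar] using asked_short B (O : (ι → K) → K) (iB r) N n
            m0 (fun l hl => hB O O.2 r l hl) l hl
        · intro r O l hl
          rw [(turnsY_count N).2] at hl
          simpa [HSt.start, Side.start, mkPar] using lp_short A (O : (ι → K) → K) (iA r) N n
            m0 (fun l hl => hs O O.2 r l hl) l hl
      · intro t O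
        exact hev_pt (mkPar n h) B A _ O (turnsY N) (flat t) _ m0
      · have hc := half_core hL (mkPar n h) hok B A iB iA
          (fun rb sb ra sa => outA ra sa = some (outB rb sb)) (fun rb sb _ _ => outB rb sb)
          (gsX (mkPar n h) (fun r s => outB r s)) n
          (fun S hV hC => by convert leaf_x hL (mkPar n h) hok S hV hC outA outB) (turnsY N) m0
          (by
            intro r O l hl
            rw [(turnsY_count N).1] at hl
            exact asked_short B (O : (ι → K) → K) (iB r) N n m0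
              (fun l hl => hB O O.2 r l hl) l hl)
          (by
            intro r O l hl
            rw [(turnsY_count N).2] at hl
            exact lp_short A (O : (ι → K) → K) (iA r) N n m0
              (fun l hl => hs O O.2 r l hl) l hl)
          (by
            intro r O l hl
            rw [(turnsY_count N).2] at hl
            exact asked_short A (O : (ι → K) → K) (iA r) N n m0
              (fun l hl => hA O O.2 r l hl) l hl)
        simp only [hexec_Y] at hc
        have hsw : ∀ p : RB × RA × L → Prop, prob p = prob (fun w : RA × RB × L =>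
            p (w.2.1, w.1, w.2.2)) := by
          intro p
          unfold prob
          congr 1
          · congr 1
            refine Nat.card_congr ⟨fun w => ⟨(w.1.2.1, w.1.1, w.1.2.2), w.2⟩,
              fun w => ⟨(w.1.2.1, w.1.1, w.1.2.2), w.2⟩, fun w => rfl, fun w => rfl⟩
          · congr 1
            exact Nat.card_congr ⟨fun w => (w.2.1, w.1, w.2.2), fun w => (w.2.1, w.1, w.2.2),
              fun w => rfl, fun w => rfl⟩
        rw [hsw, hsw] at hc
        exact hc
    · -- the first party is the linear one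
      refine ⟨fun t => hev (L := L) (mkPar n h) A B (gsY (mkPar n h) (fun r s => outB r s)) (turnsX N)
        (flat t) (HSt.start iA iB) m0, ?_, ?_, ?_⟩
      · intro t O
        refine (hev_asked (mkPar n h) hok A B _ O (turnsX N) (flat t) (HSt.start iA iB) m0
          (start_valid _ iA iB) ?_ ?_).trans (mkPar_rest n h hn h4)
        · intro r O l hl
          rw [(turnsX_count N).1] at hl
          simpa [HSt.start, Side.start, mkPar] using asked_short A (O : (ι → K) → K) (iA r) N n
            m0 (fun l hl => hA O O.2 r l hl) l hl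
        · intro r O l hl
          rw [(turnsX_count N).2] at hl
          simpa [HSt.start, Side.start, mkPar] using lp_short B (O : (ι → K) → K) (iB r) N n
            m0 (fun l hl => hs O O.2 r l hl) l hl
      · intro t O
        exact hev_pt (mkPar n h) A B _ O (turnsX N) (flat t) _ m0
      · have hc := half_core hL (mkPar n h) hok A B iA iB
          (fun ra sa rb sb => outA ra sa = some (outB rb sb)) (fun _ _ rb sb => outB rb sb)
          (gsY (mkPar n h) (fun r s => outB r s)) n
          (fun S hV hC => by convert leaf_y hL (mkPar n h) hok S hV hC outA outB) (turnsX N) m0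
          (by
            intro r O l hl
            rw [(turnsX_count N).1] at hl
            exact asked_short A (O : (ι → K) → K) (iA r) N n m0
              (fun l hl => hA O O.2 r l hl) l hl)
          (by
            intro r O l hl
            rw [(turnsX_count N).2] at hl
            exact lp_short B (O : (ι → K) → K) (iB r) N n m0
              (fun l hl => hs O O.2 r l hl) l hl)
          (by
            intro r O l hl
            rw [(turnsX_count N).2] at hl
            exact asked_short B (O : (ι → K) → K) (iB r) N n m0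
              (fun l hl => hB O O.2 r l hl) l hl)
        simp only [hexec_X] at hc
        exact hc

end Pool.Agent.LinOT
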