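import Pool.Agent.Lib.MP_ae38e0_lc.Half.Defs

set_option autoImplicit false

/-!
# Half-algebraic attack: elementary facts
-/

namespace Pool.Agent.LinOT

open Classical

variable {K : Type} [Field K] {ι : Type} [Fintype ι]

theorem mem_sp {c : ι → K} {p : ι} : p ∈ sp c ↔ c p ≠ 0 := by simp [sp]

theorem mem_TT {s : ℕ} {Q : Finset ι} {V : Submodule K (ι → K)} {p : ι} :
    p ∈ TT s Q V ↔ p ∉ Q ∧ ∃ c ∈ V, c p ≠ 0 ∧ (sp c \ Q).card ≤ s := by simp [TT]

theorem mem_lp {l : List (ι → K)} {p : ι} : p ∈ lp l ↔ ∃ c ∈ l, c p ≠ 0 := by simp [lp]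

theorem mem_kq {kn : List ((ι → K) × K)} {p : ι} :
    p ∈ kq kn ↔ (pt p : ι → K) ∈ kn.map Prod.fst := by simp [kq]

theorem TT_mono {s s' : ℕ} {Q : Finset ι} {V V' : Submodule K (ι → K)} (hs : s ≤ s')
    (hV : V ≤ V') : TT s Q V ⊆ TT s' Q V' := by
  intro p hp
  rw [mem_TT] at hp ⊢
  obtain ⟨h1, c, hc, h2, h3⟩ := hp
  exact ⟨h1, c, hV hc, h2, h3.trans hs⟩

theorem TT_disj (s : ℕ) (Q : Finset ι) (V : Submodule K (ι → K)) : Disjoint (TT s Q V) Q := by
  rw [Finset.disjoint_left]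
  intro p hp
  exact (mem_TT.mp hp).1

theorem TT_ask {s t : ℕ} {Q J : Finset ι} {V : Submodule K (ι → K)} (hJ : J.card ≤ t) :
    TT s (Q ∪ J) V ⊆ TT (s + t) Q V := by
  intro p hp
  rw [mem_TT] at hp ⊢
  obtain ⟨h1, c, hc, h2, h3⟩ := hp
  refine ⟨fun h => h1 (Finset.mem_union_left _ h), c, hc, h2, ?_⟩
  have h4 : sp c \ Q ⊆ (sp c \ (Q ∪ J)) ∪ J := by
    intro x hx
    simp only [Finset.mem_sdiff, Finset.mem_union] at hx ⊢
    tauto
  calc (sp c \ Q).card ≤ ((sp c \ (Q ∪ J)) ∪ J).card := Finset.card_le_card h4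
    _ ≤ (sp c \ (Q ∪ J)).card + J.card := Finset.card_union_le _ _
    _ ≤ s + t := by omega

theorem pt_injective : Function.Injective (pt : ι → ι → K) := by
  intro p q h
  by_contra hne
  have := congrFun h p
  simp only [pt, Pi.single_eq_same] at this
  rw [Pi.single_eq_of_ne hne] at this
  exact one_ne_zero this

theorem pts_length (J : Finset ι) : (pts J : List (ι → K)).length = J.card := by
  simp [pts]

theorem mem_pts {J : Finset ι} {p : ι} : (pt p : ι → K) ∈ pts J ↔ p ∈ J := by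
  unfold pts
  rw [List.mem_map]
  constructor
  · rintro ⟨q, hq, he⟩
    rw [← pt_injective (K := K) he]
    exact Finset.mem_toList.mp hq
  · intro hp
    exact ⟨p, Finset.mem_toList.mpr hp, rfl⟩

theorem zip_fst {α β : Type} (l : List α) (a : List β) (h : a.length = l.length) :
    (l.zip a).map Prod.fst = l := by
  rw [List.map_fst_zip]
  omega

theorem kq_append (kn : List ((ι → K) × K)) (J : Finset ι) (a : List K)
    (ha : a.length = J.card) : kq (kn ++ (pts J).zip a) = kq kn ∪ J := by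
  ext p
  rw [mem_kq, List.map_append, List.mem_append, zip_fst _ _ (by rw [ha, pts_length]), mem_pts,
    Finset.mem_union, mem_kq]

theorem kq_nil : kq ([] : List ((ι → K) × K)) = ∅ := by
  ext p; simp [mem_kq]

theorem spn_mono {l l' : List (ι → K)} (h : ∀ c ∈ l, c ∈ l') : spn l ≤ spn l' :=
  Submodule.span_mono h

theorem lp_mono {l l' : List (ι → K)} (h : ∀ c ∈ l, c ∈ l') : lp l ⊆ lp l' := by
  intro p hp
  rw [mem_lp] at hp ⊢
  obtain ⟨c, hc, h1⟩ := hp
  exact ⟨c, h c hc, h1⟩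

/-- The dimension of the span is at most the number of queries. -/
theorem finrank_spn (l : List (ι → K)) : Module.finrank K (spn l) ≤ l.length := by
  unfold spn
  have h : {c | c ∈ l} = ((l.toFinset : Finset (ι → K)) : Set (ι → K)) := by
    ext c; simp
  rw [h]
  exact (finrank_span_finset_le_card _).trans (List.toFinset_card_le l)

end Pool.Agent.LinOT
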