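import Pool.Agent.Lib.MP_ae38e0_lc.Half.ValidOps

set_option autoImplicit false

/-!
# Half-algebraic attack: the size of the batches (ROW ha-Hv)
-/

namespace Pool.Agent.LinOT

open Classical

variable {K : Type} [Field K] {ι : Type} [Fintype ι] {L : Submodule K ((ι → K) → K)} [Fintype L]
  {StX StY RX RY : Type} [Fintype RX] [Fintype RY]

/-- The batches are not too big. PROOF. If `RW` is empty then all points are light, `hv = ∅`.
Otherwise every `p ∈ hv` has `#RW < Th * (#{w ∈ RW | p ∈ PB} + #{w ∈ RW | p ∈ cum})`; sum over `p`: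
`#hv * #RW ≤ Th * ∑ w ∈ RW, (#PB w + #cum w) ≤ Th * #RW * (n + n * sm)` (`pbY`, `cum_le`).
And `Th * (n * (sm + 1)) ≤ Bm` by `B1`, `h ≥ 1`. -/
theorem hv_card (A : Par) (hA : A.Ok) (S : HSt L StX StY RX RY) (hV : S.Valid A) :
    (S.hv A).card ≤ A.Bm := by
  have key : ∀ p ∈ S.hv A, (S.RW A.n).card + 0 ≤
      A.Th * (((S.RW A.n).filter fun w => p ∈ S.PB (wy w).1 (wy w).2).card +
        ((S.RW A.n).filter fun w => p ∈ S.cum (wx w).1 (wx w).2).card) := by
    intro p hp
    unfold HSt.hv at hp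
    rw [Finset.mem_filter] at hp
    have h2 := hp.2.2
    unfold HSt.Light at h2
    rw [not_and_or] at h2
    rw [Nat.mul_add]
    rcases h2 with h2 | h2 <;> omega
  have hsum : (S.hv A).card * (S.RW A.n).card ≤
      A.Th * ∑ p ∈ S.hv A, (((S.RW A.n).filter fun w => p ∈ S.PB (wy w).1 (wy w).2).card +
        ((S.RW A.n).filter fun w => p ∈ S.cum (wx w).1 (wx w).2).card) := by
    rw [Finset.mul_sum, ← smul_eq_mul, ← Finset.sum_const]
    exact Finset.sum_le_sum fun p hp => by simpa using key p hp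
  have hexch : ∀ F : RX × RY × L → Finset ι,
      ∑ p ∈ S.hv A, ((S.RW A.n).filter fun w => p ∈ F w).card ≤
        ∑ w ∈ S.RW A.n, (F w).card := by
    intro F
    simp only [Finset.card_filter]
    rw [Finset.sum_comm]
    refine Finset.sum_le_sum fun w _ => ?_
    rw [← Finset.card_filter]
    exact Finset.card_le_card fun p hp => (Finset.mem_filter.mp hp).2
  have h1 := hexch fun w => S.PB (wy w).1 (wy w).2
  have h2 := hexch fun w => S.cum (wx w).1 (wx w).2
  have h3 : ∑ w ∈ S.RW A.n, (S.PB (wy w).1 (wy w).2).card ≤ (S.RW A.n).card * A.n := by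
    rw [← smul_eq_mul, ← Finset.sum_const]
    exact Finset.sum_le_sum fun w _ => hV.pbY _ _
  have h4 : ∑ w ∈ S.RW A.n, (S.cum (wx w).1 (wx w).2).card ≤
      (S.RW A.n).card * (A.n * A.sm) := by
    rw [← smul_eq_mul, ← Finset.sum_const]
    exact Finset.sum_le_sum fun w _ => cum_le A S hV _ _
  rw [Finset.sum_add_distrib] at hsum
  have h5 : (S.hv A).card * (S.RW A.n).card ≤
      (A.Th * (A.n * (A.sm + 1))) * (S.RW A.n).card := by
    refine hsum.trans ?_
    calc A.Th * (∑ p ∈ S.hv A, ((S.RW A.n).filter fun w => p ∈ S.PB (wy w).1 (wy w).2).card +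
          ∑ p ∈ S.hv A, ((S.RW A.n).filter fun w => p ∈ S.cum (wx w).1 (wx w).2).card)
        ≤ A.Th * ((S.RW A.n).card * A.n + (S.RW A.n).card * (A.n * A.sm)) :=
          Nat.mul_le_mul_left _ (Nat.add_le_add (h1.trans h3) (h2.trans h4))
      _ = (A.Th * (A.n * (A.sm + 1))) * (S.RW A.n).card := by ring
  have h6 : A.Th * (A.n * (A.sm + 1)) ≤ A.Bm := by
    rw [hA.B1]
    have h7 : 1 ≤ A.h := le_trans (by norm_num) hA.h4
    calc A.Th * (A.n * (A.sm + 1)) = 1 * A.Th * (A.n * (A.sm + 1)) := by ring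
      _ ≤ A.h * A.Th * (A.n * (A.sm + 1)) := by gcongr
  rcases Nat.eq_zero_or_pos (S.RW A.n).card with h0 | h0
  · have he : S.hv A = ∅ := by
      rw [Finset.eq_empty_iff_forall_notMem]
      intro p hp
      unfold HSt.hv at hp
      rw [Finset.mem_filter] at hp
      apply hp.2.2
      unfold HSt.Light
      have hRW : S.RW A.n = ∅ := Finset.card_eq_zero.mp h0
      rw [hRW]
      simp
    rw [he]
    simp
  · exact (Nat.le_of_mul_le_mul_right h5 h0).trans h6

end Pool.Agent.LinOT
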