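import Pool.Agent.Lib.MP_ae38e0_lc.Half.AskX
import Pool.Agent.Lib.MP_ae38e0_lc.Half.AskY
import Pool.Agent.Lib.MP_ae38e0_lc.Half.AskH
import Pool.Agent.Lib.MP_ae38e0_lc.Half.Hv
import Pool.Agent.Lib.MP_ae38e0_lc.Half.CloDef

set_option autoImplicit false

/-!
# Half-algebraic attack: the closing loop
-/

namespace Pool.Agent.LinOT

open Classical

variable {K : Type} [Field K] {ι : Type} [Fintype ι] {L : Submodule K ((ι → K) → K)} [Fintype L]
  {StX StY RX RY : Type} [Fintype RX] [Fintype RY]

/-- The three kinds of asks. -/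
theorem next_cases (A : Par) (S : HSt L StX StY RX RY) (J : Finset ι) (k b : ℕ)
    (h : S.next? A = some (J, k, b)) : S.k < A.Kc ∧ S.b < A.Bm ∧
      ((∃ x, (S.RW A.n).card < A.h * ((S.RW A.n).filter fun w => ¬ S.WG A.n x (wy w)).card ∧
          J = TT A.n S.Q (S.V x.1 x.2) ∧ k = S.k + 1 ∧ b = S.b) ∨
        (∃ y, (S.RW A.n).card < A.h * ((S.RW A.n).filter fun w => ¬ S.WG A.n (wx w) y).card ∧
          J = S.PB y.1 y.2 \ S.Q ∧ k = S.k + 1 ∧ b = S.b) ∨
        (S.Unc A ∧ J = S.hv A ∧ J.Nonempty ∧ k = S.k ∧ b = S.b + J.card)) := by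
  unfold HSt.next? at h
  split_ifs at h with h0 h1 h2 h3
  · simp only [Option.some.injEq, Prod.mk.injEq] at h
    exact ⟨h0.1, h0.2, Or.inl ⟨h1.choose, h1.choose_spec.2, h.1.symm, h.2.1.symm, h.2.2.symm⟩⟩
  · simp only [Option.some.injEq, Prod.mk.injEq] at h
    exact ⟨h0.1, h0.2, Or.inr (Or.inl ⟨h2.choose, h2.choose_spec.2, h.1.symm, h.2.1.symm,
      h.2.2.symm⟩)⟩
  · simp only [Option.some.injEq, Prod.mk.injEq] at h
    obtain ⟨e1, e2, e3⟩ := h
    refine ⟨h0.1, h0.2, Or.inr (Or.inr ⟨⟨?_, ?_⟩, e1.symm, e1 ▸ h3, e2.symm, ?_⟩)⟩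
    · intro x hx
      by_contra hc
      exact h1 ⟨x, hx, not_le.mp hc⟩
    · intro y hy
      by_contra hc
      exact h2 ⟨y, hy, not_le.mp hc⟩
    · rw [← e3, e1]

/-- Nothing to ask: cut or closed. -/
theorem done_cases (A : Par) (S : HSt L StX StY RX RY) (h : S.Done A) :
    (A.Kc ≤ S.k ∨ A.Bm ≤ S.b) ∨ S.Clo A := by
  unfold HSt.Done HSt.next? at h
  split_ifs at h with h0 h1 h2 h3
  · right
    refine ⟨⟨?_, ?_⟩, ?_⟩
    · intro x hx
      by_contra hc
      exact h1 ⟨x, hx, not_le.mp hc⟩
    · intro y hy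
      by_contra hc
      exact h2 ⟨y, hy, not_le.mp hc⟩
    · intro p hp
      by_contra hc
      exact h3 ⟨p, by simp [HSt.hv, hp, hc]⟩
  · left
    omega

/-- An ask does not increase the potential. -/
theorem ask_pot (hL : ∀ O, O ∈ L ↔ ∃ f : ι → K, O = ev f) (A : Par) (hA : A.Ok)
    (S : HSt L StX StY RX RY) (hV : S.Valid A) (J : Finset ι) (k b : ℕ)
    (h : S.next? A = some (J, k, b)) (a : RX × RY × L → List K)
    (ha : ∀ w, (a w).length = J.card) :
    ∑ w ∈ S.R, (S.ask A J k b (a w)).pot A w ≤ ∑ w ∈ S.R, S.pot A w := by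
  obtain ⟨h1, h2, h3 | h3 | h3⟩ := next_cases A S J k b h
  · obtain ⟨x, hx, rfl, rfl, rfl⟩ := h3
    exact ask_x_pot A hA S hV h1 x hx a ha
  · obtain ⟨y, hy, rfl, rfl, rfl⟩ := h3
    exact ask_y_pot A hA S hV h1 y hy a ha
  · obtain ⟨hU, rfl, -, rfl, rfl⟩ := h3
    exact ask_h_pot hL A hA S hV hU a ha

/-- The executions which are consistent after an ask. -/
theorem ask_R (A : Par) (S : HSt L StX StY RX RY) (J : Finset ι) (k b : ℕ) (a : List K) :
    (S.ask A J k b a).R = cs L orc (real L S.SX S.SY) (S.kn ++ (pts J).zip a) := rfl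

/-- **The closing phase.** -/
theorem close_pot (hL : ∀ O, O ∈ L ↔ ∃ f : ι → K, O = ev f) (A : Par) (hA : A.Ok)
    (SX : Side (ι → K) K StX RX) (SY : Side (ι → K) K StY RY)
    (F : HSt L StX StY RX RY → RX × RY × L → ℝ) (c : ℝ)
    (hF : ∀ S : HSt L StX StY RX RY, S.Valid A → S.Done A → S.SX = SX → S.SY = SY →
      ∑ w ∈ S.R, F S w ≤ ∑ w ∈ S.R, (S.pot A w + c)) :
    ∀ (j : ℕ) (S : HSt L StX StY RX RY), S.Valid A → S.SX = SX → S.SY = SY →
      (A.Kc - S.k) + (A.Bm - S.b) ≤ j →
      ∑ w ∈ S.R, F ((S.close A j).run (w.2.2 : (ι → K) → K)) w ≤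
        ∑ w ∈ S.R, (S.pot A w + c) := by
  intro j
  induction j with
  | zero =>
    intro S hV hX hY hj
    have hD : S.Done A := by
      unfold HSt.Done HSt.next?
      rw [if_neg]
      omega
    simp only [HSt.close, Comp.run_ret]
    exact hF S hV hD hX hY
  | succ j ih =>
    intro S hV hX hY hj
    rcases hn : S.next? A with _ | ⟨J, k, b⟩
    · have hD : S.Done A := hn
      simp only [HSt.close, hn, Comp.run_ret]
      exact hF S hV hD hX hY
    · simp only [HSt.close, hn, Comp.run_bind, Comp.run_askAll]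
      obtain ⟨h1, h2, h3⟩ := next_cases A S J k b hn
      have hm : (A.Kc - k) + (A.Bm - b) ≤ j := by
        rcases h3 with ⟨x, -, -, rfl, rfl⟩ | ⟨y, -, -, rfl, rfl⟩ | ⟨-, -, hne, rfl, rfl⟩
        · omega
        · omega
        · have := hne.card_pos
          omega
      have hsum : ∀ f : RX × RY × L → ℝ, ∑ w ∈ S.R, f w = ∑ a ∈ answers L (pts J),
          ∑ w ∈ cs L orc (real L S.SX S.SY) (S.kn ++ (pts J).zip a), f w := by
        intro f
        exact (sum_answers L orc (real L S.SX S.SY) S.kn (pts J) f).symm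
      have hans : ∀ a ∈ answers L (pts J), ∀ w ∈ cs L orc (real L S.SX S.SY)
          (S.kn ++ (pts J).zip a), (pts J).map (w.2.2 : (ι → K) → K) = a := by
        intro a ha w hw
        rw [mem_cs, cons_append] at hw
        exact (cons_zip _ _ _ (answers_length L ha)).mp hw.2.2
      have key : ∑ w ∈ S.R, F ((HSt.close A j (S.ask A J k b
            ((pts J).map (w.2.2 : (ι → K) → K)))).run (w.2.2 : (ι → K) → K)) w ≤
          ∑ w ∈ S.R, ((S.ask A J k b ((pts J).map (w.2.2 : (ι → K) → K))).pot A w + c) := by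
        rw [hsum, hsum]
        refine Finset.sum_le_sum fun a ha => ?_
        have e1 : ∑ w ∈ cs L orc (real L S.SX S.SY) (S.kn ++ (pts J).zip a),
            F ((HSt.close A j (S.ask A J k b
              ((pts J).map (w.2.2 : (ι → K) → K)))).run (w.2.2 : (ι → K) → K)) w =
            ∑ w ∈ (S.ask A J k b a).R,
              F ((HSt.close A j (S.ask A J k b a)).run (w.2.2 : (ι → K) → K)) w := by
          rw [ask_R]
          refine Finset.sum_congr rfl fun w hw => ?_
          rw [hans a ha w hw]
        have e2 : ∑ w ∈ cs L orc (real L S.SX S.SY) (S.kn ++ (pts J).zip a),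
            ((S.ask A J k b ((pts J).map (w.2.2 : (ι → K) → K))).pot A w + c) =
            ∑ w ∈ (S.ask A J k b a).R, ((S.ask A J k b a).pot A w + c) := by
          rw [ask_R]
          refine Finset.sum_congr rfl fun w hw => ?_
          rw [hans a ha w hw]
        rw [e1, e2]
        refine ih (S.ask A J k b a) (valid_ask A S hV J k b a ?_) hX hY hm
        rw [answers_length L ha, pts_length]
      refine key.trans ?_
      rw [Finset.sum_add_distrib, Finset.sum_add_distrib]
      exact add_le_add_left (ask_pot hL A hA S hV J k b hn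
        (fun w => (pts J).map (w.2.2 : (ι → K) → K)) (fun w => by simp [pts_length])) _

/-- What the closing loop does. -/
theorem close_spec (A : Par) (O : (ι → K) → K) : ∀ (j : ℕ) (S : HSt L StX StY RX RY),
    S.Valid A → (A.Kc - S.k) + (A.Bm - S.b) ≤ j →
    ((S.close A j).run O).Valid A ∧ ((S.close A j).run O).Done A ∧
      ((S.close A j).run O).SX = S.SX ∧ ((S.close A j).run O).SY = S.SY := by
  intro j
  induction j with
  | zero =>
    intro S hV hj
    have hD : S.Done A := by
      unfold HSt.Done HSt.next?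
      rw [if_neg]
      omega
    exact ⟨hV, hD, rfl, rfl⟩
  | succ j ih =>
    intro S hV hj
    rcases hn : S.next? A with _ | ⟨J, k, b⟩
    · have hD : S.Done A := hn
      have he : (S.close A (j + 1)).run O = S := by simp only [HSt.close, hn, Comp.run_ret]
      rw [he]
      exact ⟨hV, hD, rfl, rfl⟩
    · simp only [HSt.close, hn, Comp.run_bind, Comp.run_askAll]
      obtain ⟨h1, h2, h3⟩ := next_cases A S J k b hn
      have hm : (A.Kc - k) + (A.Bm - b) ≤ j := by
        rcases h3 with ⟨x, -, -, rfl, rfl⟩ | ⟨y, -, -, rfl, rfl⟩ | ⟨-, -, hne, rfl, rfl⟩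
        · omega
        · omega
        · have := hne.card_pos
          omega
      exact ih (S.ask A J k b ((pts J).map O)) (valid_ask A S hV J k b _ (by simp [pts_length])) hm

/-- The number of points which may still be asked. -/
def Par.rest (A : Par) (k b : ℕ) : ℕ := (A.Kc - k) * A.n ^ 2 + (if b < A.Bm then 2 * A.Bm - b else 0)

/-- The number of queries of the closing loop. -/
theorem close_asked_le (A : Par) (hA : A.Ok) (O : (ι → K) → K) :
    ∀ (j : ℕ) (S : HSt L StX StY RX RY), S.Valid A →
      ((S.close A j).asked O).length + A.rest ((S.close A j).run O).k ((S.close A j).run O).b ≤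
        A.rest S.k S.b := by
  intro j
  induction j with
  | zero => intro S hV; simp [HSt.close]
  | succ j ih =>
    intro S hV
    rcases hn : S.next? A with _ | ⟨J, k, b⟩
    · simp [HSt.close, hn]
    · simp only [HSt.close, hn, Comp.run_bind, Comp.run_askAll, Comp.asked_bind,
        Comp.asked_askAll, List.length_append]
      obtain ⟨h1, h2, h3⟩ := next_cases A S J k b hn
      have h4 := ih (S.ask A J k b ((pts J).map O))
        (valid_ask A S hV J k b _ (by simp [pts_length]))
      have hk' : (S.ask A J k b ((pts J).map O)).k = k := rfl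
      have hb' : (S.ask A J k b ((pts J).map O)).b = b := rfl
      rw [hk', hb'] at h4
      have h5 : J.card + A.rest k b ≤ A.rest S.k S.b := by
        unfold Par.rest
        rcases h3 with ⟨x, -, rfl, rfl, rfl⟩ | ⟨y, -, rfl, rfl, rfl⟩ | ⟨-, rfl, hne, rfl, rfl⟩
        · have h6 := TTn_card A S hV x.1 x.2
          have : A.Kc - S.k = (A.Kc - (S.k + 1)) + 1 := by omega
          rw [this, Nat.add_mul, one_mul]
          omega
        · have h6 : (S.PB y.1 y.2 \ S.Q).card ≤ A.n ^ 2 :=
            (Finset.card_le_card Finset.sdiff_subset).trans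
              ((hV.pbY y.1 y.2).trans (by have := hA.n1; nlinarith))
          have : A.Kc - S.k = (A.Kc - (S.k + 1)) + 1 := by omega
          rw [this, Nat.add_mul, one_mul]
          omega
        · have h6 := hv_card A hA S hV
          rw [if_pos h2]
          split_ifs with h7
          · omega
          · omega
      rw [pts_length]
      omega

/-- The queries of the closing loop are queries for values. -/
theorem close_asked_pt (A : Par) (O : (ι → K) → K) : ∀ (j : ℕ) (S : HSt L StX StY RX RY),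
    ∀ q ∈ (S.close A j).asked O, ∃ p : ι, q = pt p := by
  intro j
  induction j with
  | zero => intro S q hq; simp [HSt.close] at hq
  | succ j ih =>
    intro S q hq
    rcases hn : S.next? A with _ | ⟨J, k, b⟩
    · simp [HSt.close, hn] at hq
    · simp only [HSt.close, hn, Comp.asked_bind, Comp.asked_askAll, List.mem_append] at hq
      rcases hq with hq | hq
      · unfold pts at hq
        obtain ⟨p, -, rfl⟩ := List.mem_map.mp hq
        exact ⟨p, rfl⟩
      · exact ih _ q hq

end Pool.Agent.LinOT
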