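import Pool.Agent.Lib.MP_ae38e0_lc.Half.Basic

set_option autoImplicit false

/-!
# Half-algebraic attack: the cumulative sets (ROW ha-Cum)
-/

namespace Pool.Agent.LinOT

open Classical

variable {K : Type} [Field K] {ι : Type} [Fintype ι]

/-- PROOF. `B` is linearly independent inside `V`, so `B.card ≤ finrank V`
(`LinearIndependent.fintype_card_le_finrank` after restricting to `V`, or
`finrank_span_finset_eq_card` and `Submodule.finrank_mono`). -/
theorem cum_card {V : Submodule K (ι → K)} {Q C : Finset ι} {m : ℕ} (h : CumInv V Q m C) :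
    C.card ≤ Module.finrank K V * m := by
  obtain ⟨B, hB, hV, -, hc⟩ := h
  have h1 : Module.finrank K (Submodule.span K (B : Set (ι → K))) = B.card :=
    finrank_span_finset_eq_card hB
  have h2 : Submodule.span K (B : Set (ι → K)) ≤ V := Submodule.span_le.mpr (fun b hb => hV b hb)
  have h3 := Submodule.finrank_mono h2
  rw [h1] at h3
  exact hc.trans (Nat.mul_le_mul_right m h3)

omit [Fintype ι] in
theorem Cum_support {B : Finset (ι → K)} {x : ι → K} (hx : x ∈ Submodule.span K (B : Set (ι → K)))
    {p : ι} (hp : x p ≠ 0) : ∃ b ∈ B, b p ≠ 0 := by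
  by_contra hcon
  push Not at hcon
  have h1 : Submodule.span K (B : Set (ι → K)) ≤ LinearMap.ker (LinearMap.proj (R := K) (φ := fun _ : ι => K) p) :=
    Submodule.span_le.mpr (fun b hb => by
      rw [SetLike.mem_coe, LinearMap.mem_ker]
      exact hcon b hb)
  have h2 := h1 hx
  rw [LinearMap.mem_ker] at h2
  exact hp h2

theorem Cum_li_card {V : Submodule K (ι → K)} {B : Finset (ι → K)}
    (hB : LinearIndependent K (fun b : B => (b : ι → K))) (hV : ∀ b ∈ B, b ∈ V) :
    B.card ≤ Module.finrank K V := by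
  have h1 : Module.finrank K (Submodule.span K (B : Set (ι → K))) = B.card :=
    finrank_span_finset_eq_card hB
  have h2 : Submodule.span K (B : Set (ι → K)) ≤ V := Submodule.span_le.mpr (fun b hb => hV b hb)
  have h3 := Submodule.finrank_mono h2
  rwa [h1] at h3

theorem Cum_insert {B : Finset (ι → K)} {c : ι → K}
    (hB : LinearIndependent K (fun b : B => (b : ι → K)))
    (hc : c ∉ Submodule.span K (B : Set (ι → K))) :
    LinearIndependent K (fun b : (insert c B : Finset (ι → K)) => (b : ι → K)) := by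
  have h1 : LinearIndepOn K id (B : Set (ι → K)) := hB
  have h2 : LinearIndepOn K id (insert c (B : Set (ι → K))) := h1.id_insert hc
  have h3 : ((insert c B : Finset (ι → K)) : Set (ι → K)) = insert c (B : Set (ι → K)) :=
    Finset.coe_insert c B
  rw [← h3] at h2
  exact h2

theorem Cum_max {V' : Submodule K (ι → K)} {Q' : Finset ι} {s : ℕ} {B : Finset (ι → K)}
    (hB : LinearIndependent K (fun b : B => (b : ι → K))) (hV : ∀ b ∈ B, b ∈ V') :
    ∃ B' : Finset (ι → K), B ⊆ B' ∧ LinearIndependent K (fun b : B' => (b : ι → K)) ∧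
      (∀ b ∈ B', b ∈ V') ∧ (∀ b ∈ B', b ∉ B → (sp b \ Q').card ≤ s) ∧
      ∀ c ∈ V', (sp c \ Q').card ≤ s → c ∈ Submodule.span K (B' : Set (ι → K)) := by
  let P : ℕ → Prop := fun k => ∃ B' : Finset (ι → K), B'.card = k ∧ B ⊆ B' ∧
    LinearIndependent K (fun b : B' => (b : ι → K)) ∧
      (∀ b ∈ B', b ∈ V') ∧ (∀ b ∈ B', b ∉ B → (sp b \ Q').card ≤ s)
  have hP0 : P B.card := ⟨B, rfl, Finset.Subset.refl B, hB, hV, fun b hb hb' => absurd hb hb'⟩
  have hle := Cum_li_card hB hV
  obtain ⟨B', hk, h1, h2, h3, h4⟩ : P (Nat.findGreatest P (Module.finrank K V')) :=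
    Nat.findGreatest_spec hle hP0
  refine ⟨B', h1, h2, h3, h4, ?_⟩
  intro c hc hcs
  by_contra hcon
  have hcB : c ∉ B' := fun h => hcon (Submodule.subset_span h)
  have h5 := Cum_insert h2 hcon
  have h6 : ∀ b ∈ insert c B', b ∈ V' := by
    intro b hb
    rcases Finset.mem_insert.mp hb with rfl | hb
    · exact hc
    · exact h3 b hb
  have h7 := Cum_li_card h5 h6
  have h8 : P (insert c B').card := by
    refine ⟨insert c B', rfl, h1.trans (Finset.subset_insert _ _), h5, h6, ?_⟩
    intro b hb hb'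
    rcases Finset.mem_insert.mp hb with rfl | hb
    · exact hcs
    · exact h4 b hb hb'
  have h9 := Nat.le_findGreatest h7 h8
  rw [← hk, Finset.card_insert_of_notMem hcB] at h9
  omega

/-- PROOF. Take `B' ⊇ B` linearly independent, contained in `V'`, such that
(1) every `b ∈ B' \ B` has `(sp b \ Q').card ≤ s`, and of maximal cardinality with these properties
(cardinalities are bounded by `finrank V'`; or strong induction on `finrank V' - B.card`).
Then every `c ∈ V'` with `(sp c \ Q').card ≤ s` lies in the span of `B'` (otherwise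
`insert c B'` is bigger: `LinearIndependent` of `insert`, `linearIndependent_insert` /
`LinearIndepOn.insert`).  A vector of the span of `B'` has support inside `⋃ b ∈ B', sp b`
(`Submodule.span_induction`), so `TT s Q' V' ⊆ C ∪ ⋃ b ∈ B' \ B, (sp b \ Q')` (for `b ∈ B`:
`sp b ⊆ C ∪ Q ⊆ C ∪ Q'`).  Hence `(C ∪ TT s Q' V').card ≤ C.card + (B' \ B).card * s ≤ B'.card * m`.
And `sp b ⊆ (C ∪ TT s Q' V') ∪ Q'` for `b ∈ B' \ B`, because a point of `sp b \ Q'` is in
`TT s Q' V'` by definition (witness `b`). -/
theorem cum_step {V V' : Submodule K (ι → K)} {Q Q' C : Finset ι} {m s : ℕ} (h : CumInv V Q m C)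
    (hV : V ≤ V') (hQ : Q ⊆ Q') (hs : s ≤ m) : CumInv V' Q' m (C ∪ TT s Q' V') := by
  obtain ⟨B, hB, hBV, hsp, hc⟩ := h
  obtain ⟨B', h1, h2, h3, h4, h5⟩ := Cum_max (Q' := Q') (s := s) hB (fun b hb => hV (hBV b hb))
  refine ⟨B', h2, h3, ?_, ?_⟩
  · intro b hb p hp
    by_cases hbB : b ∈ B
    · have h6 := hsp b hbB hp
      rcases Finset.mem_union.mp h6 with h7 | h7
      · exact Finset.mem_union_left _ (Finset.mem_union_left _ h7)
      · exact Finset.mem_union_right _ (hQ h7)
    · by_cases hpQ : p ∈ Q'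
      · exact Finset.mem_union_right _ hpQ
      · refine Finset.mem_union_left _ (Finset.mem_union_right _ ?_)
        rw [mem_TT]
        exact ⟨hpQ, b, h3 b hb, mem_sp.mp hp, h4 b hb hbB⟩
  · have hsub : C ∪ TT s Q' V' ⊆ C ∪ (B' \ B).biUnion (fun b => sp b \ Q') := by
      intro p hp
      rcases Finset.mem_union.mp hp with h6 | h6
      · exact Finset.mem_union_left _ h6
      · rw [mem_TT] at h6
        obtain ⟨hpQ, c, hcV, hcp, hcs⟩ := h6
        obtain ⟨b, hb, hbp⟩ := Cum_support (h5 c hcV hcs) hcp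
        by_cases hbB : b ∈ B
        · rcases Finset.mem_union.mp (hsp b hbB (mem_sp.mpr hbp)) with h7 | h7
          · exact Finset.mem_union_left _ h7
          · exact absurd (hQ h7) hpQ
        · refine Finset.mem_union_right _ (Finset.mem_biUnion.mpr ⟨b, ?_, ?_⟩)
          · exact Finset.mem_sdiff.mpr ⟨hb, hbB⟩
          · exact Finset.mem_sdiff.mpr ⟨mem_sp.mpr hbp, hpQ⟩
    have hcard : ((B' \ B).biUnion (fun b => sp b \ Q')).card ≤ (B' \ B).card * m := by
      apply Finset.card_biUnion_le_card_mul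
      intro b hb
      rw [Finset.mem_sdiff] at hb
      exact (h4 b hb.1 hb.2).trans hs
    calc (C ∪ TT s Q' V').card ≤ (C ∪ (B' \ B).biUnion (fun b => sp b \ Q')).card :=
          Finset.card_le_card hsub
      _ ≤ C.card + ((B' \ B).biUnion (fun b => sp b \ Q')).card := Finset.card_union_le _ _
      _ ≤ B.card * m + (B' \ B).card * m := Nat.add_le_add hc hcard
      _ = B'.card * m := by
        rw [← Nat.add_mul]
        congr 1
        rw [Finset.card_sdiff_of_subset h1]
        have := Finset.card_le_card h1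
        omega

theorem cum_bot (Q : Finset ι) (m : ℕ) : CumInv (K := K) (⊥ : Submodule K (ι → K)) Q m ∅ :=
  ⟨∅, linearIndependent_empty_type, by simp, by simp, by simp⟩

theorem TT_bot (s : ℕ) (Q : Finset ι) : TT s Q (⊥ : Submodule K (ι → K)) = ∅ := by
  ext p
  rw [mem_TT]
  simp only [Submodule.mem_bot, exists_eq_left, Pi.zero_apply, ne_eq, not_true_eq_false,
    false_and, and_false, Finset.notMem_empty]

/-- `TT` itself is small. -/
theorem TT_card (s : ℕ) (Q : Finset ι) (V : Submodule K (ι → K)) :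
    (TT s Q V).card ≤ Module.finrank K V * s := by
  have h := cum_card (cum_step (cum_bot Q s) (bot_le : ⊥ ≤ V) (Finset.Subset.refl Q) (le_refl s))
  simpa using h

end Pool.Agent.LinOT
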