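import Pool.Agent.Lib.MP_ae38e0_lc.BoundedOT
import Pool.Agent.Lib.MP_ae38e0_lc.RoundNum

set_option autoImplicit false

/-!
# Half-algebraic attack: definitions

`ι` is a finite set of points, an oracle is given by a table `f : ι → K`, a query is a vector
`c : ι → K` with the answer `∑ p, c p * f p`.  The side `X` asks arbitrary queries, the queries of
the side `Y` involve few points, the eavesdropper asks only for values of `f`.
-/

namespace Pool.Agent.LinOT

open Classical

variable {K : Type} [Field K] {ι : Type} [Fintype ι]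

/-- The answers given by the table `f`. -/
def ev (f : ι → K) : (ι → K) → K := fun c => ∑ p, c p * f p

/-- The query for the value at the point `p`. -/
noncomputable def pt (p : ι) : ι → K := Pi.single p 1

/-- The points involved in a query. -/
noncomputable def sp (c : ι → K) : Finset ι := Finset.univ.filter fun p => c p ≠ 0

/-- The points outside of `Q` which are involved in a vector of `V` that has at most `s` points
outside of `Q`. -/
noncomputable def TT (s : ℕ) (Q : Finset ι) (V : Submodule K (ι → K)) : Finset ι :=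
  Finset.univ.filter fun p => p ∉ Q ∧ ∃ c ∈ V, c p ≠ 0 ∧ (sp c \ Q).card ≤ s

/-- `C` is covered by the supports of a linearly independent set of vectors of `V`, each of which
contributes at most `m` points. -/
def CumInv (V : Submodule K (ι → K)) (Q : Finset ι) (m : ℕ) (C : Finset ι) : Prop :=
  ∃ B : Finset (ι → K), LinearIndependent K (fun b : B => (b : ι → K)) ∧ (∀ b ∈ B, b ∈ V) ∧
    (∀ b ∈ B, sp b ⊆ C ∪ Q) ∧ C.card ≤ B.card * m

/-- The points whose values are known. -/
noncomputable def kq (kn : List ((ι → K) × K)) : Finset ι :=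
  Finset.univ.filter fun p => (pt p : ι → K) ∈ kn.map Prod.fst

/-- The queries for the values at the points of `J`. -/
noncomputable def pts (J : Finset ι) : List (ι → K) := J.toList.map pt

/-- The span of a list of queries. -/
def spn (l : List (ι → K)) : Submodule K (ι → K) := Submodule.span K {c | c ∈ l}

/-- The points involved in a list of queries. -/
noncomputable def lp (l : List (ι → K)) : Finset ι :=
  Finset.univ.filter fun p => ∃ c ∈ l, c p ≠ 0

variable (L : Submodule K ((ι → K) → K))

/-- A state of the analysis: the two sides, the known answers, the cumulative sets of sparse points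
and the counters. -/
structure HSt (StX StY RX RY : Type) where
  SX : Side (ι → K) K StX RX
  SY : Side (ι → K) K StY RY
  kn : List ((ι → K) × K)
  cum : RX → L → Finset ι
  cumn : RX → L → Finset ι
  k : ℕ
  b : ℕ

/-- The numbers: `n` bounds the queries, `h` is the precision, `Kc` the number of asks of the first
kind, `Th` the threshold, `Bm` the number of points asked in batches. -/
structure Par where
  n : ℕ
  h : ℕ
  Kc : ℕ
  Th : ℕ
  Bm : ℕ

/-- The largest sparsity. -/
def Par.sm (A : Par) : ℕ := A.n + A.Kc * A.n ^ 2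

/-- The sparsity after `k` asks of the first kind. -/
def Par.sk (A : Par) (k : ℕ) : ℕ := A.n + (A.Kc - k) * A.n ^ 2

/-- The relations between the numbers. -/
structure Par.Ok (A : Par) : Prop where
  n1 : 1 ≤ A.n
  h4 : 4 ≤ A.h
  K1 : A.Kc = A.h ^ 2 * (A.n + A.n ^ 2)
  T1 : A.Th = 4 * A.h * A.n * (A.sm + 1)
  B1 : A.Bm = A.h * A.Th * (A.n * (A.sm + 1))

variable {L} {StX StY RX RY : Type}

/-- The known points of a state. -/
noncomputable def HSt.Q (S : HSt L StX StY RX RY) : Finset ι := kq S.kn

/-- The space of the queries of the linear side. -/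
def HSt.V (S : HSt L StX StY RX RY) (r : RX) (O : L) : Submodule K (ι → K) := spn (S.SX.q r O)

/-- The points of the other side. -/
noncomputable def HSt.PB (S : HSt L StX StY RX RY) (r : RY) (O : L) : Finset ι := lp (S.SY.q r O)

/-- The state satisfies the invariants. -/
structure HSt.Valid (S : HSt L StX StY RX RY) (A : Par) : Prop where
  locX : S.SX.Loc
  locY : S.SY.Loc
  lenX : ∀ r (O : L), (S.SX.q r O).length ≤ A.n
  pbY : ∀ r (O : L), (S.PB r O).card ≤ A.n
  knpt : ∀ x ∈ S.kn.map Prod.fst, ∃ p : ι, x = pt p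
  cloc : ∀ r (O O' : L), (∀ c ∈ S.SX.q r O, (O : (ι → K) → K) c = (O' : (ι → K) → K) c) →
    S.cum r O = S.cum r O' ∧ S.cumn r O = S.cumn r O'
  cinv : ∀ r (O : L), CumInv (S.V r O) S.Q A.sm (S.cum r O)
  cinvn : ∀ r (O : L), CumInv (S.V r O) S.Q A.n (S.cumn r O)
  cT : ∀ r (O : L), TT (A.sk S.k) S.Q (S.V r O) ⊆ S.cum r O
  cTn : ∀ r (O : L), TT A.n S.Q (S.V r O) ⊆ S.cumn r O

/-- Weakly good pairs. -/
def HSt.WG (S : HSt L StX StY RX RY) (n : ℕ) (x : RX × L) (y : RY × L) : Prop :=
  Disjoint (TT n S.Q (S.V x.1 x.2)) (S.PB y.1 y.2)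

section fin

variable [Fintype L] [Fintype RX] [Fintype RY]

/-- The consistent real executions. -/
noncomputable def HSt.R (S : HSt L StX StY RX RY) : Finset (RX × RY × L) :=
  cs L orc (real L S.SX S.SY) S.kn

/-- The views of the linear side in the execution `w`. -/
def wx (w : RX × RY × L) : RX × L := (w.1, w.2.2)

/-- The views of the other side in the execution `w`. -/
def wy (w : RX × RY × L) : RY × L := (w.2.1, w.2.2)

/-- The weakly good real executions. -/
noncomputable def HSt.RW (S : HSt L StX StY RX RY) (n : ℕ) : Finset (RX × RY × L) :=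
  S.R.filter fun w => S.WG n (wx w) (wy w)

/-- The consistent views of the linear side with a weakly good partner. -/
noncomputable def HSt.XX (S : HSt L StX StY RX RY) (n : ℕ) : Finset (RX × L) :=
  (supp L S.SX S.kn).filter fun x => ∃ y ∈ supp L S.SY S.kn, S.WG n x y

/-- The consistent views of the other side with a weakly good partner. -/
noncomputable def HSt.YY (S : HSt L StX StY RX RY) (n : ℕ) : Finset (RY × L) :=
  (supp L S.SY S.kn).filter fun y => ∃ x ∈ supp L S.SX S.kn, S.WG n x y

/-- The two sides are not confused. -/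
def HSt.Unc (S : HSt L StX StY RX RY) (A : Par) : Prop :=
  (∀ x ∈ S.XX A.n, A.h * ((S.RW A.n).filter fun w => ¬ S.WG A.n x (wy w)).card ≤
    (S.RW A.n).card) ∧
  (∀ y ∈ S.YY A.n, A.h * ((S.RW A.n).filter fun w => ¬ S.WG A.n (wx w) y).card ≤
    (S.RW A.n).card)

/-- The point `p` is light. -/
def HSt.Light (S : HSt L StX StY RX RY) (A : Par) (p : ι) : Prop :=
  A.Th * ((S.RW A.n).filter fun w => p ∈ S.PB (wy w).1 (wy w).2).card ≤ (S.RW A.n).card ∧
  A.Th * ((S.RW A.n).filter fun w => p ∈ S.cum (wx w).1 (wx w).2).card ≤ (S.RW A.n).card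

/-- The heavy points. -/
noncomputable def HSt.hv (S : HSt L StX StY RX RY) (A : Par) : Finset ι :=
  Finset.univ.filter fun p => p ∉ S.Q ∧ ¬ S.Light A p

/-- The real execution `w` is good. -/
def HSt.good (S : HSt L StX StY RX RY) (w : RX × RY × L) : Prop :=
  Disjoint (S.cum w.1 w.2.2 \ S.Q) (S.PB w.2.1 w.2.2)

/-- The potential. -/
noncomputable def HSt.pot (S : HSt L StX StY RX RY) (A : Par) (w : RX × RY × L) : ℝ :=
  (if S.good w then min 1 ((S.k : ℝ) / A.Kc + (S.b : ℝ) / A.Bm) else 1) +
  (A.h : ℝ) / A.Kc * ((A.n : ℝ) + (A.n : ℝ) ^ 2 - (S.PB w.2.1 w.2.2 ∩ S.Q).card -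
    (S.cumn w.1 w.2.2 ∩ S.Q).card) +
  (A.Th : ℝ) / A.Bm * ((A.n : ℝ) + A.n * A.sm - (S.PB w.2.1 w.2.2 ∩ S.Q).card -
    (S.cum w.1 w.2.2 ∩ S.Q).card) +
  4 / (A.Th : ℝ) * ((A.n : ℝ) * A.sm - (S.cum w.1 w.2.2).card) +
  4 / (A.Th : ℝ) * ((A.n : ℝ) - (S.PB w.2.1 w.2.2).card)

end fin

/-- The state after the points of `J` have been asked, with the answers `a`; the counters become
`k` and `b`. -/
noncomputable def HSt.ask (S : HSt L StX StY RX RY) (A : Par) (J : Finset ι) (k b : ℕ)
    (a : List K) : HSt L StX StY RX RY where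
  SX := S.SX
  SY := S.SY
  kn := S.kn ++ (pts J).zip a
  cum r O := S.cum r O ∪ TT (A.sk k) (S.Q ∪ J) (S.V r O)
  cumn r O := S.cumn r O ∪ TT A.n (S.Q ∪ J) (S.V r O)
  k := k
  b := b

/-- The state after the linear side has been replaced by `T` (with more queries). -/
noncomputable def HSt.updX (S : HSt L StX StY RX RY) (A : Par) (T : Side (ι → K) K StX RX) :
    HSt L StX StY RX RY where
  SX := T
  SY := S.SY
  kn := S.kn
  cum r O := S.cum r O ∪ TT (A.sk S.k) S.Q (spn (T.q r O))
  cumn r O := S.cumn r O ∪ TT A.n S.Q (spn (T.q r O))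
  k := S.k
  b := S.b

/-- The state after the other side has been replaced by `T` (with more queries). -/
def HSt.updY (S : HSt L StX StY RX RY) (T : Side (ι → K) K StY RY) : HSt L StX StY RX RY where
  SX := S.SX
  SY := T
  kn := S.kn
  cum := S.cum
  cumn := S.cumn
  k := S.k
  b := S.b

section fin2

variable [Fintype L] [Fintype RX] [Fintype RY]

/-- The next points to be asked by the eavesdropper, and the new counters. -/
noncomputable def HSt.next? (S : HSt L StX StY RX RY) (A : Par) : Option (Finset ι × ℕ × ℕ) :=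
  if S.k < A.Kc ∧ S.b < A.Bm then
    if h1 : ∃ x ∈ S.XX A.n, (S.RW A.n).card <
        A.h * ((S.RW A.n).filter fun w => ¬ S.WG A.n x (wy w)).card then
      some (TT A.n S.Q (S.V h1.choose.1 h1.choose.2), S.k + 1, S.b)
    else if h2 : ∃ y ∈ S.YY A.n, (S.RW A.n).card <
        A.h * ((S.RW A.n).filter fun w => ¬ S.WG A.n (wx w) y).card then
      some (S.PB h2.choose.1 h2.choose.2 \ S.Q, S.k + 1, S.b)
    else if (S.hv A).Nonempty then
      some (S.hv A, S.k, S.b + (S.hv A).card)
    else none
  else none

/-- The closing loop. -/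
noncomputable def HSt.close (A : Par) : ℕ → HSt L StX StY RX RY →
    Comp (ι → K) K (HSt L StX StY RX RY)
  | 0, S => .ret S
  | j + 1, S =>
    match S.next? A with
    | none => .ret S
    | some (J, k, b) => (Comp.askAll (pts J)).bind fun a => HSt.close A j (S.ask A J k b a)

/-- The eavesdropper has nothing more to ask. -/
def HSt.Done (S : HSt L StX StY RX RY) (A : Par) : Prop := S.next? A = none

end fin2

/-- The side with the first `j` queries of the reaction to the message `m`. -/
def Side.part {M X R : Type} (P : Party (ι → K) K M X) (S : Side (ι → K) K P.St R) (m : M)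
    (j : ℕ) : Side (ι → K) K P.St R where
  s := S.s
  q r O := S.q r O ++ ((P.step (S.s r O) m).asked O).take j
  P := S.P

/-- The joint execution, where `t` tells whose turn it is (`true`: the first party).  In each step
the party gets the last message and sends a message. -/
def hexec {K Q M X Y : Type} (A : Party Q K M X) (B : Party Q K M Y) (O : Q → K) :
    List Bool → A.St → B.St → M → List M × A.St × B.St
  | [], a, b, _ => ([], a, b)
  | true :: t, a, b, m =>
    let p := (A.step a m).run O
    let r := hexec A B O t p.1 b p.2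
    (p.2 :: r.1, r.2.1, r.2.2)
  | false :: t, a, b, m =>
    let p := (B.step b m).run O
    let r := hexec A B O t a p.1 p.2
    (p.2 :: r.1, r.2.1, r.2.2)

/-- The eavesdropper, for the sequence of turns `t` and the messages `l`. -/
noncomputable def hev {M X Y σ : Type} [Fintype L] [Fintype RX] [Fintype RY] (A : Par)
    (PX : Party (ι → K) K M X) (PY : Party (ι → K) K M Y)
    (gs : HSt L PX.St PY.St RX RY → σ) :
    List Bool → List M → HSt L PX.St PY.St RX RY → M → Comp (ι → K) K σ
  | true :: t, a :: l, S, m =>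
    ((S.updX A (S.SX.next PX m a)).close A (A.Kc + A.Bm)).bind fun S' => hev A PX PY gs t l S' a
  | false :: t, a :: l, S, m =>
    ((S.updY (S.SY.next PY m a)).close A (A.Kc + A.Bm)).bind fun S' => hev A PX PY gs t l S' a
  | [], _, S, _ => .ret (gs S)
  | _ :: _, [], S, _ => .ret (gs S)

end Pool.Agent.LinOT
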