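import Pool.Agent.Lib.MP_ae38e0_lc.Half.Basic

set_option autoImplicit false

/-!
# Half-algebraic attack: weakly good pairs do not touch (ROW ha-Dual)
-/

namespace Pool.Agent.LinOT

open Classical

variable {K : Type} [Field K] {ι : Type} [Fintype ι]

/-- A linear form on `ι → K` is the pairing with the table of its values at the points. -/
theorem ev_of_functional (φ : (ι → K) →ₗ[K] K) (c : ι → K) :
    ev (fun p => φ (pt p)) c = φ c := by
  unfold ev pt
  conv_rhs => rw [← Finset.univ_sum_single c]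
  rw [map_sum]
  refine Finset.sum_congr rfl fun p _ => ?_
  have : (Pi.single p (c p) : ι → K) = c p • Pi.single p 1 := by
    rw [← Pi.single_smul]; simp
  rw [this, map_smul, smul_eq_mul]

/-- The pairing with a table is a linear form. -/
def Dual_evl (g : ι → K) : (ι → K) →ₗ[K] K where
  toFun := ev g
  map_add' a b := by simp [ev, add_mul, Finset.sum_add_distrib]
  map_smul' c a := by simp [ev, mul_assoc, Finset.mul_sum]

theorem Dual_ev_pt (g : ι → K) (p : ι) : ev g (pt p) = g p := by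
  unfold ev pt
  rw [Finset.sum_eq_single p]
  · simp
  · intro q _ hq
    rw [Pi.single_eq_of_ne hq, zero_mul]
  · intro h
    exact absurd (Finset.mem_univ p) h

/-- Two linear forms which agree on the intersection have a common extension. -/
theorem Dual_form (U1 U2 : Submodule K (ι → K)) (ψ : (ι → K) →ₗ[K] K)
    (h : ∀ u, u ∈ U1 → u ∈ U2 → ψ u = 0) :
    ∃ φ : (ι → K) →ₗ[K] K, (∀ u ∈ U1, φ u = 0) ∧ ∀ u ∈ U2, φ u = ψ u := by
  set q : U2 →ₗ[K] ((ι → K) ⧸ U1) := U1.mkQ ∘ₗ U2.subtype with hq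
  set ψ2 : U2 →ₗ[K] K := ψ ∘ₗ U2.subtype with hψ2
  have hle : LinearMap.ker q ≤ LinearMap.ker ψ2 := by
    intro u hu
    rw [LinearMap.mem_ker, hq, LinearMap.comp_apply, Submodule.mkQ_apply,
      Submodule.Quotient.mk_eq_zero] at hu
    rw [LinearMap.mem_ker, hψ2, LinearMap.comp_apply]
    exact h _ hu u.2
  have hinj : LinearMap.ker ((LinearMap.ker q).liftQ q le_rfl) = ⊥ :=
    Submodule.ker_liftQ_eq_bot _ _ _ le_rfl
  obtain ⟨g, hg⟩ := LinearMap.exists_leftInverse_of_injective _ hinj
  refine ⟨((LinearMap.ker q).liftQ ψ2 hle) ∘ₗ g ∘ₗ U1.mkQ, ?_, ?_⟩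
  · intro u hu
    have : U1.mkQ u = 0 := by
      rw [Submodule.mkQ_apply, Submodule.Quotient.mk_eq_zero]
      exact hu
    rw [LinearMap.comp_apply, LinearMap.comp_apply, this, map_zero, map_zero]
  · intro u hu
    have h1 : U1.mkQ u = (LinearMap.ker q).liftQ q le_rfl ((LinearMap.ker q).mkQ ⟨u, hu⟩) := by
      rw [Submodule.mkQ_apply (LinearMap.ker q), Submodule.liftQ_apply]
      rfl
    have h2 := LinearMap.congr_fun hg ((LinearMap.ker q).mkQ ⟨u, hu⟩)
    rw [LinearMap.comp_apply, LinearMap.id_apply] at h2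
    rw [LinearMap.comp_apply, LinearMap.comp_apply, h1, h2, Submodule.mkQ_apply,
      Submodule.liftQ_apply]
    rfl

/-- A vector of the span of the queries for the values at the points of `Q` vanishes outside
of `Q`. -/
theorem Dual_spn_out {Q : Finset ι} {W : List (ι → K)} (hW : ∀ x ∈ W, ∃ p ∈ Q, x = pt p)
    {a : ι → K} (ha : a ∈ spn W) {p : ι} (hp : p ∉ Q) : a p = 0 := by
  unfold spn at ha
  induction ha using Submodule.span_induction with
  | mem x hx =>
    obtain ⟨q, hq, rfl⟩ := hW x hx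
    unfold pt
    rw [Pi.single_eq_of_ne]
    rintro rfl
    exact hp hq
  | zero => rfl
  | add x y _ _ hx hy => rw [Pi.add_apply, hx, hy, add_zero]
  | smul c x _ hx => rw [Pi.smul_apply, hx, smul_zero]

/-- A vector of the span vanishes at the points which are not involved. -/
theorem Dual_lp_out {l : List (ι → K)} {a : ι → K} (ha : a ∈ spn l) {p : ι} (hp : p ∉ lp l) :
    a p = 0 := by
  unfold spn at ha
  induction ha using Submodule.span_induction with
  | mem x hx =>
    by_contra h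
    exact hp (mem_lp.mpr ⟨x, hx, h⟩)
  | zero => rfl
  | add x y _ _ hx hy => rw [Pi.add_apply, hx, hy, add_zero]
  | smul c x _ hx => rw [Pi.smul_apply, hx, smul_zero]

/-- PROOF. Let `D ∈ killer L W`, `D = ev g`; `g` vanishes on `Q := {p | pt p ∈ W}` (`ev g (pt p) = g p`).
Let `U1 = spn W ⊔ spn l` (`spn W` = vectors supported on `Q`, since `W` consists of `pt`'s) and
`U2 = spn l'`.  CLAIM: if `u1 ∈ U1`, `u2 ∈ U2`, `u1 = u2` then `ev g u2 = 0`.  Indeed `u1 = a + v` with
`a ∈ spn W` (support in `Q`), `v ∈ spn l`; `u2` is supported on `lp l'`, so `sp v \ Q ⊆ lp l'` has at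
most `n` points; by disjointness `v` has no point outside `Q` (a point `p ∉ Q` of `v` is in
`TT n Q (spn l)` and in `lp l'`); so `u2 = a + v` is supported on `Q`, where `g = 0`.
So there is a linear form `φ` on `ι → K` with `φ = 0` on `U1` and `φ = ev g` on `U2`: e.g. the form
`u2 ↦ ev g u2` on `U2` vanishes on `U2 ⊓ U1`, so it factors through `(ι → K) ⧸ U1`: use
`LinearMap.exists_extend` on the submodule `U2.map U1.mkQ` or `LinearPMap`, or work with
`Submodule.exists_isCompl`.  (Alternative: `exists_leftInverse`-style argument as in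
`exists_shift` of `OneWay.lean`.)  Put `D' := ev (fun p => φ (pt p))`, which is `φ` by
`ev_of_functional`; it is in `L`, kills `W ++ l`, and equals `D` on `l'`. -/
theorem not_tch (L : Submodule K ((ι → K) → K)) (hL : ∀ O, O ∈ L ↔ ∃ f : ι → K, O = ev f) (n : ℕ)
    (W l l' : List (ι → K)) (hW : ∀ x ∈ W, ∃ p : ι, x = pt p) (hn : (lp l').card ≤ n)
    (hd : Disjoint (TT n (Finset.univ.filter fun p => (pt p : ι → K) ∈ W) (spn l)) (lp l')) :
    ¬ Tch L W l l' := by
  unfold Tch
  rw [not_not]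
  intro D hD
  set Q : Finset ι := Finset.univ.filter fun p => (pt p : ι → K) ∈ W with hQ
  have hDL : D ∈ L := hD.1
  have hDW : ∀ q ∈ W, D q = 0 := hD.2
  obtain ⟨g, rfl⟩ := (hL D).mp hDL
  have hW' : ∀ x ∈ W, ∃ p ∈ Q, x = pt p := by
    intro x hx
    obtain ⟨p, rfl⟩ := hW x hx
    exact ⟨p, by rw [hQ, Finset.mem_filter]; exact ⟨Finset.mem_univ _, hx⟩, rfl⟩
  have hgQ : ∀ p ∈ Q, g p = 0 := by
    intro p hp
    rw [hQ, Finset.mem_filter] at hp
    rw [← Dual_ev_pt g p]
    exact hDW _ hp.2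
  obtain ⟨φ, h1, h2⟩ := Dual_form (spn W ⊔ spn l) (spn l') (Dual_evl g) (by
    intro u hu1 hu2
    obtain ⟨a, ha, v, hv, rfl⟩ := Submodule.mem_sup.mp hu1
    have hout : ∀ p, p ∉ Q → (a + v) p = v p := by
      intro p hp
      rw [Pi.add_apply, Dual_spn_out hW' ha hp, zero_add]
    have hsub : sp v \ Q ⊆ lp l' := by
      intro p hp
      rw [Finset.mem_sdiff, mem_sp] at hp
      by_contra hpl
      apply hp.1
      rw [← hout p hp.2]
      exact Dual_lp_out hu2 hpl
    have hcard : (sp v \ Q).card ≤ n := (Finset.card_le_card hsub).trans hn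
    have hv0 : ∀ p, p ∉ Q → v p = 0 := by
      intro p hp
      by_contra hvp
      have hpl : p ∈ lp l' := hsub (by rw [Finset.mem_sdiff, mem_sp]; exact ⟨hvp, hp⟩)
      have hpt : p ∈ TT n Q (spn l) := mem_TT.mpr ⟨hp, v, hv, hvp, hcard⟩
      exact Finset.disjoint_left.mp hd hpt hpl
    show ev g (a + v) = 0
    unfold ev
    refine Finset.sum_eq_zero fun p _ => ?_
    by_cases hp : p ∈ Q
    · rw [hgQ p hp, mul_zero]
    · rw [hout p hp, hv0 p hp, zero_mul])
  have hφ : ∀ c, ev (fun p => φ (pt p)) c = φ c := ev_of_functional φ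
  refine ⟨ev (fun p => φ (pt p)), ⟨(hL _).mpr ⟨_, rfl⟩, ?_⟩, ?_⟩
  · intro q hq
    rw [hφ]
    apply h1
    rcases List.mem_append.mp hq with hq | hq
    · exact Submodule.mem_sup_left (Submodule.subset_span hq)
    · exact Submodule.mem_sup_right (Submodule.subset_span hq)
  · intro x hx
    rw [hφ]
    exact h2 x (Submodule.subset_span hx)

end Pool.Agent.LinOT
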