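import Pool.Agent.Lib.MP_ae38e0_lc.Half.Main

set_option autoImplicit false

/-!
# Half-algebraic attack: executions as sequences of turns, the first state
-/

namespace Pool.Agent.LinOT

open Classical

/-- The turns of an execution with `N` rounds, if the first party is `A`. -/
def turnsX : ℕ → List Bool
  | 0 => []
  | N + 1 => true :: false :: turnsX N

/-- The turns of an execution with `N` rounds, if the first party is `B`. -/
def turnsY : ℕ → List Bool
  | 0 => []
  | N + 1 => false :: true :: turnsY N

/-- The messages of a transcript. -/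
def flat {M : Type} : List (M × M) → List M
  | [] => []
  | (a, b) :: l => a :: b :: flat l

theorem turnsX_count (N : ℕ) : (turnsX N).count true = N ∧ (turnsX N).count false = N := by
  induction N with
  | zero => simp [turnsX]
  | succ N ih => simp [turnsX, ih.1, ih.2]

theorem turnsY_count (N : ℕ) : (turnsY N).count true = N ∧ (turnsY N).count false = N := by
  induction N with
  | zero => simp [turnsY]
  | succ N ih => simp [turnsY, ih.1, ih.2]

theorem hexec_X {K Q M X Y : Type} (A : Party Q K M X) (B : Party Q K M Y) (O : Q → K) :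
    ∀ (N : ℕ) (a : A.St) (b : B.St) (m : M), hexec A B O (turnsX N) a b m =
      (flat (exec A B O N a b m).1, (exec A B O N a b m).2.1, (exec A B O N a b m).2.2) := by
  intro N
  induction N with
  | zero => intro a b m; rfl
  | succ N ih =>
    intro a b m
    simp only [turnsX, hexec, exec, flat, ih]

theorem hexec_Y {K Q M X Y : Type} (A : Party Q K M X) (B : Party Q K M Y) (O : Q → K) :
    ∀ (N : ℕ) (a : A.St) (b : B.St) (m : M), hexec B A O (turnsY N) b a m =
      (flat (exec A B O N a b m).1, (exec A B O N a b m).2.2, (exec A B O N a b m).2.1) := by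
  intro N
  induction N with
  | zero => intro a b m; rfl
  | succ N ih =>
    intro a b m
    simp only [turnsY, hexec, exec, flat, ih]

variable {K : Type} [Field K] {ι : Type} [Fintype ι] {L : Submodule K ((ι → K) → K)}
  {RX RY M X Y σ : Type}

/-- The first state. -/
def HSt.start {StX StY : Type} (iX : RX → StX) (iY : RY → StY) : HSt L StX StY RX RY where
  SX := Side.start iX
  SY := Side.start iY
  kn := []
  cum _ _ := ∅
  cumn _ _ := ∅
  k := 0
  b := 0

theorem start_valid {StX StY : Type} (A : Par) (iX : RX → StX) (iY : RY → StY) :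
    (HSt.start iX iY : HSt L StX StY RX RY).Valid A := by
  have hQ : (HSt.start iX iY : HSt L StX StY RX RY).Q = ∅ := kq_nil
  have hV : ∀ r (O : L), (HSt.start iX iY : HSt L StX StY RX RY).V r O = ⊥ := by
    intro r O
    simp [HSt.V, HSt.start, Side.start, spn]
  refine ⟨start_loc iX, start_loc iY, ?_, ?_, ?_, ?_, ?_, ?_, ?_, ?_⟩
  · intro r O; simp [HSt.start, Side.start]
  · intro r O; simp [HSt.PB, HSt.start, Side.start, lp]
  · intro x hx; simp [HSt.start] at hx
  · intro r O O' _; exact ⟨rfl, rfl⟩
  · intro r O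
    exact ⟨∅, by simp, by simp, by simp, by simp [HSt.start]⟩
  · intro r O
    exact ⟨∅, by simp, by simp, by simp, by simp [HSt.start]⟩
  · intro r O p hp
    rw [hV, mem_TT] at hp
    obtain ⟨-, c, hc, h2, -⟩ := hp
    rw [Submodule.mem_bot] at hc
    rw [hc] at h2
    simp at h2
  · intro r O p hp
    rw [hV, mem_TT] at hp
    obtain ⟨-, c, hc, h2, -⟩ := hp
    rw [Submodule.mem_bot] at hc
    rw [hc] at h2
    simp at h2

variable [Fintype L] [Fintype RX] [Fintype RY]

theorem start_R {StX StY : Type} (iX : RX → StX) (iY : RY → StY) :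
    (HSt.start iX iY : HSt L StX StY RX RY).R = Finset.univ := by
  ext w
  simp [HSt.R, mem_cs, real, HSt.start, Side.start, Cons]

theorem start_WG {StX StY : Type} (n : ℕ) (iX : RX → StX) (iY : RY → StY) (x : RX × L)
    (y : RY × L) : (HSt.start iX iY : HSt L StX StY RX RY).WG n x y := by
  have : (HSt.start iX iY : HSt L StX StY RX RY).PB y.1 y.2 = ∅ := by
    simp [HSt.PB, HSt.start, Side.start, lp]
  unfold HSt.WG
  rw [this]
  exact Finset.disjoint_empty_right _

theorem start_Done {StX StY : Type} (A : Par) (iX : RX → StX) (iY : RY → StY) :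
    (HSt.start iX iY : HSt L StX StY RX RY).Done A := by
  unfold HSt.Done HSt.next?
  split_ifs with h0 h1 h2 h3
  · exfalso
    obtain ⟨x, hx, h⟩ := h1
    simp [start_WG] at h
  · exfalso
    obtain ⟨x, hx, h⟩ := h2
    simp [start_WG] at h
  · exfalso
    obtain ⟨p, hp⟩ := h3
    simp only [HSt.hv, Finset.mem_filter] at hp
    apply hp.2.2
    have e1 : ∀ r (O : L), (HSt.start iX iY : HSt L StX StY RX RY).PB r O = ∅ := by
      intro r O
      simp [HSt.PB, HSt.start, Side.start, lp]
    have e2 : ∀ r (O : L), (HSt.start iX iY : HSt L StX StY RX RY).cum r O = ∅ := fun _ _ => rfl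
    unfold HSt.Light
    simp [e1, e2]
  · rfl
  · rfl

theorem start_pot {StX StY : Type} (A : Par) (hA : A.Ok) (iX : RX → StX) (iY : RY → StY)
    (w : RX × RY × L) : (HSt.start iX iY : HSt L StX StY RX RY).pot A w = 3 / A.h := by
  have e1 : ∀ r (O : L), (HSt.start iX iY : HSt L StX StY RX RY).PB r O = ∅ := by
    intro r O
    simp [HSt.PB, HSt.start, Side.start, lp]
  have e2 : ∀ r (O : L), (HSt.start iX iY : HSt L StX StY RX RY).cum r O = ∅ := fun _ _ => rfl
  have e3 : ∀ r (O : L), (HSt.start iX iY : HSt L StX StY RX RY).cumn r O = ∅ := fun _ _ => rfl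
  have hg : (HSt.start iX iY : HSt L StX StY RX RY).good w := by
    unfold HSt.good
    rw [e1]
    exact Finset.disjoint_empty_right _
  unfold HSt.pot
  rw [if_pos hg, e1, e2, e3]
  have hn : (0 : ℝ) < A.n := by exact_mod_cast hA.n1
  have hh : (0 : ℝ) < A.h := by exact_mod_cast (by have := hA.h4; omega : 0 < A.h)
  have hK : (A.Kc : ℝ) = (A.h : ℝ) ^ 2 * (A.n + (A.n : ℝ) ^ 2) := by exact_mod_cast hA.K1
  have hT : (A.Th : ℝ) = 4 * A.h * A.n * (A.sm + 1) := by exact_mod_cast hA.T1
  have hB : (A.Bm : ℝ) = A.h * A.Th * (A.n * (A.sm + 1)) := by exact_mod_cast hA.B1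
  have hs : (0 : ℝ) ≤ A.sm := Nat.cast_nonneg _
  have hs1 : (0 : ℝ) < (A.sm : ℝ) + 1 := by linarith
  have hTp : (0 : ℝ) < A.Th := by rw [hT]; positivity
  have k0 : (HSt.start iX iY : HSt L StX StY RX RY).k = 0 := rfl
  have b0 : (HSt.start iX iY : HSt L StX StY RX RY).b = 0 := rfl
  rw [k0, b0]
  simp only [Finset.card_empty, Finset.empty_inter, Nat.cast_zero, zero_div, add_zero, sub_zero]
  rw [min_eq_right (by norm_num)]
  rw [hK, hB, hT]
  field_simp
  ring

end Pool.Agent.LinOT
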