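import Mathlib

set_option autoImplicit false

/-!
# Half-algebraic attack: a lemma on bipartite graphs (ROW ha-GraphB)
-/

namespace Pool.Agent.LinOT

open Classical

/-- PROOF. If `A` is empty then `hc` says that there are no `w` as in the claim with `p ∈ G`
(`kc > 0`), fine: in general, for `p ∈ G`,
`Th * kc * #{w | E, p ∈ N, p ∈ P} ≤ Th * #{z ∈ A × B | E, p ∈ N z.1, p ∈ P z.2}
  ≤ Th * #{x ∈ A | p ∈ N x} * #{y ∈ B | p ∈ P y} ≤ 2 * #{x ∈ A | p ∈ N x} * #B
  ≤ 4 * #{z ∈ A × B | E z.1 z.2, p ∈ N z.1}` (by `hdeg`: `#B ≤ 2 #{y ∈ B | E x y}`)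
`≤ 4 * kc * #{w | E, p ∈ N (a w)}` (by `hc'`).  Cancel `kc` and sum over `p ∈ G`; finally
`∑ p ∈ G, #{w ∈ R | p ∈ N (a w)} = ∑ w ∈ R, (N (a w) ∩ G).card` (`Finset.sum_comm`). -/
theorem exit_count {α β Ω ι : Type} (A : Finset α) (B : Finset β) (R : Finset Ω) (a : Ω → α)
    (b : Ω → β) (E : α → β → Prop) (N : α → Finset ι) (P : β → Finset ι) (kc Th : ℕ)
    (hkc : 0 < kc) (G : Finset ι)
    (hdeg : ∀ x ∈ A, 2 * (B.filter fun y => ¬ E x y).card ≤ B.card)
    (hlight : ∀ p ∈ G, Th * (B.filter fun y => p ∈ P y).card ≤ 2 * B.card)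
    (hc : ∀ p ∈ G, kc * (R.filter fun w => E (a w) (b w) ∧ p ∈ N (a w) ∧ p ∈ P (b w)).card ≤
      ((A ×ˢ B).filter fun z => E z.1 z.2 ∧ p ∈ N z.1 ∧ p ∈ P z.2).card)
    (hc' : ∀ p ∈ G, ((A ×ˢ B).filter fun z => E z.1 z.2 ∧ p ∈ N z.1).card ≤
      kc * (R.filter fun w => E (a w) (b w) ∧ p ∈ N (a w)).card) :
    Th * (R.filter fun w => E (a w) (b w) ∧ ∃ p ∈ G, p ∈ N (a w) ∧ p ∈ P (b w)).card ≤
      4 * ∑ w ∈ R, (N (a w) ∩ G).card := by
  have h1 : (R.filter fun w => E (a w) (b w) ∧ ∃ p ∈ G, p ∈ N (a w) ∧ p ∈ P (b w)).card ≤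
      ∑ p ∈ G, (R.filter fun w => E (a w) (b w) ∧ p ∈ N (a w) ∧ p ∈ P (b w)).card := by
    refine (Finset.card_le_card ?_).trans Finset.card_biUnion_le
    intro w hw
    simp only [Finset.mem_filter, Finset.mem_biUnion] at hw ⊢
    obtain ⟨hwR, hE, p, hp, hpN, hpP⟩ := hw
    exact ⟨p, hp, hwR, hE, hpN, hpP⟩
  have h2 : ∀ p ∈ G, Th * (R.filter fun w => E (a w) (b w) ∧ p ∈ N (a w) ∧ p ∈ P (b w)).card ≤
      4 * (R.filter fun w => E (a w) (b w) ∧ p ∈ N (a w)).card := by
    intro p hp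
    have e1 : ((A ×ˢ B).filter fun z => E z.1 z.2 ∧ p ∈ N z.1 ∧ p ∈ P z.2).card ≤
        (A.filter fun x => p ∈ N x).card * (B.filter fun y => p ∈ P y).card := by
      rw [← Finset.card_product]
      apply Finset.card_le_card
      intro z hz
      simp only [Finset.mem_filter, Finset.mem_product] at hz ⊢
      exact ⟨⟨hz.1.1, hz.2.2.1⟩, hz.1.2, hz.2.2.2⟩
    have e2 : (A.filter fun x => p ∈ N x).card * B.card ≤
        2 * ((A ×ˢ B).filter fun z => E z.1 z.2 ∧ p ∈ N z.1).card := by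
      have hr : ((A ×ˢ B).filter fun z => E z.1 z.2 ∧ p ∈ N z.1).card =
          ∑ x ∈ A, (B.filter fun y => E x y ∧ p ∈ N x).card := by
        simp only [Finset.card_filter]
        rw [Finset.sum_product]
      rw [hr]
      calc (A.filter fun x => p ∈ N x).card * B.card = ∑ x ∈ A.filter (fun x => p ∈ N x), B.card := by
            rw [Finset.sum_const, smul_eq_mul]
        _ ≤ ∑ x ∈ A.filter (fun x => p ∈ N x), 2 * (B.filter fun y => E x y ∧ p ∈ N x).card := by
            refine Finset.sum_le_sum fun x hx => ?_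
            obtain ⟨hxA, hxN⟩ := Finset.mem_filter.mp hx
            have h3 := hdeg x hxA
            have h4 := Finset.card_filter_add_card_filter_not (s := B) (fun y => E x y)
            have h5 : (B.filter fun y => E x y ∧ p ∈ N x) = B.filter fun y => E x y := by
              apply Finset.filter_congr
              intro y _
              simp [hxN]
            rw [h5]
            omega
        _ ≤ ∑ x ∈ A, 2 * (B.filter fun y => E x y ∧ p ∈ N x).card :=
            Finset.sum_le_sum_of_subset (Finset.filter_subset _ _)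
        _ = _ := by rw [Finset.mul_sum]
    have e3 : kc * (Th * (R.filter fun w => E (a w) (b w) ∧ p ∈ N (a w) ∧ p ∈ P (b w)).card) ≤
        kc * (4 * (R.filter fun w => E (a w) (b w) ∧ p ∈ N (a w)).card) := by
      calc _ = Th * (kc * (R.filter fun w => E (a w) (b w) ∧ p ∈ N (a w) ∧ p ∈ P (b w)).card) := by
            ring
        _ ≤ Th * ((A.filter fun x => p ∈ N x).card * (B.filter fun y => p ∈ P y).card) :=
            Nat.mul_le_mul_left _ ((hc p hp).trans e1)
        _ = (A.filter fun x => p ∈ N x).card * (Th * (B.filter fun y => p ∈ P y).card) := by ring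
        _ ≤ (A.filter fun x => p ∈ N x).card * (2 * B.card) := Nat.mul_le_mul_left _ (hlight p hp)
        _ = 2 * ((A.filter fun x => p ∈ N x).card * B.card) := by ring
        _ ≤ 2 * (2 * ((A ×ˢ B).filter fun z => E z.1 z.2 ∧ p ∈ N z.1).card) :=
            Nat.mul_le_mul_left _ e2
        _ ≤ 2 * (2 * (kc * (R.filter fun w => E (a w) (b w) ∧ p ∈ N (a w)).card)) :=
            Nat.mul_le_mul_left _ (Nat.mul_le_mul_left _ (hc' p hp))
        _ = _ := by ring
    exact Nat.le_of_mul_le_mul_left e3 hkc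
  have h3 : ∑ p ∈ G, (R.filter fun w => p ∈ N (a w)).card = ∑ w ∈ R, (N (a w) ∩ G).card := by
    simp only [Finset.card_filter]
    rw [Finset.sum_comm]
    refine Finset.sum_congr rfl fun w _ => ?_
    rw [← Finset.card_filter]
    congr 1
    ext p
    simp only [Finset.mem_filter, Finset.mem_inter]
    tauto
  calc _ ≤ Th * ∑ p ∈ G, (R.filter fun w => E (a w) (b w) ∧ p ∈ N (a w) ∧ p ∈ P (b w)).card :=
        Nat.mul_le_mul_left _ h1
    _ = ∑ p ∈ G, Th * (R.filter fun w => E (a w) (b w) ∧ p ∈ N (a w) ∧ p ∈ P (b w)).card := by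
        rw [Finset.mul_sum]
    _ ≤ ∑ p ∈ G, 4 * (R.filter fun w => E (a w) (b w) ∧ p ∈ N (a w)).card := Finset.sum_le_sum h2
    _ ≤ ∑ p ∈ G, 4 * (R.filter fun w => p ∈ N (a w)).card := by
        refine Finset.sum_le_sum fun p _ => Nat.mul_le_mul_left _ (Finset.card_le_card ?_)
        intro w hw
        simp only [Finset.mem_filter] at hw ⊢
        exact ⟨hw.1, hw.2.2⟩
    _ = _ := by rw [← Finset.mul_sum, h3]

end Pool.Agent.LinOT
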