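import Pool.Agent.Lib.MP_ae38e0_lc.Half.FrameB
import Pool.Agent.Lib.MP_ae38e0_lc.Half.GraphB

set_option autoImplicit false

/-!
# Half-algebraic attack: the exits (ROW ha-ExitX)
-/

namespace Pool.Agent.LinOT

open Classical

variable {K : Type} [Field K] {ι : Type} [Fintype ι] {L : Submodule K ((ι → K) → K)} [Fintype L]
  {StX StY RX RY : Type} [Fintype RX] [Fintype RY]

/-- PROOF. `exit_count` with `A := U`, `B := U'`, `R := S.R`, `a := wx`, `b := wy`,
`E := S.WG A.n`, `P y := S.PB y.1 y.2`, `kc := kc L _` (`kc_pos`).  `hc`: by `pair_wg` the left side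
is the number of pairs in `supp × supp`, and these lie in `U × U'` (`hU`).  `hc'`: the pairs in
`U × U'` are in `supp × supp`, then `pair_wg` (with `GY = True`). -/
theorem exit_x (hL : ∀ O, O ∈ L ↔ ∃ f : ι → K, O = ev f) (A : Par)
    (S : HSt L StX StY RX RY) (hV : S.Valid A) (U : Finset (RX × L)) (U' : Finset (RY × L))
    (hUs : U ⊆ supp L S.SX S.kn) (hUs' : U' ⊆ supp L S.SY S.kn)
    (hU : ∀ x ∈ supp L S.SX S.kn, ∀ y ∈ supp L S.SY S.kn, S.WG A.n x y → x ∈ U ∧ y ∈ U')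
    (N : RX × L → Finset ι) (hN : ∀ p, LocP L S.SX fun x => p ∈ N x) (G : Finset ι)
    (hdeg : ∀ x ∈ U, 2 * (U'.filter fun y => ¬ S.WG A.n x y).card ≤ U'.card)
    (hlight : ∀ p ∈ G, A.Th * (U'.filter fun y => p ∈ S.PB y.1 y.2).card ≤ 2 * U'.card) :
    A.Th * (S.R.filter fun w => S.WG A.n (wx w) (wy w) ∧
      ∃ p ∈ G, p ∈ N (wx w) ∧ p ∈ S.PB (wy w).1 (wy w).2).card ≤
      4 * ∑ w ∈ S.R, (N (wx w) ∩ G).card := by
  have hPB : ∀ p, LocP L S.SY fun y => p ∈ S.PB y.1 y.2 := by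
    intro p r O O' h
    have h1 := (hV.locY r O O' h).2.1
    simp only [HSt.PB]
    rw [h1]
  refine exit_count U U' S.R wx wy (S.WG A.n) N (fun y => S.PB y.1 y.2)
    (kc L (S.kn.map Prod.fst)) A.Th (kc_pos L _) G hdeg hlight ?_ ?_
  · intro p hp
    have h := pair_wg hL A S hV (fun x => p ∈ N x) (fun y => p ∈ S.PB y.1 y.2) (hN p) (hPB p)
    have h' : kc L (S.kn.map Prod.fst) * (S.R.filter fun w => S.WG A.n (wx w) (wy w) ∧
        p ∈ N (wx w) ∧ p ∈ S.PB (wy w).1 (wy w).2).card =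
        ((supp L S.SX S.kn ×ˢ supp L S.SY S.kn).filter fun z =>
          S.WG A.n z.1 z.2 ∧ p ∈ N z.1 ∧ p ∈ S.PB z.2.1 z.2.2).card := by
      convert h.symm
    rw [h']
    apply Finset.card_le_card
    intro z hz
    rw [Finset.mem_filter, Finset.mem_product] at hz ⊢
    obtain ⟨⟨h1, h2⟩, h3⟩ := hz
    exact ⟨hU _ h1 _ h2 h3.1, h3⟩
  · intro p hp
    have h := pair_wg hL A S hV (fun x => p ∈ N x) (fun _ => True) (hN p)
      (fun _ _ _ _ => Iff.rfl)
    have h' : kc L (S.kn.map Prod.fst) * (S.R.filter fun w => S.WG A.n (wx w) (wy w) ∧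
        p ∈ N (wx w)).card =
        ((supp L S.SX S.kn ×ˢ supp L S.SY S.kn).filter fun z =>
          S.WG A.n z.1 z.2 ∧ p ∈ N z.1).card := by
      simp only [and_true] at h
      convert h.symm
    rw [h']
    apply Finset.card_le_card
    intro z hz
    rw [Finset.mem_filter, Finset.mem_product] at hz ⊢
    obtain ⟨⟨h1, h2⟩, h3, h4⟩ := hz
    exact ⟨⟨hUs h1, hUs' h2⟩, h3, h4⟩

end Pool.Agent.LinOT
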