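import Pool.Agent.Lib.MP_ae38e0_lc.Half.FrameB
import Pool.Agent.Lib.MP_ae38e0_lc.Half.GraphB

set_option autoImplicit false

/-!
# Half-algebraic attack: the exits, other side (ROW ha-ExitY)
-/

namespace Pool.Agent.LinOT

open Classical

variable {K : Type} [Field K] {ι : Type} [Fintype ι] {L : Submodule K ((ι → K) → K)} [Fintype L]
  {StX StY RX RY : Type} [Fintype RX] [Fintype RY]

/-- PROOF. As `exit_x`, with the roles of the two sides exchanged (`exit_count` with `A := U'`,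
`B := U`, `E y x := WG x y`, `P x := S.cum x.1 x.2`; locality of `cum`: `hV.cloc`). -/
theorem exit_y (hL : ∀ O, O ∈ L ↔ ∃ f : ι → K, O = ev f) (A : Par)
    (S : HSt L StX StY RX RY) (hV : S.Valid A) (U : Finset (RX × L)) (U' : Finset (RY × L))
    (hUs : U ⊆ supp L S.SX S.kn) (hUs' : U' ⊆ supp L S.SY S.kn)
    (hU : ∀ x ∈ supp L S.SX S.kn, ∀ y ∈ supp L S.SY S.kn, S.WG A.n x y → x ∈ U ∧ y ∈ U')
    (N : RY × L → Finset ι) (hN : ∀ p, LocP L S.SY fun y => p ∈ N y) (G : Finset ι)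
    (hdeg : ∀ y ∈ U', 2 * (U.filter fun x => ¬ S.WG A.n x y).card ≤ U.card)
    (hlight : ∀ p ∈ G, A.Th * (U.filter fun x => p ∈ S.cum x.1 x.2).card ≤ 2 * U.card) :
    A.Th * (S.R.filter fun w => S.WG A.n (wx w) (wy w) ∧
      ∃ p ∈ G, p ∈ N (wy w) ∧ p ∈ S.cum (wx w).1 (wx w).2).card ≤
      4 * ∑ w ∈ S.R, (N (wy w) ∩ G).card := by
  have hcl : ∀ p, LocP L S.SX fun x => p ∈ S.cum x.1 x.2 := by
    intro p r O O' h
    show p ∈ S.cum r O ↔ p ∈ S.cum r O'
    rw [(hV.cloc r O O' h).1]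
  have hpt : LocP L S.SX fun _ => True := fun _ _ _ _ => Iff.rfl
  refine exit_count U' U S.R wy wx (fun y x => S.WG A.n x y) N (fun x => S.cum x.1 x.2)
    (kc L (S.kn.map Prod.fst)) A.Th (kc_pos L _) G hdeg hlight ?_ ?_
  · intro p hp
    have h := pair_wg hL A S hV (fun x => p ∈ S.cum x.1 x.2) (fun y => p ∈ N y) (hcl p) (hN p)
    have e1 : (S.R.filter fun w => S.WG A.n (wx w) (wy w) ∧ p ∈ N (wy w) ∧
        p ∈ S.cum (wx w).1 (wx w).2) = (S.R.filter fun w => S.WG A.n (wx w) (wy w) ∧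
        p ∈ S.cum (wx w).1 (wx w).2 ∧ p ∈ N (wy w)) := by
      refine Finset.filter_congr fun w _ => ?_
      tauto
    rw [e1]
    refine le_trans (le_of_eq ?_) (?_ : ((supp L S.SX S.kn ×ˢ supp L S.SY S.kn).filter fun z =>
      S.WG A.n z.1 z.2 ∧ p ∈ S.cum z.1.1 z.1.2 ∧ p ∈ N z.2).card ≤ _)
    · convert h.symm
    refine Finset.card_le_card_of_injOn Prod.swap ?_ (Prod.swap_injective.injOn)
    intro z hz
    rw [Finset.mem_coe, Finset.mem_filter, Finset.mem_product] at hz ⊢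
    obtain ⟨⟨h1, h2⟩, h3, h4, h5⟩ := hz
    have h6 := hU z.1 h1 z.2 h2 h3
    exact ⟨⟨h6.2, h6.1⟩, h3, h5, h4⟩
  · intro p hp
    have h := pair_wg hL A S hV (fun _ => True) (fun y => p ∈ N y) hpt (hN p)
    have e1 : (S.R.filter fun w => S.WG A.n (wx w) (wy w) ∧ p ∈ N (wy w)) =
        (S.R.filter fun w => S.WG A.n (wx w) (wy w) ∧ True ∧ p ∈ N (wy w)) := by
      refine Finset.filter_congr fun w _ => ?_
      tauto
    rw [e1]
    refine le_trans (?_ : _ ≤ ((supp L S.SX S.kn ×ˢ supp L S.SY S.kn).filter fun z =>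
      S.WG A.n z.1 z.2 ∧ True ∧ p ∈ N z.2).card) (le_of_eq ?_)
    swap
    · convert h
    refine Finset.card_le_card_of_injOn Prod.swap ?_ (Prod.swap_injective.injOn)
    intro z hz
    rw [Finset.mem_coe, Finset.mem_filter, Finset.mem_product] at hz ⊢
    obtain ⟨⟨h1, h2⟩, h3, h4⟩ := hz
    exact ⟨⟨hUs h2, hUs' h1⟩, h3, trivial, h4⟩

end Pool.Agent.LinOT
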