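import Pool.Agent.Lib.MP_ae38e0_lc.Half.Basic

set_option autoImplicit false

/-!
# Half-algebraic attack: counting pairs and real executions (ROW ha-Pair)
-/

namespace Pool.Agent.LinOT

open Classical

variable {K : Type} [Field K] {Q St St' R R' : Type} (L : Submodule K (Q → K))
  [Fintype L] [Fintype R] [Fintype R']

/-- PROOF. A bijection (or two injections with `Nat.card_le_card_of_injective`, as in the proof of
`pair_card` in `Sides.lean`, whose code can be copied for one direction).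
Choose `φ S T D` with `D' := φ S T D ∈ killer (W ++ S)`, equal to `D` on `T`, whenever
`¬ Tch L W S T` and `D ∈ killer W` (`choose`, as in `pair_card`).
PAIRS → REAL × killer: `((r,O),(s,U)) ↦ ((r, s, O + φ (X.q r O) (Y.q s U) (U - O)), U - O)`.
REAL × killer → PAIRS: `((r,s,O), D) ↦ ((r, O - φ (X.q r O) (Y.q s O) D), (s, O - φ .. D + D))`:
on `X.q r O` the first oracle agrees with `O` (φ kills it), on `Y.q s O` the second one agrees with
`O` (`D - φ D = 0` there), so by `Loc` the views, hence the lists `X.q`, `Y.q` and the predicate `G`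
(by `hG`) are the same; consistency with `kn`: `φ D` and `D` vanish on `W`.
Both maps are injective: from the image one recovers `D`, then `φ`, then the oracles. -/
theorem pair_eq (X : Side Q K St R) (Y : Side Q K St' R') (hX : X.Loc) (hY : Y.Loc)
    (kn : List (Q × K)) (G : R × L → R' × L → Prop)
    (hG : ∀ (r : R) (s : R') (O O' U U' : L), (∀ c ∈ X.q r O, (O : Q → K) c = (O' : Q → K) c) →
      (∀ c ∈ Y.q s U, (U : Q → K) c = (U' : Q → K) c) → (G (r, O) (s, U) ↔ G (r, O') (s, U')))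
    (hT : ∀ (r : R) (s : R') (O U : L), G (r, O) (s, U) →
      ¬ Tch L (kn.map Prod.fst) (X.q r O) (Y.q s U)) :
    ((supp L X kn ×ˢ supp L Y kn).filter fun z => G z.1 z.2).card =
      kc L (kn.map Prod.fst) * ((cs L orc (real L X Y) kn).filter fun w : R × R' × L =>
        G (w.1, w.2.2) (w.2.1, w.2.2)).card := by
  set W := kn.map Prod.fst with hW
  set U := (supp L X kn ×ˢ supp L Y kn).filter fun z => G z.1 z.2 with hU
  set V := (cs L orc (real L X Y) kn).filter fun w : R × R' × L =>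
        G (w.1, w.2.2) (w.2.1, w.2.2) with hV
  have hφ : ∀ (S T : List Q) (D : Q → K), ∃ D' : Q → K, ¬ Tch L W S T → D ∈ killer L W →
      D' ∈ killer L (W ++ S) ∧ ∀ x ∈ T, D' x = D x := by
    intro S T D
    by_cases h : ¬ Tch L W S T ∧ D ∈ killer L W
    · obtain ⟨h1, h2⟩ := h
      unfold Tch at h1
      push Not at h1
      obtain ⟨D', hD', hT'⟩ := h1 D h2
      exact ⟨D', fun _ _ => ⟨hD', hT'⟩⟩
    · exact ⟨0, fun h1 h2 => absurd ⟨h1, h2⟩ h⟩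
  choose φ hφ using hφ
  have hmem : ∀ z ∈ U, (X.P z.1.1 z.1.2 ∧ Cons kn (z.1.2 : Q → K)) ∧
      (Y.P z.2.1 z.2.2 ∧ Cons kn (z.2.2 : Q → K)) ∧
      ¬ Tch L W (X.q z.1.1 z.1.2) (Y.q z.2.1 z.2.2) ∧
      G z.1 z.2 := by
    intro z hz
    have h1 := Finset.mem_filter.mp hz
    have h2 := Finset.mem_product.mp h1.1
    exact ⟨(mem_supp L).mp h2.1, (mem_supp L).mp h2.2, hT z.1.1 z.2.1 z.1.2 z.2.2 h1.2, h1.2⟩
  have hD : ∀ z ∈ U, (z.2.2 : Q → K) - (z.1.2 : Q → K) ∈ killer L W := by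
    intro z hz
    obtain ⟨h1, h2, -⟩ := hmem z hz
    refine ⟨L.sub_mem z.2.2.2 z.1.2.2, ?_⟩
    intro x hx
    obtain ⟨w, hw, rfl⟩ := List.mem_map.mp hx
    simp [h1.2 w hw, h2.2 w hw]
  have hval : ∀ z ∈ U, ∀ D, D = (z.2.2 : Q → K) - (z.1.2 : Q → K) → ∀ O,
      O = (z.1.2 : Q → K) + φ (X.q z.1.1 z.1.2) (Y.q z.2.1 z.2.2) D →
      O ∈ L ∧ (∀ x ∈ X.q z.1.1 z.1.2, (z.1.2 : Q → K) x = O x) ∧
      (∀ x ∈ Y.q z.2.1 z.2.2, (z.2.2 : Q → K) x = O x) ∧ Cons kn O := by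
    intro z hz D hDe O hOe
    obtain ⟨h1, h2, h3, -⟩ := hmem z hz
    have hDk : D ∈ killer L W := hDe ▸ hD z hz
    have h := hφ (X.q z.1.1 z.1.2) (Y.q z.2.1 z.2.2) D h3 hDk
    refine ⟨?_, ?_, ?_, ?_⟩
    · rw [hOe]; exact L.add_mem z.1.2.2 h.1.1
    · intro x hx
      rw [hOe]
      simp [h.1.2 x (List.mem_append_right _ hx)]
    · intro x hx
      rw [hOe, Pi.add_apply, h.2 x hx, hDe]
      simp
    · intro w hw
      have hx : w.1 ∈ W := List.mem_map.mpr ⟨w, hw, rfl⟩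
      rw [hOe, Pi.add_apply, h.1.2 w.1 (List.mem_append_left _ hx), h1.2 w hw, add_zero]
  let f : U → killer L W × V := fun z =>
    (⟨(z.1.2.2 : Q → K) - (z.1.1.2 : Q → K), hD z.1 z.2⟩,
     ⟨(z.1.1.1, z.1.2.1, ⟨(z.1.1.2 : Q → K) + φ (X.q z.1.1.1 z.1.1.2) (Y.q z.1.2.1 z.1.2.2)
        ((z.1.2.2 : Q → K) - (z.1.1.2 : Q → K)), (hval z.1 z.2 _ rfl _ rfl).1⟩), by
      have h := hval z.1 z.2 _ rfl _ rfl
      obtain ⟨h1, h2, h3, h4⟩ := hmem z.1 z.2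
      have a := hX _ _ _ h.2.1
      have b := hY _ _ _ h.2.2.1
      rw [hV, Finset.mem_filter, mem_cs]
      refine ⟨⟨⟨a.2.2.mp h1.1, b.2.2.mp h2.1⟩, h.2.2.2⟩, ?_⟩
      exact (hG z.1.1.1 z.1.2.1 z.1.1.2 ⟨_, h.1⟩ z.1.2.2 ⟨_, h.1⟩ h.2.1 h.2.2.1).mp h4⟩)
  have hf : Function.Injective f := by
    rintro ⟨⟨⟨r, O⟩, ⟨s, P⟩⟩, hz⟩ ⟨⟨⟨r', O'⟩, ⟨s', P'⟩⟩, hz'⟩ he
    simp only [f, Prod.mk.injEq, Subtype.mk.injEq] at he
    obtain ⟨hDD, hr, hs, hO⟩ := he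
    subst hr
    subst hs
    have h1 := hval _ hz _ rfl _ rfl
    have h2 := hval _ hz' _ rfl _ rfl
    simp only at h1 h2
    have qx : X.q r O = X.q r O' := by
      rw [(hX r _ _ h1.2.1).2.1, (hX r _ _ h2.2.1).2.1, hO]
    have qy : Y.q s P = Y.q s P' := by
      rw [(hY s _ _ h1.2.2.1).2.1, (hY s _ _ h2.2.2.1).2.1, hO]
    rw [qx, qy, hDD] at hO
    have hOO : (O : Q → K) = (O' : Q → K) := add_right_cancel hO
    have hOO' : O = O' := Subtype.ext hOO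
    subst hOO'
    have hPP : (P : Q → K) = (P' : Q → K) := sub_left_injective hDD
    have : P = P' := Subtype.ext hPP
    subst this
    rfl
  -- the other direction
  have hmem' : ∀ w ∈ V, X.P w.1 w.2.2 ∧ Y.P w.2.1 w.2.2 ∧ Cons kn (w.2.2 : Q → K) ∧
      ¬ Tch L W (X.q w.1 w.2.2) (Y.q w.2.1 w.2.2) ∧ G (w.1, w.2.2) (w.2.1, w.2.2) := by
    intro w hw
    rw [hV, Finset.mem_filter, mem_cs] at hw
    obtain ⟨⟨⟨h1, h2⟩, h3⟩, h4⟩ := hw
    exact ⟨h1, h2, h3, hT _ _ _ _ h4, h4⟩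
  have hval' : ∀ w ∈ V, ∀ D ∈ killer L W,
      ∀ F, F = φ (X.q w.1 w.2.2) (Y.q w.2.1 w.2.2) D →
      ((w.2.2 : Q → K) - F ∈ L) ∧ ((w.2.2 : Q → K) - F + D ∈ L) ∧
      (∀ x ∈ X.q w.1 w.2.2, (w.2.2 : Q → K) x = ((w.2.2 : Q → K) - F) x) ∧
      (∀ x ∈ Y.q w.2.1 w.2.2, (w.2.2 : Q → K) x = ((w.2.2 : Q → K) - F + D) x) ∧
      Cons kn ((w.2.2 : Q → K) - F) ∧ Cons kn ((w.2.2 : Q → K) - F + D) := by
    intro w hw D hDk F hF
    obtain ⟨h1, h2, h3, h4, h5⟩ := hmem' w hw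
    have h := hφ (X.q w.1 w.2.2) (Y.q w.2.1 w.2.2) D h4 hDk
    rw [← hF] at h
    have c1 : (w.2.2 : Q → K) - F ∈ L := L.sub_mem w.2.2.2 h.1.1
    refine ⟨c1, L.add_mem c1 hDk.1, ?_, ?_, ?_, ?_⟩
    · intro x hx
      simp [h.1.2 x (List.mem_append_right _ hx)]
    · intro x hx
      simp [h.2 x hx]
    · intro v hv
      have hx : v.1 ∈ W := List.mem_map.mpr ⟨v, hv, rfl⟩
      rw [Pi.sub_apply, h.1.2 v.1 (List.mem_append_left _ hx), h3 v hv, sub_zero]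
    · intro v hv
      have hx : v.1 ∈ W := List.mem_map.mpr ⟨v, hv, rfl⟩
      rw [Pi.add_apply, Pi.sub_apply, h.1.2 v.1 (List.mem_append_left _ hx), hDk.2 v.1 hx,
        h3 v hv, sub_zero, add_zero]
  let g : killer L W × V → U := fun z =>
    ⟨((z.2.1.1, ⟨(z.2.1.2.2 : Q → K) - φ (X.q z.2.1.1 z.2.1.2.2) (Y.q z.2.1.2.1 z.2.1.2.2) z.1,
        (hval' z.2.1 z.2.2 z.1.1 z.1.2 _ rfl).1⟩),
      (z.2.1.2.1, ⟨(z.2.1.2.2 : Q → K) -
          φ (X.q z.2.1.1 z.2.1.2.2) (Y.q z.2.1.2.1 z.2.1.2.2) z.1 + z.1,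
        (hval' z.2.1 z.2.2 z.1.1 z.1.2 _ rfl).2.1⟩)), by
      have h := hval' z.2.1 z.2.2 z.1.1 z.1.2 _ rfl
      obtain ⟨h1, h2, h3, h4, h5⟩ := hmem' z.2.1 z.2.2
      have a := hX _ _ _ h.2.2.1
      have b := hY _ _ _ h.2.2.2.1
      rw [hU, Finset.mem_filter, Finset.mem_product, mem_supp, mem_supp]
      refine ⟨⟨⟨a.2.2.mp h1, h.2.2.2.2.1⟩, ⟨b.2.2.mp h2, h.2.2.2.2.2⟩⟩, ?_⟩
      exact (hG z.2.1.1 z.2.1.2.1 z.2.1.2.2 ⟨_, h.1⟩ z.2.1.2.2 ⟨_, h.2.1⟩ h.2.2.1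
        h.2.2.2.1).mp h5⟩
  have hg : Function.Injective g := by
    rintro ⟨D, ⟨⟨r, s, O⟩, hz⟩⟩ ⟨D', ⟨⟨r', s', O'⟩, hz'⟩⟩ he
    simp only [g, Prod.mk.injEq, Subtype.mk.injEq] at he
    obtain ⟨⟨hr, hO⟩, hs, hP⟩ := he
    subst hr
    subst hs
    have h1 := hval' _ hz D.1 D.2 _ rfl
    have h2 := hval' _ hz' D'.1 D'.2 _ rfl
    simp only at h1 h2
    have qx : X.q r O = X.q r O' := by
      rw [(hX r _ _ h1.2.2.1).2.1, (hX r _ _ h2.2.2.1).2.1, hO]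
    have qy : Y.q s O = Y.q s O' := by
      rw [(hY s _ _ h1.2.2.2.1).2.1, (hY s _ _ h2.2.2.2.1).2.1, hP]
    have hDD : D = D' := by
      rw [hO] at hP
      exact Subtype.ext (add_left_cancel hP)
    subst hDD
    rw [qx, qy] at hO
    have hOO : (O : Q → K) = (O' : Q → K) := sub_left_injective hO
    have hOO' : O = O' := Subtype.ext hOO
    subst hOO'
    rfl
  have e1 := Nat.card_le_card_of_injective f hf
  have e2 := Nat.card_le_card_of_injective g hg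
  rw [Nat.card_prod, Nat.card_eq_fintype_card (α := U), Fintype.card_coe,
    Nat.card_eq_fintype_card (α := V), Fintype.card_coe] at e1 e2
  exact le_antisymm e1 e2

end Pool.Agent.LinOT
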