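import Pool.Agent.Lib.MP_ae38e0_lc.Half.Cum
import Pool.Agent.Lib.MP_ae38e0_lc.Half.Dual
import Pool.Agent.Lib.MP_ae38e0_lc.Half.Pair

set_option autoImplicit false

/-!
# Half-algebraic attack: unconfused states are close to products (ROW ha-FrameA)
-/

namespace Pool.Agent.LinOT

open Classical

variable {K : Type} [Field K] {ι : Type} [Fintype ι] {L : Submodule K ((ι → K) → K)} [Fintype L]
  {StX StY RX RY : Type} [Fintype RX] [Fintype RY]

/-- A predicate on the views of a side depends only on the answers to its queries. -/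
def LocP {St R : Type} (L : Submodule K ((ι → K) → K)) (T : Side (ι → K) K St R)
    (G : R × L → Prop) : Prop :=
  ∀ (r : R) (O O' : L), (∀ c ∈ T.q r O, (O : (ι → K) → K) c = (O' : (ι → K) → K) c) →
    (G (r, O) ↔ G (r, O'))

theorem FrameA_filter {α : Type} (p : α → Prop) (h1 h2 : DecidablePred p) (s : Finset α) :
    @Finset.filter α p h1 s = @Finset.filter α p h2 s := by
  rw [Subsingleton.elim h1 h2]

/-- PROOF. `not_tch` with `W = kn.map fst`, `l = SX.q`, `l' = SY.q`; `S.Q = kq kn` is by definition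
the filter in `not_tch`. -/
theorem wg_not_tch (hL : ∀ O, O ∈ L ↔ ∃ f : ι → K, O = ev f) (A : Par)
    (S : HSt L StX StY RX RY) (hV : S.Valid A) (x : RX × L) (y : RY × L) (h : S.WG A.n x y) :
    ¬ Tch L (S.kn.map Prod.fst) (S.SX.q x.1 x.2) (S.SY.q y.1 y.2) :=
  not_tch L hL A.n _ _ _ hV.knpt (hV.pbY _ _) h

/-- PROOF. `pair_eq` for `G x y := WG x y ∧ G' x y` (local: `S.V`, `S.PB` are functions of the lists
of queries, which are determined by the answers, `Loc`), with `wg_not_tch`. -/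
theorem pair_wg (hL : ∀ O, O ∈ L ↔ ∃ f : ι → K, O = ev f) (A : Par)
    (S : HSt L StX StY RX RY) (hV : S.Valid A) (GX : RX × L → Prop) (GY : RY × L → Prop)
    (hX : LocP L S.SX GX) (hY : LocP L S.SY GY) :
    ((supp L S.SX S.kn ×ˢ supp L S.SY S.kn).filter fun z =>
      S.WG A.n z.1 z.2 ∧ GX z.1 ∧ GY z.2).card =
      kc L (S.kn.map Prod.fst) * (S.R.filter fun w => S.WG A.n (wx w) (wy w) ∧
        GX (wx w) ∧ GY (wy w)).card := by
  have key := pair_eq L S.SX S.SY hV.locX hV.locY S.kn (fun x y => S.WG A.n x y ∧ GX x ∧ GY y) ?_ ?_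
  · unfold HSt.R
    convert key using 3
    exact FrameA_filter _ _ _ _
  · intro r s O O' U U' h1 h2
    have e1 : S.SX.q r (O : (ι → K) → K) = S.SX.q r (O' : (ι → K) → K) := (hV.locX r _ _ h1).2.1
    have e2 : S.SY.q s (U : (ι → K) → K) = S.SY.q s (U' : (ι → K) → K) := (hV.locY s _ _ h2).2.1
    have e3 : S.WG A.n (r, O) (s, U) ↔ S.WG A.n (r, O') (s, U') := by
      unfold HSt.WG HSt.V HSt.PB
      simp only
      rw [e1, e2]
    exact and_congr e3 (and_congr (hX r O O' h1) (hY s U U' h2))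
  · intro r s O U h
    exact wg_not_tch hL A S hV (r, O) (s, U) h.1

/-- PROOF. The WG pairs of `supp × supp` are those of `XX × YY`; then `pair_wg`. -/
theorem pair_xy (hL : ∀ O, O ∈ L ↔ ∃ f : ι → K, O = ev f) (A : Par)
    (S : HSt L StX StY RX RY) (hV : S.Valid A) (GX : RX × L → Prop) (GY : RY × L → Prop)
    (hX : LocP L S.SX GX) (hY : LocP L S.SY GY) :
    ((S.XX A.n ×ˢ S.YY A.n).filter fun z => S.WG A.n z.1 z.2 ∧ GX z.1 ∧ GY z.2).card =
      kc L (S.kn.map Prod.fst) * ((S.RW A.n).filter fun w => GX (wx w) ∧ GY (wy w)).card := by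
  have h1 : ((S.XX A.n ×ˢ S.YY A.n).filter fun z => S.WG A.n z.1 z.2 ∧ GX z.1 ∧ GY z.2) =
      ((supp L S.SX S.kn ×ˢ supp L S.SY S.kn).filter fun z =>
        S.WG A.n z.1 z.2 ∧ GX z.1 ∧ GY z.2) := by
    ext z
    simp only [HSt.XX, HSt.YY, Finset.mem_filter, Finset.mem_product]
    constructor
    · rintro ⟨⟨⟨h2, -⟩, h3, -⟩, h4⟩
      exact ⟨⟨h2, h3⟩, h4⟩
    · rintro ⟨⟨h2, h3⟩, h4⟩
      exact ⟨⟨⟨h2, z.2, h3, h4.1⟩, h3, z.1, h2, h4.1⟩, h4⟩
  have h2 : ((S.RW A.n).filter fun w => GX (wx w) ∧ GY (wy w)) =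
      (S.R.filter fun w => S.WG A.n (wx w) (wy w) ∧ GX (wx w) ∧ GY (wy w)) := by
    unfold HSt.RW
    rw [Finset.filter_filter]
  rw [h1, h2]
  exact pair_wg hL A S hV GX GY hX hY

end Pool.Agent.LinOT
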