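import Pool.Agent.Lib.MP_ae38e0_lc.Half.ValidOps

set_option autoImplicit false

/-!
# Half-algebraic attack: lower bounds for the potential (ROW ha-PotPos)
-/

namespace Pool.Agent.LinOT

open Classical

variable {K : Type} [Field K] {ι : Type} [Fintype ι] {L : Submodule K ((ι → K) → K)} [Fintype L]
  {StX StY RX RY : Type} [Fintype RX] [Fintype RY]

theorem PotPos_Kc (A : Par) (hA : A.Ok) : 0 < A.Kc := by
  rw [hA.K1]
  have h1 := hA.n1
  have h2 := hA.h4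
  positivity

theorem PotPos_Bm (A : Par) (hA : A.Ok) : 0 < A.Bm := by
  rw [hA.B1, hA.T1]
  have h1 := hA.n1
  have h2 := hA.h4
  positivity

/-- All the terms but the first one are nonnegative. -/
theorem PotPos_rest (A : Par) (S : HSt L StX StY RX RY) (hV : S.Valid A)
    (w : RX × RY × L) : 0 ≤ (A.h : ℝ) / A.Kc * ((A.n : ℝ) + (A.n : ℝ) ^ 2 -
      (S.PB w.2.1 w.2.2 ∩ S.Q).card - (S.cumn w.1 w.2.2 ∩ S.Q).card) +
  (A.Th : ℝ) / A.Bm * ((A.n : ℝ) + A.n * A.sm - (S.PB w.2.1 w.2.2 ∩ S.Q).card -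
    (S.cum w.1 w.2.2 ∩ S.Q).card) +
  4 / (A.Th : ℝ) * ((A.n : ℝ) * A.sm - (S.cum w.1 w.2.2).card) +
  4 / (A.Th : ℝ) * ((A.n : ℝ) - (S.PB w.2.1 w.2.2).card) := by
  have h1 : ((S.PB w.2.1 w.2.2).card : ℝ) ≤ A.n := by exact_mod_cast hV.pbY w.2.1 w.2.2
  have h2 : ((S.cum w.1 w.2.2).card : ℝ) ≤ A.n * A.sm := by
    exact_mod_cast cum_le A S hV w.1 w.2.2
  have h3 : ((S.cumn w.1 w.2.2).card : ℝ) ≤ (A.n : ℝ) ^ 2 := by
    exact_mod_cast cumn_le A S hV w.1 w.2.2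
  have h4 : ((S.PB w.2.1 w.2.2 ∩ S.Q).card : ℝ) ≤ (S.PB w.2.1 w.2.2).card := by
    exact_mod_cast Finset.card_le_card Finset.inter_subset_left
  have h5 : ((S.cum w.1 w.2.2 ∩ S.Q).card : ℝ) ≤ (S.cum w.1 w.2.2).card := by
    exact_mod_cast Finset.card_le_card Finset.inter_subset_left
  have h6 : ((S.cumn w.1 w.2.2 ∩ S.Q).card : ℝ) ≤ (S.cumn w.1 w.2.2).card := by
    exact_mod_cast Finset.card_le_card Finset.inter_subset_left
  have g1 : 0 ≤ (A.h : ℝ) / A.Kc * ((A.n : ℝ) + (A.n : ℝ) ^ 2 -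
      (S.PB w.2.1 w.2.2 ∩ S.Q).card - (S.cumn w.1 w.2.2 ∩ S.Q).card) :=
    mul_nonneg (by positivity) (by linarith)
  have g2 : 0 ≤ (A.Th : ℝ) / A.Bm * ((A.n : ℝ) + A.n * A.sm - (S.PB w.2.1 w.2.2 ∩ S.Q).card -
    (S.cum w.1 w.2.2 ∩ S.Q).card) := mul_nonneg (by positivity) (by linarith)
  have g3 : 0 ≤ 4 / (A.Th : ℝ) * ((A.n : ℝ) * A.sm - (S.cum w.1 w.2.2).card) :=
    mul_nonneg (by positivity) (by linarith)
  have g4 : 0 ≤ 4 / (A.Th : ℝ) * ((A.n : ℝ) - (S.PB w.2.1 w.2.2).card) :=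
    mul_nonneg (by positivity) (by linarith)
  linarith

/-- PROOF. The potential is nonnegative for `w ∈ S.R`: cards are bounded by `pbY`, `cum_le`,
`cumn_le` (and `#(_ ∩ Q) ≤ #_`). -/
theorem pot_nonneg (A : Par) (hA : A.Ok) (S : HSt L StX StY RX RY) (hV : S.Valid A)
    (w : RX × RY × L) : 0 ≤ S.pot A w := by
  have h := PotPos_rest A S hV w
  have h0 : 0 ≤ (if S.good w then min 1 ((S.k : ℝ) / A.Kc + (S.b : ℝ) / A.Bm) else 1) := by
    split
    · apply le_min zero_le_one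
      positivity
    · exact zero_le_one
  unfold HSt.pot
  linarith

/-- PROOF. If `good w` fails then the first term is `1` and the others are nonnegative. -/
theorem one_le_pot (A : Par) (hA : A.Ok) (S : HSt L StX StY RX RY) (hV : S.Valid A)
    (w : RX × RY × L) (hw : ¬ S.good w) : 1 ≤ S.pot A w := by
  have h := PotPos_rest A S hV w
  unfold HSt.pot
  rw [if_neg hw]
  linarith

/-- PROOF. If `Kc ≤ k` or `Bm ≤ b` then `k/Kc + b/Bm ≥ 1` (`Kc, Bm > 0` by `Ok`), so the first term is `1`. -/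
theorem cut_pot (A : Par) (hA : A.Ok) (S : HSt L StX StY RX RY) (hV : S.Valid A)
    (w : RX × RY × L) (hw : A.Kc ≤ S.k ∨ A.Bm ≤ S.b) : 1 ≤ S.pot A w := by
  have h := PotPos_rest A S hV w
  have hK : (0 : ℝ) < A.Kc := by exact_mod_cast PotPos_Kc A hA
  have hB : (0 : ℝ) < A.Bm := by exact_mod_cast PotPos_Bm A hA
  have h1 : (1 : ℝ) ≤ (S.k : ℝ) / A.Kc + (S.b : ℝ) / A.Bm := by
    have h2 : 0 ≤ (S.k : ℝ) / A.Kc := by positivity
    have h3 : 0 ≤ (S.b : ℝ) / A.Bm := by positivity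
    rcases hw with hw | hw
    · have : (1 : ℝ) ≤ (S.k : ℝ) / A.Kc := by
        rw [one_le_div hK]
        exact_mod_cast hw
      linarith
    · have : (1 : ℝ) ≤ (S.b : ℝ) / A.Bm := by
        rw [one_le_div hB]
        exact_mod_cast hw
      linarith
  have h0 : 1 ≤ (if S.good w then min 1 ((S.k : ℝ) / A.Kc + (S.b : ℝ) / A.Bm) else 1) := by
    split
    · exact le_min le_rfl h1
    · exact le_rfl
  unfold HSt.pot
  linarith

end Pool.Agent.LinOT
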