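import Pool.Agent.Lib.MP_ae38e0_lc.Half.Turn
import Pool.Agent.Lib.MP_ae38e0_lc.Half.Close
import Pool.Agent.Lib.MP_ae38e0_lc.Half.PotPos

set_option autoImplicit false

/-!
# Half-algebraic attack: the recursion over the turns
-/

namespace Pool.Agent.LinOT

open Classical

variable {K : Type} [Field K] {ι : Type} [Fintype ι] {L : Submodule K ((ι → K) → K)} [Fintype L]
  {RX RY M X Y σ : Type} [Fintype RX] [Fintype RY]

/-- Agreement of the parties minus success of the eavesdropper. -/
noncomputable def payH (A : Par) (PX : Party (ι → K) K M X) (PY : Party (ι → K) K M Y)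
    (ag : RX → PX.St → RY → PY.St → Prop) (ou : RX → PX.St → RY → PY.St → σ)
    (gs : HSt L PX.St PY.St RX RY → σ) (t : List Bool) (S : HSt L PX.St PY.St RX RY) (m : M)
    (w : RX × RY × L) : ℝ :=
  (if ag w.1 (hexec PX PY (w.2.2 : (ι → K) → K) t (S.SX.s w.1 w.2.2) (S.SY.s w.2.1 w.2.2) m).2.1
      w.2.1 (hexec PX PY (w.2.2 : (ι → K) → K) t (S.SX.s w.1 w.2.2) (S.SY.s w.2.1 w.2.2) m).2.2
    then (1 : ℝ) else 0) -
  (if (hev A PX PY gs t
      (hexec PX PY (w.2.2 : (ι → K) → K) t (S.SX.s w.1 w.2.2) (S.SY.s w.2.1 w.2.2) m).1 S m).run
        (w.2.2 : (ι → K) → K) =
      ou w.1 (hexec PX PY (w.2.2 : (ι → K) → K) t (S.SX.s w.1 w.2.2) (S.SY.s w.2.1 w.2.2) m).2.1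
      w.2.1 (hexec PX PY (w.2.2 : (ι → K) → K) t (S.SX.s w.1 w.2.2) (S.SY.s w.2.1 w.2.2) m).2.2
    then (1 : ℝ) else 0)

theorem payH_le_one (A : Par) (PX : Party (ι → K) K M X) (PY : Party (ι → K) K M Y)
    (ag : RX → PX.St → RY → PY.St → Prop) (ou : RX → PX.St → RY → PY.St → σ)
    (gs : HSt L PX.St PY.St RX RY → σ) (t : List Bool) (S : HSt L PX.St PY.St RX RY) (m : M)
    (w : RX × RY × L) : payH A PX PY ag ou gs t S m w ≤ 1 := by
  unfold payH
  split_ifs <;> norm_num

/-- **The main recursion.** -/
theorem half_main (hL : ∀ O, O ∈ L ↔ ∃ f : ι → K, O = ev f) (A : Par) (hA : A.Ok)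
    (PX : Party (ι → K) K M X) (PY : Party (ι → K) K M Y)
    (ag : RX → PX.St → RY → PY.St → Prop) (ou : RX → PX.St → RY → PY.St → σ)
    (gs : HSt L PX.St PY.St RX RY → σ) (c0 : ℝ) (hc0 : 0 ≤ c0) (NY : ℕ)
    (hleaf : ∀ S : HSt L PX.St PY.St RX RY, S.Valid A → S.Clo A →
      ∑ w ∈ S.R, ((if ag w.1 (S.SX.s w.1 w.2.2) w.2.1 (S.SY.s w.2.1 w.2.2) then (1 : ℝ) else 0) -
        (if gs S = ou w.1 (S.SX.s w.1 w.2.2) w.2.1 (S.SY.s w.2.1 w.2.2) then (1 : ℝ) else 0)) ≤
        ∑ w ∈ S.R, (S.pot A w + c0)) :
    ∀ (t : List Bool) (S : HSt L PX.St PY.St RX RY) (m : M), S.Valid A → S.Done A →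
      (∀ (r : RX) (O : L) (l : List (M × M)), l.length ≤ t.count true →
        (S.SX.q r O ++ PX.asked O (S.SX.s r O) l).length ≤ A.n) →
      (∀ (r : RY) (O : L) (l : List (M × M)), l.length ≤ t.count false →
        (lp (S.SY.q r O ++ PY.asked O (S.SY.s r O) l)).card ≤ A.n) →
      (∀ (r : RY) (O : L) (l : List (M × M)), l.length ≤ t.count false →
        (PY.asked O (S.SY.s r O) l).length ≤ NY) →
      ∑ w ∈ S.R, payH A PX PY ag ou gs t S m w ≤ ∑ w ∈ S.R, (S.pot A w + c0) := by
  intro t
  induction t with
  | nil =>
    intro S m hV hD _ _ _
    rcases done_cases A S hD with hcut | hC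
    · refine Finset.sum_le_sum fun w _ => ?_
      have h1 := payH_le_one A PX PY ag ou gs [] S m w
      have h2 := cut_pot A hA S hV w hcut
      linarith
    · have h := hleaf S hV hC
      refine le_trans (le_of_eq ?_) h
      refine Finset.sum_congr rfl fun w _ => ?_
      simp only [payH, hexec, hev, Comp.run_ret]
      congr 1
  | cons d t ih =>
    intro S m hV hD hlx hly hny
    rcases done_cases A S hD with hcut | hC
    · refine Finset.sum_le_sum fun w _ => ?_
      have h1 := payH_le_one A PX PY ag ou gs (d :: t) S m w
      have h2 := cut_pot A hA S hV w hcut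
      linarith
    · cases d with
      | true =>
        set g : RX × RY × L → M := fun w =>
          ((PX.step (S.SX.s w.1 w.2.2) m).run (w.2.2 : (ι → K) → K)).2 with hg
        set TA : Finset M := Finset.univ.image g with hTA
        have memTA : ∀ w, g w ∈ TA := fun w => Finset.mem_image_of_mem _ (Finset.mem_univ w)
        have hR : ∀ a, cs L orc (fun w : RX × RY × L => real L S.SX S.SY w ∧ g w = a) S.kn =
            (S.updX A (S.SX.next PX m a)).R := by
          intro a
          ext w
          rw [HSt.R, mem_cs, mem_cs]
          simp only [real, Side.next, hg, HSt.updX]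
          tauto
        have hsplit : ∀ f : RX × RY × L → ℝ, ∑ w ∈ S.R, f w =
            ∑ a ∈ TA, ∑ w ∈ (S.updX A (S.SX.next PX m a)).R, f w := by
          intro f
          have := sum_split L orc (real L S.SX S.SY) g S.kn TA memTA f
          simp only [hR] at this
          exact this.symm
        have hmem : ∀ a, ∀ w ∈ (S.updX A (S.SX.next PX m a)).R, g w = a := by
          intro a w hw
          rw [← hR a, mem_cs] at hw
          exact hw.1.2
        have hcnt : (true :: t).count true = t.count true + 1 := by simp
        have hcnt' : (true :: t).count false = t.count false := by simp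
        rw [hcnt] at hlx
        rw [hcnt'] at hly hny
        have hstep : ∀ r (O : L),
            (S.SX.q r O ++ (PX.step (S.SX.s r O) m).asked O).length ≤ A.n := by
          intro r O
          have := hlx r O [(m, m)] (by simp)
          simpa [Party.asked] using this
        have hval : ∀ a, (S.updX A (S.SX.next PX m a)).Valid A := by
          intro a
          apply valid_updX A S hV _ (next_loc PX S.SX hV.locX m a)
          · intro r O c hc
            exact List.mem_append_left _ hc
          · intro r O
            exact hstep r O
        have hlen : ∀ (a : M), ∑ w ∈ (S.updX A (S.SX.next PX m a)).R,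
            payH A PX PY ag ou gs (true :: t) S m w ≤
            ∑ w ∈ (S.updX A (S.SX.next PX m a)).R,
              ((S.updX A (S.SX.next PX m a)).pot A w + c0) := by
          intro a
          have h := close_pot hL A hA (S.SX.next PX m a) S.SY
            (fun S' w => payH A PX PY ag ou gs t S' a w) c0
            (fun S' hV' hD' hX' hY' => ih S' a hV' hD' (by
                intro r O l hl
                rw [hX']
                have := hlx r O ((m, a) :: l) (by simp; omega)
                simpa [Party.asked, Side.next, add_assoc] using this) (by
                intro r O l hl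
                rw [hY']
                exact hly r O l hl) (by
                intro r O l hl
                rw [hY']
                exact hny r O l hl))
            (A.Kc + A.Bm) (S.updX A (S.SX.next PX m a)) (hval a) rfl rfl (by
              simp only [HSt.updX]; omega)
          refine le_trans (le_of_eq ?_) h
          refine Finset.sum_congr rfl fun w hw => ?_
          have hga := hmem a w hw
          have hspec := close_spec A (w.2.2 : (ι → K) → K) (A.Kc + A.Bm)
            (S.updX A (S.SX.next PX m a)) (hval a) (by simp only [HSt.updX]; omega)
          have hga' : ((PX.step (S.SX.s w.1 w.2.2) m).run (w.2.2 : (ι → K) → K)).2 = a := hga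
          simp only [payH, hexec, hev, hga', Comp.run_bind, hspec.2.2.1, hspec.2.2.2]
          rfl
        rw [hsplit, hsplit (fun w => S.pot A w + c0)]
        refine (Finset.sum_le_sum fun a _ => hlen a).trans ?_
        have e1 : ∑ a ∈ TA, ∑ w ∈ (S.updX A (S.SX.next PX m a)).R,
            ((S.updX A (S.SX.next PX m a)).pot A w + c0) =
            ∑ w ∈ S.R, ((S.updX A (S.SX.next PX m (g w))).pot A w + c0) := by
          rw [hsplit]
          refine Finset.sum_congr rfl fun a _ => Finset.sum_congr rfl fun w hw => ?_
          rw [hmem a w hw]
        rw [e1, ← hsplit, Finset.sum_add_distrib, Finset.sum_add_distrib]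
        exact add_le_add_left (turn_x hL A hA PX S hV hC m hstep g) _
      | false =>
        set g : RX × RY × L → M := fun w =>
          ((PY.step (S.SY.s w.2.1 w.2.2) m).run (w.2.2 : (ι → K) → K)).2 with hg
        set TA : Finset M := Finset.univ.image g with hTA
        have memTA : ∀ w, g w ∈ TA := fun w => Finset.mem_image_of_mem _ (Finset.mem_univ w)
        have hR : ∀ a, cs L orc (fun w : RX × RY × L => real L S.SX S.SY w ∧ g w = a) S.kn =
            (S.updY (S.SY.next PY m a)).R := by
          intro a
          ext w
          rw [HSt.R, mem_cs, mem_cs]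
          simp only [real, Side.next, hg, HSt.updY]
          tauto
        have hsplit : ∀ f : RX × RY × L → ℝ, ∑ w ∈ S.R, f w =
            ∑ a ∈ TA, ∑ w ∈ (S.updY (S.SY.next PY m a)).R, f w := by
          intro f
          have := sum_split L orc (real L S.SX S.SY) g S.kn TA memTA f
          simp only [hR] at this
          exact this.symm
        have hmem : ∀ a, ∀ w ∈ (S.updY (S.SY.next PY m a)).R, g w = a := by
          intro a w hw
          rw [← hR a, mem_cs] at hw
          exact hw.1.2
        have hcnt : (false :: t).count false = t.count false + 1 := by simp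
        have hcnt' : (false :: t).count true = t.count true := by simp
        rw [hcnt'] at hlx
        rw [hcnt] at hly hny
        have hstep : ∀ r (O : L),
            (lp (S.SY.q r O ++ (PY.step (S.SY.s r O) m).asked O)).card ≤ A.n := by
          intro r O
          have := hly r O [(m, m)] (by simp)
          simpa [Party.asked] using this
        have hstep' : ∀ r (O : L), ((PY.step (S.SY.s r O) m).asked O).length ≤ NY := by
          intro r O
          have := hny r O [(m, m)] (by simp)
          simpa [Party.asked] using this
        have hval : ∀ a, (S.updY (S.SY.next PY m a)).Valid A := by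
          intro a
          apply valid_updY A S hV _ (next_loc PY S.SY hV.locY m a)
          intro r O
          exact hstep r O
        have hlen : ∀ (a : M), ∑ w ∈ (S.updY (S.SY.next PY m a)).R,
            payH A PX PY ag ou gs (false :: t) S m w ≤
            ∑ w ∈ (S.updY (S.SY.next PY m a)).R,
              ((S.updY (S.SY.next PY m a)).pot A w + c0) := by
          intro a
          have h := close_pot hL A hA S.SX (S.SY.next PY m a)
            (fun S' w => payH A PX PY ag ou gs t S' a w) c0
            (fun S' hV' hD' hX' hY' => ih S' a hV' hD' (by
                intro r O l hl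
                rw [hX']
                exact hlx r O l hl) (by
                intro r O l hl
                rw [hY']
                have := hly r O ((m, a) :: l) (by simp; omega)
                simpa [Party.asked, Side.next, add_assoc] using this) (by
                intro r O l hl
                rw [hY']
                have := hny r O ((m, a) :: l) (by simp; omega)
                simp only [Party.asked, List.length_append] at this
                simp only [Side.next]
                omega))
            (A.Kc + A.Bm) (S.updY (S.SY.next PY m a)) (hval a) rfl rfl (by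
              simp only [HSt.updY]; omega)
          refine le_trans (le_of_eq ?_) h
          refine Finset.sum_congr rfl fun w hw => ?_
          have hga := hmem a w hw
          have hspec := close_spec A (w.2.2 : (ι → K) → K) (A.Kc + A.Bm)
            (S.updY (S.SY.next PY m a)) (hval a) (by simp only [HSt.updY]; omega)
          have hga' : ((PY.step (S.SY.s w.2.1 w.2.2) m).run (w.2.2 : (ι → K) → K)).2 = a := hga
          simp only [payH, hexec, hev, hga', Comp.run_bind, hspec.2.2.1, hspec.2.2.2]
          rfl
        rw [hsplit, hsplit (fun w => S.pot A w + c0)]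
        refine (Finset.sum_le_sum fun a _ => hlen a).trans ?_
        have e1 : ∑ a ∈ TA, ∑ w ∈ (S.updY (S.SY.next PY m a)).R,
            ((S.updY (S.SY.next PY m a)).pot A w + c0) =
            ∑ w ∈ S.R, ((S.updY (S.SY.next PY m (g w))).pot A w + c0) := by
          rw [hsplit]
          refine Finset.sum_congr rfl fun a _ => Finset.sum_congr rfl fun w hw => ?_
          rw [hmem a w hw]
        rw [e1, ← hsplit, Finset.sum_add_distrib, Finset.sum_add_distrib]
        exact add_le_add_left (turn_y hL A hA PY S hV hC m NY hstep' hstep g) _

/-- The number of queries of the eavesdropper. -/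
theorem hev_asked (A : Par) (hA : A.Ok) (PX : Party (ι → K) K M X) (PY : Party (ι → K) K M Y)
    (gs : HSt L PX.St PY.St RX RY → σ) (O : (ι → K) → K) :
    ∀ (t : List Bool) (l : List M) (S : HSt L PX.St PY.St RX RY) (m : M), S.Valid A →
      (∀ (r : RX) (O : L) (l : List (M × M)), l.length ≤ t.count true →
        (S.SX.q r O ++ PX.asked O (S.SX.s r O) l).length ≤ A.n) →
      (∀ (r : RY) (O : L) (l : List (M × M)), l.length ≤ t.count false →
        (lp (S.SY.q r O ++ PY.asked O (S.SY.s r O) l)).card ≤ A.n) →
      ((hev A PX PY gs t l S m).asked O).length ≤ A.rest S.k S.b := by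
  intro t
  induction t with
  | nil => intro l S m _ _ _; simp [hev]
  | cons d t ih =>
    intro l S m hV hlx hly
    cases l with
    | nil => cases d <;> simp [hev]
    | cons a l =>
      cases d with
      | true =>
        have hcnt : (true :: t).count true = t.count true + 1 := by simp
        have hcnt' : (true :: t).count false = t.count false := by simp
        rw [hcnt] at hlx
        rw [hcnt'] at hly
        have hval : (S.updX A (S.SX.next PX m a)).Valid A := by
          apply valid_updX A S hV _ (next_loc PX S.SX hV.locX m a)
          · intro r O c hc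
            exact List.mem_append_left _ hc
          · intro r O
            have := hlx r O [(m, m)] (by simp)
            simpa [Party.asked, Side.next] using this
        have hspec := close_spec A O (A.Kc + A.Bm) (S.updX A (S.SX.next PX m a)) hval
          (by simp only [HSt.updX]; omega)
        have h1 := close_asked_le A hA O (A.Kc + A.Bm) (S.updX A (S.SX.next PX m a)) hval
        simp only [hev, Comp.asked_bind, List.length_append]
        have h2 := ih l _ a hspec.1 (by
          intro r O l hl
          rw [hspec.2.2.1]
          have := hlx r O ((m, a) :: l) (by simp; omega)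
          simpa [Party.asked, Side.next, HSt.updX, add_assoc] using this) (by
          intro r O l hl
          rw [hspec.2.2.2]
          exact hly r O l hl)
        have h3 : A.rest (S.updX A (S.SX.next PX m a)).k (S.updX A (S.SX.next PX m a)).b =
          A.rest S.k S.b := rfl
        omega
      | false =>
        have hcnt : (false :: t).count false = t.count false + 1 := by simp
        have hcnt' : (false :: t).count true = t.count true := by simp
        rw [hcnt'] at hlx
        rw [hcnt] at hly
        have hval : (S.updY (S.SY.next PY m a)).Valid A := by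
          apply valid_updY A S hV _ (next_loc PY S.SY hV.locY m a)
          intro r O
          have := hly r O [(m, m)] (by simp)
          simpa [Party.asked, Side.next] using this
        have hspec := close_spec A O (A.Kc + A.Bm) (S.updY (S.SY.next PY m a)) hval
          (by simp only [HSt.updY]; omega)
        have h1 := close_asked_le A hA O (A.Kc + A.Bm) (S.updY (S.SY.next PY m a)) hval
        simp only [hev, Comp.asked_bind, List.length_append]
        have h2 := ih l _ a hspec.1 (by
          intro r O l hl
          rw [hspec.2.2.1]
          exact hlx r O l hl) (by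
          intro r O l hl
          rw [hspec.2.2.2]
          have := hly r O ((m, a) :: l) (by simp; omega)
          simpa [Party.asked, Side.next, HSt.updY, add_assoc] using this)
        have h3 : A.rest (S.updY (S.SY.next PY m a)).k (S.updY (S.SY.next PY m a)).b =
          A.rest S.k S.b := rfl
        omega

/-- The eavesdropper asks only for values. -/
theorem hev_pt (A : Par) (PX : Party (ι → K) K M X) (PY : Party (ι → K) K M Y)
    (gs : HSt L PX.St PY.St RX RY → σ) (O : (ι → K) → K) :
    ∀ (t : List Bool) (l : List M) (S : HSt L PX.St PY.St RX RY) (m : M),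
      ∀ q ∈ (hev A PX PY gs t l S m).asked O, ∃ p : ι, q = pt p := by
  intro t
  induction t with
  | nil => intro l S m q hq; simp [hev] at hq
  | cons d t ih =>
    intro l S m q hq
    cases l with
    | nil => cases d <;> simp [hev] at hq
    | cons a l =>
      cases d with
      | true =>
        simp only [hev, Comp.asked_bind, List.mem_append] at hq
        rcases hq with hq | hq
        · exact close_asked_pt A O _ _ q hq
        · exact ih _ _ _ q hq
      | false =>
        simp only [hev, Comp.asked_bind, List.mem_append] at hq
        rcases hq with hq | hq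
        · exact close_asked_pt A O _ _ q hq
        · exact ih _ _ _ q hq

end Pool.Agent.LinOT
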