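import Pool.Agent.Lib.MP_ae38e0_lc.Half.Att
import Pool.Agent.Lib.MP_ae38e0_lc.RoundNum

set_option autoImplicit false

/-!
# Oblivious transfer where one party asks only few values
-/

namespace Pool.Agent.LinOT

open Classical

variable {K : Type} [Field K] {ι : Type} [Fintype ι] {M : Type}

/-- All queries of the party with input `x` in `r` rounds together involve at most `n` points, i.e.
they can be answered with `n` values. -/
def sparse {X : Type} (L : Submodule K ((ι → K) → K)) (P : Party (ι → K) K M X) (x : X)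
    (r n : ℕ) : Prop :=
  ∀ O ∈ L, ∀ τ l, l.length = r → (lp (P.asked O (P.init x τ) l)).card ≤ n

/-- **Oblivious transfer** with one algebraic party. -/
theorem ot_half (L : Submodule K ((ι → K) → K)) [Finite L]
    (hL : ∀ O, O ∈ L ↔ ∃ f : ι → K, O = ev f) (R : Party (ι → K) K M Bool)
    (S : Party (ι → K) K M (Bool × Bool)) [Fintype R.Tape] [Fintype S.Tape] [Nonempty R.Tape]
    [Nonempty S.Tape] (out : R.St → Option Bool) (m0 : M) (N n h : ℕ)
    (hn : 1 ≤ n) (hh : 1 ≤ h)
    (hR : limited L R false N n) (hS : ∀ b, limited L S b N n)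
    (hs : sparse L R false N n ∨ ∀ b, sparse L S b N n)
    (δ : ℝ) (b1 : Bool) (hδ : ∀ b0, err L R S out N m0 false b0 b1 ≤ δ) :
    ∃ E : List (M × M) → Comp (ι → K) K Bool,
      (∀ t O, ((E t).asked O).length ≤ 130 * h ^ 6 * n ^ 10) ∧
      (∀ t O, ∀ q ∈ (E t).asked O, ∃ p : ι, q = pt p) ∧
      1 - 2 * (δ + 5 / h) ≤ advSum L R S N m0 E b1 := by
  have : Fintype L := Fintype.ofFinite L
  have : Nonempty L := ⟨0⟩
  obtain ⟨E, hE1, hE3, hE2⟩ := half_attack (L := L) (RA := R.Tape) (RB := Bool × S.Tape)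
    (σ := Bool) hL R S
    (fun τ => R.init false τ) (fun p => S.init (p.1, b1) p.2) (fun _ s => out s)
    (fun p _ => p.1) m0 N n h hn hh (fun O hO ra l hl => hR O hO ra l hl)
    (fun O hO rb l hl => hS _ O hO rb.2 l hl)
    (by
      rcases hs with h1 | h1
      · left
        exact fun O hO ra l hl => h1 O hO ra l hl
      · right
        exact fun O hO rb l hl => h1 _ O hO rb.2 l hl)
  refine ⟨E, hE1, hE3, ?_⟩
  have q1 := prob_bool (T := R.Tape) (U := S.Tape) (V := L) (fun b O τ τ' =>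
    out (exec R S O N (R.init false τ) (S.init (b, b1) τ') m0).2.1 = some b)
  have q2 := prob_bool (T := R.Tape) (U := S.Tape) (V := L) (fun b O τ τ' =>
    (E (exec R S O N (R.init false τ) (S.init (b, b1) τ') m0).1).run (O : (ι → K) → K) = b)
  rw [q1, q2] at hE2
  have e1 : ∀ b0, 1 - δ ≤ prob (fun w : L × R.Tape × S.Tape =>
      out (exec R S w.1 N (R.init false w.2.1) (S.init (b0, b1) w.2.2) m0).2.1 = some b0) := by
    intro b0
    have := hδ b0
    unfold err at this
    rw [prob_not] at this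
    unfold output at this
    simp only [Bool.false_eq_true, if_false] at this
    linarith
  have e2 : prob (fun w : L × R.Tape × S.Tape =>
      (E (exec R S w.1 N (R.init false w.2.1) (S.init (false, b1) w.2.2) m0).1).run
        (w.1 : (ι → K) → K) = false) = 1 - acc L R S N m0 E false false b1 := by
    unfold acc
    rw [← prob_not]
    congr 1
    funext w
    simp [transcript]
  have e3 : prob (fun w : L × R.Tape × S.Tape =>
      (E (exec R S w.1 N (R.init false w.2.1) (S.init (true, b1) w.2.2) m0).1).run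
        (w.1 : (ι → K) → K) = true) = acc L R S N m0 E false true b1 := rfl
  have f0 := e1 false
  have f1 := e1 true
  rw [e2, e3] at hE2
  have a1 := le_abs_self (acc L R S N m0 E true false b1 - acc L R S N m0 E false false b1)
  have a2 := neg_abs_le (acc L R S N m0 E true true b1 - acc L R S N m0 E false true b1)
  have a3 := neg_abs_le (acc L R S N m0 E true true b1 - acc L R S N m0 E true false b1)
  have a4 := le_abs_self (acc L R S N m0 E true true b1 - acc L R S N m0 E true false b1)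
  unfold advSum
  linarith

theorem half_poly (c k n : ℕ) (hn : n ≤ k ^ c) :
    130 * (10 * k) ^ 6 * n ^ 10 ≤ 2 * 10 ^ 8 * k ^ (10 * c + 6) := by
  calc 130 * (10 * k) ^ 6 * n ^ 10 ≤ 130 * (10 * k) ^ 6 * (k ^ c) ^ 10 := by gcongr
    _ = 130000000 * k ^ (10 * c + 6) := by ring
    _ ≤ 2 * 10 ^ 8 * k ^ (10 * c + 6) := by
      gcongr
      norm_num

theorem half_count (c k n : ℕ) (hk : 2 ≤ k) (hn : n ≤ k ^ c)
    (hc : 80 * (c + 2) * Nat.log 2 k ≤ k) :
    130 * (10 * k) ^ 6 * n ^ 10 ≤ 2 ^ (k / 4) := by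
  have hlog : 1 ≤ Nat.log 2 k := Nat.log_pos (by norm_num) (by omega)
  have h4 : k < 2 ^ (Nat.log 2 k + 1) := Nat.lt_pow_succ_log_self (by norm_num) k
  have h1 : 130 * (10 * k) ^ 6 * n ^ 10 ≤ 2 ^ 27 * k ^ (6 + 10 * c) := by
    calc 130 * (10 * k) ^ 6 * n ^ 10 ≤ 130 * (10 * k) ^ 6 * (k ^ c) ^ 10 := by gcongr
      _ = 130000000 * k ^ (6 + 10 * c) := by ring
      _ ≤ 2 ^ 27 * k ^ (6 + 10 * c) := by
        gcongr
        norm_num
  have h2 : k ^ (6 + 10 * c) ≤ 2 ^ ((2 * Nat.log 2 k) * (6 + 10 * c)) := by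
    rw [pow_mul]
    gcongr
    refine h4.le.trans (Nat.pow_le_pow_right (by norm_num) ?_)
    omega
  refine (h1.trans (Nat.mul_le_mul_left _ h2)).trans ?_
  rw [← pow_add]
  apply Nat.pow_le_pow_right (by norm_num)
  have h3 : 27 + 2 * Nat.log 2 k * (6 + 10 * c) ≤ 20 * (c + 2) * Nat.log 2 k := by
    nlinarith
  have h5 : 80 * (c + 2) * Nat.log 2 k = 4 * (20 * (c + 2) * Nat.log 2 k) := by ring
  rw [h5] at hc
  omega

theorem half_barrier (K M : Type) [Field K] [Fintype K] (k c N n : ℕ)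
    (L : Submodule K ((Fin (2 ^ k) × Fin (3 * k) → K) → K))
    (R : Party (Fin (2 ^ k) × Fin (3 * k) → K) K M Bool)
    (S : Party (Fin (2 ^ k) × Fin (3 * k) → K) K M (Bool × Bool)) [Fintype R.Tape]
    [Fintype S.Tape] [Nonempty R.Tape] [Nonempty S.Tape] (out : R.St → Option Bool) (m0 : M)
    (hL : ∀ O, O ∈ L ↔ ∃ f : Fin (2 ^ k) → Fin (3 * k) → K, O = lin f)
    (hk : 2 ≤ k) (hn : n ≤ k ^ c) (hc : 80 * (c + 2) * Nat.log 2 k ≤ k)
    (hR : limited L R false N n) (hS : ∀ b, limited L S b N n)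
    (hs : sparse L R false N n ∨ ∀ b, sparse L S b N n)
    (δ : ℝ) (b1 : Bool)
    (hδ : ∀ b0, err L R S out N m0 false b0 b1 ≤ δ) :
    ∃ E : List (M × M) → Comp (Fin (2 ^ k) × Fin (3 * k) → K) K Bool,
      (∀ t O, ((E t).asked O).length ≤ 2 * 10 ^ 8 * k ^ (10 * c + 6)) ∧
      (∀ t O, ∀ q ∈ (E t).asked O, ∃ p : Fin (2 ^ k) × Fin (3 * k), q = pt p) ∧
      1 - 2 * δ - 1 / k ≤ advSum L R S N m0 E b1 ∧
      ∀ I : (Fin (3 * k) → K) → Comp ((Fin (2 ^ k) × Fin (3 * k) → K) ⊕ List (M × M)) (K ⊕ Bool)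
          (Fin (2 ^ k)),
        (∀ y O, ((I y).asked (withAdv O E)).length ≤ 2 ^ (k / 4)) →
        prob (fun p : (Fin (2 ^ k) → Fin (3 * k) → K) × Fin (2 ^ k) =>
          p.1 ((I (p.1 p.2)).run (withAdv (lin p.1) E)) = p.1 p.2) ≤ 3 / 2 ^ (k / 2) := by
  have hkpos : 1 ≤ k := by omega
  have hn' : max n 1 ≤ k ^ c := max_le hn (Nat.one_le_pow _ _ hkpos)
  have : Finite L := inferInstance
  have hL' : ∀ O, O ∈ L ↔ ∃ f : Fin (2 ^ k) × Fin (3 * k) → K, O = ev f := by
    intro O
    rw [hL]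
    constructor
    · rintro ⟨f, rfl⟩
      exact ⟨fun p => f p.1 p.2, rfl⟩
    · rintro ⟨f, rfl⟩
      exact ⟨fun x i => f (x, i), rfl⟩
  obtain ⟨E, hE1, hE3, hE2⟩ := ot_half L hL' R S out m0 N (max n 1) (10 * k)
    (le_max_right _ _) (by omega)
    (fun O hO τ l hl => (hR O hO τ l hl).trans (le_max_left _ _))
    (fun b O hO τ l hl => (hS b O hO τ l hl).trans (le_max_left _ _))
    (by
      rcases hs with h1 | h1
      · left
        exact fun O hO τ l hl => (h1 O hO τ l hl).trans (le_max_left _ _)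
      · right
        exact fun b O hO τ l hl => (h1 b O hO τ l hl).trans (le_max_left _ _)) δ b1 hδ
  have hq := half_count c k (max n 1) hk hn' hc
  have hb : ∀ t O, ((E t).asked O).length ≤ 2 ^ (k / 4) := fun t O => (hE1 t O).trans hq
  refine ⟨E, fun t O => (hE1 t O).trans (half_poly c k (max n 1) hn'), hE3, ?_, ?_⟩
  · refine le_trans (le_of_eq ?_) hE2
    have hk0 : (k : ℝ) ≠ 0 := by exact_mod_cast (by omega : k ≠ 0)
    push_cast
    field_simp
    ring
  · intro I hI
    have h := oneway_half (K := K) k (fun y => (I y).sim E) (by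
      intro y O
      refine (Comp.asked_sim E O (2 ^ (k / 4)) (Nat.one_le_two_pow) (fun t => hb t O) (I y)).trans ?_
      calc 2 ^ (k / 4) * ((I y).asked (withAdv O E)).length ≤ 2 ^ (k / 4) * 2 ^ (k / 4) := by
            gcongr
            exact hI y O
        _ = 2 ^ (k / 4 + k / 4) := by rw [pow_add]
        _ ≤ 2 ^ (k / 2) := Nat.pow_le_pow_right (by norm_num) (by omega))
    simp only [Comp.run_sim] at h
    exact h

end Pool.Agent.LinOT
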