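import Pool.Agent.Lib.MP_ae38e0_lc.Half.Basic

set_option autoImplicit false

/-!
# Half-algebraic attack: sides with a part of the queries (ROW ha-Part)
-/

namespace Pool.Agent.LinOT

open Classical

variable {K : Type} [Field K] {ι : Type} [Fintype ι]

/-- The first queries of a computation are determined by their answers.
PROOF. Induction on the computation, generalizing `j`. -/
theorem Comp.take_congr {K Q α : Type} {O O' : Q → K} (c : Comp Q K α) (j : ℕ)
    (h : ∀ q ∈ (c.asked O).take j, O q = O' q) :
    (c.asked O).take (j + 1) = (c.asked O').take (j + 1) := by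
  induction c generalizing j with
  | ret a => rfl
  | ask q next ih =>
    simp only [Comp.asked_ask, List.take_succ_cons] at h ⊢
    cases j with
    | zero => simp
    | succ i =>
      simp only [List.take_succ_cons, List.mem_cons, forall_eq_or_imp] at h
      rw [← h.1, ih (O q) i h.2]

/-- PROOF. If `O`, `O'` agree on `q r O ++ (asked O).take j` then the states are the same (`hS`),
and `Comp.take_congr` gives `take (j+1)`, hence `take j` (`List.take_take`). -/
theorem part_loc {M X R : Type} (P : Party (ι → K) K M X) (S : Side (ι → K) K P.St R)
    (hS : S.Loc) (m : M) (j : ℕ) : (S.part P m j).Loc := by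
  intro r O O' h
  have h0 := hS r O O' (fun x hx => h x (List.mem_append_left _ hx))
  refine ⟨h0.1, ?_, h0.2.2⟩
  show S.q r O ++ ((P.step (S.s r O) m).asked O).take j =
    S.q r O' ++ ((P.step (S.s r O') m).asked O').take j
  rw [← h0.2.1, ← h0.1]
  congr 1
  cases j with
  | zero => simp
  | succ i =>
    apply Comp.take_congr
    intro q hq
    apply h
    exact List.mem_append_right _ (List.take_subset_take_left _ (Nat.le_succ i) hq)

/-- The queries up to the next one are determined by the previous ones. PROOF. As `part_loc`. -/
theorem part_next {M X R : Type} (P : Party (ι → K) K M X) (S : Side (ι → K) K P.St R)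
    (hS : S.Loc) (m : M) (j : ℕ) (r : R) (O O' : (ι → K) → K)
    (h : ∀ c ∈ (S.part P m j).q r O, O c = O' c) :
    (S.part P m (j + 1)).q r O = (S.part P m (j + 1)).q r O' := by
  have h0 := hS r O O' (fun x hx => h x (List.mem_append_left _ hx))
  show S.q r O ++ ((P.step (S.s r O) m).asked O).take (j + 1) =
    S.q r O' ++ ((P.step (S.s r O') m).asked O').take (j + 1)
  rw [← h0.2.1, ← h0.1]
  congr 1
  apply Comp.take_congr
  intro q hq
  exact h q (List.mem_append_right _ hq)

end Pool.Agent.LinOT
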