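import Pool.Agent.Lib.MP_ae38e0_lc.Half.ExitX
import Pool.Agent.Lib.MP_ae38e0_lc.Half.ValidOps
import Pool.Agent.Lib.MP_ae38e0_lc.Half.Part
import Pool.Agent.Lib.MP_ae38e0_lc.Half.CloDef

set_option autoImplicit false

/-!
# Half-algebraic attack: one query of the linear party at a closed state (ROW ha-SubX)
-/

namespace Pool.Agent.LinOT

open Classical

variable {K : Type} [Field K] {ι : Type} [Fintype ι] {L : Submodule K ((ι → K) → K)} [Fintype L]
  {StX StY RX RY M X : Type} [Fintype RX] [Fintype RY]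

/-- PROOF. Points outside of `Q` are light, so `Th * #{y ∈ YY | p ∈ PB y} ≤ 2 #YY` (`light_y`).
If `¬ WG_j x y` then some `p ∈ TT n Q V_j(x)` (so `p ∉ Q`) is in `PB y`; `TT n Q V_j(x)` has at most
`n^2` points (`TTn_card` for the state `updX`, which is valid), hence
`Th * #{y | ¬ WG_j} ≤ 2 n^2 #YY` and `4 n^2 ≤ Th`. -/
theorem sub_deg_x (hL : ∀ O, O ∈ L ↔ ∃ f : ι → K, O = ev f) (A : Par) (hA : A.Ok)
    (S : HSt L StX StY RX RY) (hV : S.Valid A) (hC : S.Clo A) (T : Side (ι → K) K StX RX)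
    (hVT : (S.updX A T).Valid A) (x : RX × L) :
    2 * ((S.YY A.n).filter fun y => ¬ (S.updX A T).WG A.n x y).card ≤ (S.YY A.n).card := by
  set J : Finset ι := TT A.n S.Q (spn (T.q x.1 x.2)) with hJ
  have hJc : J.card ≤ A.n ^ 2 := TTn_card A (S.updX A T) hVT x.1 x.2
  have hlight : ∀ p ∈ J, A.Th * ((S.YY A.n).filter fun y => p ∈ S.PB y.1 y.2).card ≤
      2 * (S.YY A.n).card := by
    intro p hp
    exact light_y hL A hA S hV hC.1 p (hC.2 p (mem_TT.mp hp).1).1
  have hsub : ((S.YY A.n).filter fun y => ¬ (S.updX A T).WG A.n x y) ⊆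
      J.biUnion fun p => (S.YY A.n).filter fun y => p ∈ S.PB y.1 y.2 := by
    intro y hy
    rw [Finset.mem_filter] at hy
    obtain ⟨hy1, hy2⟩ := hy
    have hy3 : ¬ Disjoint J (S.PB y.1 y.2) := hy2
    rw [Finset.not_disjoint_iff] at hy3
    obtain ⟨p, hp1, hp2⟩ := hy3
    exact Finset.mem_biUnion.mpr ⟨p, hp1, Finset.mem_filter.mpr ⟨hy1, hp2⟩⟩
  have h1 : ((S.YY A.n).filter fun y => ¬ (S.updX A T).WG A.n x y).card ≤
      ∑ p ∈ J, ((S.YY A.n).filter fun y => p ∈ S.PB y.1 y.2).card :=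
    (Finset.card_le_card hsub).trans Finset.card_biUnion_le
  have h2 : A.Th * ((S.YY A.n).filter fun y => ¬ (S.updX A T).WG A.n x y).card ≤
      A.n ^ 2 * (2 * (S.YY A.n).card) := by
    calc A.Th * ((S.YY A.n).filter fun y => ¬ (S.updX A T).WG A.n x y).card
        ≤ A.Th * ∑ p ∈ J, ((S.YY A.n).filter fun y => p ∈ S.PB y.1 y.2).card :=
          Nat.mul_le_mul_left _ h1
      _ = ∑ p ∈ J, A.Th * ((S.YY A.n).filter fun y => p ∈ S.PB y.1 y.2).card := by
          rw [Finset.mul_sum]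
      _ ≤ ∑ _p ∈ J, 2 * (S.YY A.n).card := Finset.sum_le_sum hlight
      _ = J.card * (2 * (S.YY A.n).card) := by rw [Finset.sum_const, smul_eq_mul]
      _ ≤ A.n ^ 2 * (2 * (S.YY A.n).card) := Nat.mul_le_mul_right _ hJc
  have h3 := four_le_Th A hA
  have h4 : 4 * A.n ^ 2 * ((S.YY A.n).filter fun y => ¬ (S.updX A T).WG A.n x y).card ≤
      A.n ^ 2 * (2 * (S.YY A.n).card) := (Nat.mul_le_mul_right _ h3).trans h2
  have h5 : 0 < A.n ^ 2 := by
    have := hA.n1
    positivity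
  have h6 : A.n ^ 2 * (2 * (2 * ((S.YY A.n).filter fun y =>
      ¬ (S.updX A T).WG A.n x y).card)) ≤ A.n ^ 2 * (2 * (S.YY A.n).card) := by
    calc A.n ^ 2 * (2 * (2 * ((S.YY A.n).filter fun y => ¬ (S.updX A T).WG A.n x y).card))
        = 4 * A.n ^ 2 * ((S.YY A.n).filter fun y => ¬ (S.updX A T).WG A.n x y).card := by ring
      _ ≤ _ := h4
  have h7 := Nat.le_of_mul_le_mul_left h6 h5
  omega

/-- PROOF. Let `S_j = S.updX A (part j)`, `S_{j+1}` similarly; both valid (`valid_updX`, `part_loc`).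
`N x := S_{j+1}.cum x \ S_j.cum x`, `G := univ \ S.Q`.  All of `S.R`, `S_j.R`, `S_{j+1}.R` are
equal (same `P`, same `kn`), and `supp` too.  `exit_x` for the state `S_j` with `U = S.XX`,
`U' = S.YY`: `WG_j → WG` because `TT n Q V ⊆ TT n Q V_j`; `hN` by `part_next`; `hdeg` by
`sub_deg_x`; `hlight` by `light_y` and `hC`.
For `w ∈ R`: if `good_j w` and not `good_{j+1} w` then (some `p ∉ Q` is in `cum_{j+1}` and in `PB`,
not in `cum_j`) `p ∈ N (wx w) ∩ G ∩ PB`, and `WG_j (wx w) (wy w)` because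
`TT n Q V_j ⊆ TT (sk k) Q V_j ⊆ cum_j \ Q`.  Termwise
`pot_{j+1} w ≤ pot_j w + [exit w] - (4/Th) * #N(wx w)`: `cum_j ⊆ cum_{j+1}` so
`good_{j+1} → good_j`, the first term grows by at most `[exit]` (`0 ≤ min 1 _ ≤ 1`), the
second and third do not grow (`cumn_j ⊆ cumn_{j+1}`), the fourth decreases by exactly
`(4/Th) #N`, and `N = N ∩ G` (`TT` is disjoint from `Q`).  Sum up. -/
theorem sub_x (hL : ∀ O, O ∈ L ↔ ∃ f : ι → K, O = ev f) (A : Par) (hA : A.Ok)
    (PX : Party (ι → K) K M X) (S : HSt L PX.St StY RX RY) (hV : S.Valid A) (hC : S.Clo A)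
    (m : M)
    (hlen : ∀ r (O : L), (S.SX.q r O ++ (PX.step (S.SX.s r O) m).asked O).length ≤ A.n)
    (j : ℕ) :
    ∑ w ∈ S.R, (S.updX A (S.SX.part PX m (j + 1))).pot A w ≤
      ∑ w ∈ S.R, (S.updX A (S.SX.part PX m j)).pot A w := by
  have hlenj : ∀ i r (O : L), ((S.SX.part PX m i).q r O).length ≤ A.n := by
    intro i r O
    refine le_trans ?_ (hlen r O)
    simp only [Side.part, List.length_append]
    exact Nat.add_le_add_left (List.length_take_le' _ _) _
  have hmem : ∀ i r (O : (ι → K) → K), ∀ c ∈ S.SX.q r O, c ∈ (S.SX.part PX m i).q r O := by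
    intro i r O c hc
    exact List.mem_append_left _ hc
  have hval : ∀ i, (S.updX A (S.SX.part PX m i)).Valid A := fun i =>
    valid_updX A S hV _ (part_loc PX S.SX hV.locX m i) (fun r O => hmem i r O) (hlenj i)
  set Sj := S.updX A (S.SX.part PX m j) with hSj
  set Sk := S.updX A (S.SX.part PX m (j + 1)) with hSk
  have hQj : Sj.Q = S.Q := rfl
  have hQk : Sk.Q = S.Q := rfl
  have hPj : ∀ r (O : L), Sj.PB r O = S.PB r O := fun _ _ => rfl
  have hPk : ∀ r (O : L), Sk.PB r O = S.PB r O := fun _ _ => rfl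
  have hqq : ∀ r (O : (ι → K) → K), ∀ c ∈ (S.SX.part PX m j).q r O,
      c ∈ (S.SX.part PX m (j + 1)).q r O := by
    intro r O c hc
    simp only [Side.part, List.mem_append] at hc ⊢
    rcases hc with hc | hc
    · exact Or.inl hc
    · exact Or.inr (List.take_subset_take_left _ (Nat.le_succ j) hc)
  have hcum : ∀ r (O : L), Sj.cum r O ⊆ Sk.cum r O := by
    intro r O
    exact Finset.union_subset_union (Finset.Subset.refl _)
      (TT_mono le_rfl (spn_mono (hqq r O)))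
  have hcumn : ∀ r (O : L), Sj.cumn r O ⊆ Sk.cumn r O := by
    intro r O
    exact Finset.union_subset_union (Finset.Subset.refl _)
      (TT_mono le_rfl (spn_mono (hqq r O)))
  set N : RX × L → Finset ι := fun x => Sk.cum x.1 x.2 \ Sj.cum x.1 x.2 with hN
  have hNQ : ∀ x, ∀ p ∈ N x, p ∉ S.Q := by
    intro x p hp
    have hp' := Finset.mem_sdiff.mp hp
    have h1 : p ∈ S.cum x.1 x.2 ∪
        TT (A.sk S.k) S.Q (spn ((S.SX.part PX m (j + 1)).q x.1 x.2)) := hp'.1
    rcases Finset.mem_union.mp h1 with h2 | h2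
    · exact absurd (Finset.mem_union_left _ h2) hp'.2
    · exact (mem_TT.mp h2).1
  have hNG : ∀ x, N x ∩ (Finset.univ \ S.Q) = N x := by
    intro x
    rw [Finset.inter_eq_left]
    intro p hp
    exact Finset.mem_sdiff.mpr ⟨Finset.mem_univ _, hNQ x p hp⟩
  -- the exits
  have hex := exit_x hL A Sj (hval j) (S.XX A.n) (S.YY A.n)
    (Finset.filter_subset _ _) (Finset.filter_subset _ _)
    (by
      intro x hx y hy hwg
      have hwg' : S.WG A.n x y := by
        refine Finset.disjoint_of_subset_left ?_ hwg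
        exact TT_mono le_rfl (spn_mono (hmem j x.1 x.2))
      exact ⟨Finset.mem_filter.mpr ⟨hx, y, hy, hwg'⟩, Finset.mem_filter.mpr ⟨hy, x, hx, hwg'⟩⟩)
    N
    (by
      intro p r O O' hO
      have hO' : ∀ c ∈ (S.SX.part PX m j).q r O, (O : (ι → K) → K) c = (O' : (ι → K) → K) c := hO
      have e1 : S.cum r O = S.cum r O' :=
        (hV.cloc r O O' (fun c hc => hO' c (hmem j r O c hc))).1
      have e2 := part_next PX S.SX hV.locX m j r O O' hO'
      have e3 := (part_loc PX S.SX hV.locX m j r O O' hO').2.1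
      have e4 : N (r, O) = N (r, O') := by
        simp only [hN, hSj, hSk, HSt.updX, e1, e2, e3]
      show p ∈ N (r, O) ↔ p ∈ N (r, O')
      rw [e4])
    (Finset.univ \ S.Q)
    (fun x _ => sub_deg_x hL A hA S hV hC _ (hval j) x)
    (by
      intro p hp
      have hpQ : p ∉ S.Q := (Finset.mem_sdiff.mp hp).2
      exact light_y hL A hA S hV hC.1 p (hC.2 p hpQ).1)
  obtain ⟨EP, hEP⟩ : ∃ EP : RX × RY × L → Prop, ∀ w, EP w ↔ (Sj.WG A.n (wx w) (wy w) ∧
      ∃ p ∈ Finset.univ \ S.Q, p ∈ N (wx w) ∧ p ∈ Sj.PB (wy w).1 (wy w).2) :=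
    ⟨_, fun _ => Iff.rfl⟩
  have hex1 : A.Th * (S.R.filter EP).card ≤ 4 * ∑ w ∈ S.R, (N (wx w)).card := by
    have h1 : ∑ w ∈ S.R, (N (wx w) ∩ (Finset.univ \ S.Q)).card =
        ∑ w ∈ S.R, (N (wx w)).card :=
      Finset.sum_congr rfl fun w _ => by rw [hNG]
    rw [← h1]
    have hR : Sj.R = S.R := rfl
    rw [hR] at hex
    have he : EP = fun w => (Sj.WG A.n (wx w) (wy w) ∧
        ∃ p ∈ Finset.univ \ S.Q, p ∈ N (wx w) ∧ p ∈ Sj.PB (wy w).1 (wy w).2) := by
      funext w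
      exact propext (hEP w)
    subst he
    convert hex
  set E : Finset (RX × RY × L) := S.R.filter EP with hE
  have hEmem : ∀ w, w ∈ E ↔ w ∈ S.R ∧ (Sj.WG A.n (wx w) (wy w) ∧
      ∃ p ∈ Finset.univ \ S.Q, p ∈ N (wx w) ∧ p ∈ Sj.PB (wy w).1 (wy w).2) := by
    intro w
    rw [hE, Finset.mem_filter, hEP]
  have hex' : A.Th * E.card ≤ 4 * ∑ w ∈ S.R, (N (wx w)).card := hex1
  have hTh : 0 < A.Th := by
    have h1 := four_le_Th A hA
    have h2 := hA.n1
    have h3 : 0 < A.n ^ 2 := by positivity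
    omega
  have hThR : (0 : ℝ) < A.Th := by exact_mod_cast hTh
  -- termwise
  have hterm : ∀ w ∈ S.R, Sk.pot A w ≤ Sj.pot A w + (if w ∈ E then (1 : ℝ) else 0) -
      4 / (A.Th : ℝ) * ((N (wx w)).card : ℝ) := by
    intro w hw
    have hkc : (Sk.cum w.1 w.2.2).card = (Sj.cum w.1 w.2.2).card + (N (wx w)).card := by
      have h1 := Finset.card_sdiff_add_card_eq_card (hcum w.1 w.2.2)
      have h2 : (N (wx w)).card = (Sk.cum w.1 w.2.2 \ Sj.cum w.1 w.2.2).card := rfl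
      omega
    have hkcR : ((Sk.cum w.1 w.2.2).card : ℝ) =
        ((Sj.cum w.1 w.2.2).card : ℝ) + ((N (wx w)).card : ℝ) := by exact_mod_cast hkc
    have hF : (if Sk.good w then min 1 ((Sk.k : ℝ) / A.Kc + (Sk.b : ℝ) / A.Bm) else 1) ≤
        (if Sj.good w then min 1 ((Sj.k : ℝ) / A.Kc + (Sj.b : ℝ) / A.Bm) else 1) +
        (if w ∈ E then (1 : ℝ) else 0) := by
      have hk : Sk.k = S.k := rfl
      have hk' : Sj.k = S.k := rfl
      have hb : Sk.b = S.b := rfl
      have hb' : Sj.b = S.b := rfl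
      rw [hk, hk', hb, hb']
      have hm1 : min 1 ((S.k : ℝ) / A.Kc + (S.b : ℝ) / A.Bm) ≤ 1 := min_le_left _ _
      have hm0 : (0 : ℝ) ≤ min 1 ((S.k : ℝ) / A.Kc + (S.b : ℝ) / A.Bm) :=
        le_min zero_le_one (by positivity)
      by_cases hg : Sj.good w
      · by_cases hg' : Sk.good w
        · rw [if_pos hg, if_pos hg']
          split_ifs <;> linarith
        · rw [if_pos hg, if_neg hg']
          have hwE : w ∈ E := by
            rw [hEmem]
            refine ⟨hw, ?_, ?_⟩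
            · refine Finset.disjoint_of_subset_left ?_ hg
              intro p hp
              rw [Finset.mem_sdiff]
              refine ⟨?_, (mem_TT.mp hp).1⟩
              exact Finset.mem_union_right _ (TT_mono (n_le_sk A S.k) le_rfl hp)
            · have h1 : ¬ Disjoint (Sk.cum w.1 w.2.2 \ Sk.Q) (Sk.PB w.2.1 w.2.2) := hg'
              rw [Finset.not_disjoint_iff] at h1
              obtain ⟨p, hp1, hp2⟩ := h1
              rw [Finset.mem_sdiff] at hp1
              refine ⟨p, Finset.mem_sdiff.mpr ⟨Finset.mem_univ _, hp1.2⟩, ?_, hp2⟩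
              refine Finset.mem_sdiff.mpr ⟨hp1.1, fun hp3 => ?_⟩
              have h2 : Disjoint (Sj.cum w.1 w.2.2 \ Sj.Q) (Sj.PB w.2.1 w.2.2) := hg
              exact Finset.disjoint_left.mp h2 (Finset.mem_sdiff.mpr ⟨hp3, hp1.2⟩) hp2
          rw [if_pos hwE]
          linarith
      · have hg' : ¬ Sk.good w := by
          intro h1
          apply hg
          have h2 : Disjoint (Sk.cum w.1 w.2.2 \ S.Q) (S.PB w.2.1 w.2.2) := h1
          exact Finset.disjoint_of_subset_left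
            (Finset.sdiff_subset_sdiff (hcum w.1 w.2.2) (Finset.Subset.refl _)) h2
        rw [if_neg hg, if_neg hg']
        split_ifs <;> linarith
    have hc2 : ((Sj.cumn w.1 w.2.2 ∩ S.Q).card : ℝ) ≤ ((Sk.cumn w.1 w.2.2 ∩ S.Q).card : ℝ) := by
      exact_mod_cast Finset.card_le_card
        (Finset.inter_subset_inter_right (hcumn w.1 w.2.2))
    have hc3 : ((Sj.cum w.1 w.2.2 ∩ S.Q).card : ℝ) ≤ ((Sk.cum w.1 w.2.2 ∩ S.Q).card : ℝ) := by
      exact_mod_cast Finset.card_le_card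
        (Finset.inter_subset_inter_right (hcum w.1 w.2.2))
    have hhK : (0 : ℝ) ≤ (A.h : ℝ) / A.Kc := by positivity
    have hTB : (0 : ℝ) ≤ (A.Th : ℝ) / A.Bm := by positivity
    have d2 : (A.h : ℝ) / A.Kc * ((A.n : ℝ) + (A.n : ℝ) ^ 2 -
        (S.PB w.2.1 w.2.2 ∩ S.Q).card - (Sk.cumn w.1 w.2.2 ∩ S.Q).card) ≤
        (A.h : ℝ) / A.Kc * ((A.n : ℝ) + (A.n : ℝ) ^ 2 -
        (S.PB w.2.1 w.2.2 ∩ S.Q).card - (Sj.cumn w.1 w.2.2 ∩ S.Q).card) :=
      mul_le_mul_of_nonneg_left (by linarith) hhK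
    have d3 : (A.Th : ℝ) / A.Bm * ((A.n : ℝ) + A.n * A.sm -
        (S.PB w.2.1 w.2.2 ∩ S.Q).card - (Sk.cum w.1 w.2.2 ∩ S.Q).card) ≤
        (A.Th : ℝ) / A.Bm * ((A.n : ℝ) + A.n * A.sm -
        (S.PB w.2.1 w.2.2 ∩ S.Q).card - (Sj.cum w.1 w.2.2 ∩ S.Q).card) :=
      mul_le_mul_of_nonneg_left (by linarith) hTB
    have d4 : 4 / (A.Th : ℝ) * ((A.n : ℝ) * A.sm - (Sk.cum w.1 w.2.2).card) =
        4 / (A.Th : ℝ) * ((A.n : ℝ) * A.sm - (Sj.cum w.1 w.2.2).card) -
        4 / (A.Th : ℝ) * ((N (wx w)).card : ℝ) := by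
      rw [hkcR]; ring
    unfold HSt.pot
    rw [hQj, hQk, hPj, hPk, d4]
    linarith
  have hsum := Finset.sum_le_sum hterm
  rw [Finset.sum_sub_distrib, Finset.sum_add_distrib, ← Finset.mul_sum] at hsum
  have hEs : ∑ w ∈ S.R, (if w ∈ E then (1 : ℝ) else 0) = (E.card : ℝ) := by
    rw [← Finset.sum_filter, Finset.sum_const, nsmul_eq_mul, mul_one]
    congr 2
    ext w
    rw [Finset.mem_filter]
    exact ⟨fun h => h.2, fun h => ⟨((hEmem w).mp h).1, h⟩⟩
  rw [hEs] at hsum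
  have hfin : (E.card : ℝ) ≤ 4 / (A.Th : ℝ) * ∑ w ∈ S.R, ((N (wx w)).card : ℝ) := by
    have h1 : (A.Th : ℝ) * (E.card : ℝ) ≤ 4 * ∑ w ∈ S.R, ((N (wx w)).card : ℝ) := by
      exact_mod_cast hex'
    rw [div_mul_eq_mul_div, le_div_iff₀ hThR]
    linarith
  linarith

end Pool.Agent.LinOT
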