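import Pool.Agent.Lib.MP_ae38e0_lc.Half.ExitY
import Pool.Agent.Lib.MP_ae38e0_lc.Half.ValidOps
import Pool.Agent.Lib.MP_ae38e0_lc.Half.Part
import Pool.Agent.Lib.MP_ae38e0_lc.Half.CloDef

set_option autoImplicit false

/-!
# Half-algebraic attack: one query of the other party at a closed state (ROW ha-SubY)
-/

namespace Pool.Agent.LinOT

open Classical

variable {K : Type} [Field K] {ι : Type} [Fintype ι] {L : Submodule K ((ι → K) → K)} [Fintype L]
  {StX StY RX RY M Y : Type} [Fintype RX] [Fintype RY]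

/-- PROOF. For `y ∈ YY`... the points of `PB_j(y)` outside of `Q` are light for `cum`, so
`Th * #{x ∈ XX | p ∈ cum x} ≤ 2 #XX` (`light_x`); if `¬ WG_j x y` then some `p ∈ TT n Q V(x)`, which
is in `cum x` (`cT`, `n ≤ sk k`) and not in `Q`, is in `PB_j(y)`, which has at most `n` points. -/
theorem sub_deg_y (hL : ∀ O, O ∈ L ↔ ∃ f : ι → K, O = ev f) (A : Par) (hA : A.Ok)
    (S : HSt L StX StY RX RY) (hV : S.Valid A) (hC : S.Clo A) (T : Side (ι → K) K StY RY)
    (hVT : (S.updY T).Valid A) (y : RY × L) :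
    2 * ((S.XX A.n).filter fun x => ¬ (S.updY T).WG A.n x y).card ≤ (S.XX A.n).card := by
  have hsub : ((S.XX A.n).filter fun x => ¬ (S.updY T).WG A.n x y) ⊆
      ((S.updY T).PB y.1 y.2 \ S.Q).biUnion fun p =>
        (S.XX A.n).filter fun x => p ∈ S.cum x.1 x.2 := by
    intro x hx
    obtain ⟨hx1, hx2⟩ := Finset.mem_filter.mp hx
    have hx3 : ¬ Disjoint (TT A.n S.Q (S.V x.1 x.2)) ((S.updY T).PB y.1 y.2) := hx2
    obtain ⟨p, hp1, hp2⟩ := Finset.not_disjoint_iff.mp hx3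
    have hpQ : p ∉ S.Q := (mem_TT.mp hp1).1
    refine Finset.mem_biUnion.mpr ⟨p, Finset.mem_sdiff.mpr ⟨hp2, hpQ⟩, Finset.mem_filter.mpr ⟨hx1, ?_⟩⟩
    exact hV.cT _ _ (TT_mono (n_le_sk A S.k) le_rfl hp1)
  have h1 : A.Th * ((S.XX A.n).filter fun x => ¬ (S.updY T).WG A.n x y).card ≤
      A.n * (2 * (S.XX A.n).card) := by
    calc A.Th * ((S.XX A.n).filter fun x => ¬ (S.updY T).WG A.n x y).card
        ≤ A.Th * ∑ p ∈ (S.updY T).PB y.1 y.2 \ S.Q,
            ((S.XX A.n).filter fun x => p ∈ S.cum x.1 x.2).card :=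
          Nat.mul_le_mul_left _ ((Finset.card_le_card hsub).trans Finset.card_biUnion_le)
      _ = ∑ p ∈ (S.updY T).PB y.1 y.2 \ S.Q,
            A.Th * ((S.XX A.n).filter fun x => p ∈ S.cum x.1 x.2).card := by
          rw [Finset.mul_sum]
      _ ≤ ∑ p ∈ (S.updY T).PB y.1 y.2 \ S.Q, 2 * (S.XX A.n).card := by
          refine Finset.sum_le_sum fun p hp => ?_
          exact light_x hL A hA S hV hC.1 p (hC.2 p (Finset.mem_sdiff.mp hp).2).2
      _ = ((S.updY T).PB y.1 y.2 \ S.Q).card * (2 * (S.XX A.n).card) := by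
          rw [Finset.sum_const, smul_eq_mul]
      _ ≤ A.n * (2 * (S.XX A.n).card) := by
          refine Nat.mul_le_mul_right _ ?_
          exact (Finset.card_le_card Finset.sdiff_subset).trans (hVT.pbY y.1 y.2)
  have h2 : 4 * A.n ≤ A.Th := by
    have h3 := four_le_Th A hA
    have h4 := hA.n1
    nlinarith
  have h3 : 4 * A.n * ((S.XX A.n).filter fun x => ¬ (S.updY T).WG A.n x y).card ≤
      A.n * (2 * (S.XX A.n).card) := (Nat.mul_le_mul_right _ h2).trans h1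
  have h4 := hA.n1
  have h5 : (2 * A.n) * (2 * ((S.XX A.n).filter fun x => ¬ (S.updY T).WG A.n x y).card) ≤
      (2 * A.n) * (S.XX A.n).card := by
    calc (2 * A.n) * (2 * ((S.XX A.n).filter fun x => ¬ (S.updY T).WG A.n x y).card)
        = 4 * A.n * ((S.XX A.n).filter fun x => ¬ (S.updY T).WG A.n x y).card := by ring
      _ ≤ A.n * (2 * (S.XX A.n).card) := h3
      _ = (2 * A.n) * (S.XX A.n).card := by ring
  exact Nat.le_of_mul_le_mul_left h5 (by omega)

/-- PROOF. As `sub_x`: `N y := PB_{j+1} y \ PB_j y`, `G := univ \ S.Q`, `exit_y` for the state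
`S_j = S.updY (part j)` with `U = S.XX`, `U' = S.YY`; exits: `p ∈ PB_{j+1} \ PB_j`, `p ∈ cum \ Q`.
Termwise `pot_{j+1} w ≤ pot_j w + [exit w] - (4/Th) * #N(wy w)` from the fifth term
(`#PB_{j+1} = #PB_j + #N`, `PB_j ⊆ PB_{j+1}`), and `N ∩ G ⊆ N`. -/
theorem sub_y (hL : ∀ O, O ∈ L ↔ ∃ f : ι → K, O = ev f) (A : Par) (hA : A.Ok)
    (PY : Party (ι → K) K M Y) (S : HSt L StX PY.St RX RY) (hV : S.Valid A) (hC : S.Clo A)
    (m : M)
    (hlen : ∀ r (O : L), (lp (S.SY.q r O ++ (PY.step (S.SY.s r O) m).asked O)).card ≤ A.n)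
    (j : ℕ) :
    ∑ w ∈ S.R, (S.updY (S.SY.part PY m (j + 1))).pot A w ≤
      ∑ w ∈ S.R, (S.updY (S.SY.part PY m j)).pot A w := by
  set S0 := S.updY (S.SY.part PY m j) with hS0
  set S1 := S.updY (S.SY.part PY m (j + 1)) with hS1
  -- the points of the other side
  have hPB : ∀ r (O : L), S.PB r O ⊆ S0.PB r O := by
    intro r O
    exact lp_mono fun c hc => List.mem_append_left _ hc
  have hPB' : ∀ r (O : L), S0.PB r O ⊆ S1.PB r O := by
    intro r O
    refine lp_mono fun c hc => ?_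
    rcases List.mem_append.mp hc with h | h
    · exact List.mem_append_left _ h
    · refine List.mem_append_right _ ?_
      exact List.take_subset_take_left _ (Nat.le_succ j) h
  have hV0 : S0.Valid A := by
    refine valid_updY A S hV _ (part_loc PY S.SY hV.locY m j) fun r O => ?_
    refine le_trans (Finset.card_le_card (lp_mono fun c hc => ?_)) (hlen r O)
    rcases List.mem_append.mp hc with h | h
    · exact List.mem_append_left _ h
    · exact List.mem_append_right _ (List.mem_of_mem_take h)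
  -- the new points
  set N : RY × L → Finset ι := fun y => S1.PB y.1 y.2 \ S0.PB y.1 y.2 with hN
  have hexit := exit_y hL A S0 hV0 (S.XX A.n) (S.YY A.n) (Finset.filter_subset _ _)
    (Finset.filter_subset _ _) (fun x hx y hy hxy => by
      have hw : S.WG A.n x y := Disjoint.mono_right (hPB y.1 y.2) hxy
      exact ⟨Finset.mem_filter.mpr ⟨hx, y, hy, hw⟩, Finset.mem_filter.mpr ⟨hy, x, hx, hw⟩⟩)
    N (fun p r O O' h => by
      have e1 : S1.PB r O = S1.PB r O' := congrArg lp (part_next PY S.SY hV.locY m j r O O' h)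
      have e0 : S0.PB r O = S0.PB r O' :=
        congrArg lp (part_loc PY S.SY hV.locY m j r O O' h).2.1
      simp only [hN, e1, e0])
    (Finset.univ \ S.Q) (fun y hy => sub_deg_y hL A hA S hV hC _ hV0 y)
    (fun p hp => light_x hL A hA S hV hC.1 p (hC.2 p (Finset.mem_sdiff.mp hp).2).2)
  obtain ⟨X, hX, hexit'⟩ : ∃ X : Finset (RX × RY × L), (∀ w, w ∈ X ↔ w ∈ S.R ∧
      S0.WG A.n (wx w) (wy w) ∧
      ∃ p ∈ Finset.univ \ S.Q, p ∈ N (wy w) ∧ p ∈ S.cum (wx w).1 (wx w).2) ∧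
      A.Th * X.card ≤ 4 * ∑ w ∈ S.R, (N (wy w) ∩ (Finset.univ \ S.Q)).card :=
    ⟨_, fun w => Finset.mem_filter, hexit⟩
  have hXR : X ⊆ S.R := fun w hw => ((hX w).mp hw).1
  have hTh : 0 < A.Th := by
    have h3 := four_le_Th A hA
    have h4 := hA.n1
    nlinarith
  have hThR : (0 : ℝ) < A.Th := by exact_mod_cast hTh
  have hcount : (X.card : ℝ) ≤ 4 / (A.Th : ℝ) * ∑ w ∈ S.R, ((N (wy w)).card : ℝ) := by
    have h1 : A.Th * X.card ≤ 4 * ∑ w ∈ S.R, (N (wy w)).card := by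
      refine hexit'.trans (Nat.mul_le_mul_left _ (Finset.sum_le_sum fun w _ => ?_))
      exact Finset.card_le_card Finset.inter_subset_left
    have h2 : (A.Th : ℝ) * X.card ≤ 4 * ∑ w ∈ S.R, ((N (wy w)).card : ℝ) := by
      exact_mod_cast h1
    rw [div_mul_eq_mul_div, le_div_iff₀ hThR]
    linarith
  -- termwise
  have hterm : ∀ w ∈ S.R, S1.pot A w ≤ S0.pot A w + (if w ∈ X then (1 : ℝ) else 0)
      - 4 / (A.Th : ℝ) * ((N (wy w)).card : ℝ) := by
    intro w hw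
    have hcard : ((S1.PB w.2.1 w.2.2).card : ℝ) = (S0.PB w.2.1 w.2.2).card + (N (wy w)).card := by
      have h1 := Finset.card_sdiff_add_card_eq_card (hPB' w.2.1 w.2.2)
      have h2 : (S1.PB w.2.1 w.2.2).card = (S0.PB w.2.1 w.2.2).card + (N (wy w)).card := by
        rw [← h1, add_comm]
        rfl
      exact_mod_cast h2
    have hint : ((S0.PB w.2.1 w.2.2 ∩ S.Q).card : ℝ) ≤ (S1.PB w.2.1 w.2.2 ∩ S.Q).card := by
      exact_mod_cast Finset.card_le_card (Finset.inter_subset_inter_right (hPB' w.2.1 w.2.2))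
    have hv0 : (0 : ℝ) ≤ min 1 ((S.k : ℝ) / A.Kc + (S.b : ℝ) / A.Bm) :=
      le_min zero_le_one (by positivity)
    have hv1 : min 1 ((S.k : ℝ) / A.Kc + (S.b : ℝ) / A.Bm) ≤ 1 := min_le_left _ _
    have hfirst : (if S1.good w then min 1 ((S.k : ℝ) / A.Kc + (S.b : ℝ) / A.Bm) else 1) ≤
        (if S0.good w then min 1 ((S.k : ℝ) / A.Kc + (S.b : ℝ) / A.Bm) else 1) +
        (if w ∈ X then (1 : ℝ) else 0) := by
      have hnn : (0 : ℝ) ≤ if w ∈ X then (1 : ℝ) else 0 := by split_ifs <;> norm_num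
      by_cases h0 : S0.good w
      · by_cases h1 : S1.good w
        · rw [if_pos h0, if_pos h1]
          linarith
        · have hwX : w ∈ X := by
            obtain ⟨p, hp1, hp2⟩ := Finset.not_disjoint_iff.mp h1
            have hp3 : p ∉ S0.PB w.2.1 w.2.2 := Finset.disjoint_left.mp h0 hp1
            obtain ⟨hp4, hp5⟩ := Finset.mem_sdiff.mp hp1
            refine (hX w).mpr ⟨hw, ?_, p,
              Finset.mem_sdiff.mpr ⟨Finset.mem_univ p, hp5⟩,
              Finset.mem_sdiff.mpr ⟨hp2, hp3⟩, hp4⟩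
            refine Disjoint.mono_left ?_ h0
            intro u hu
            refine Finset.mem_sdiff.mpr ⟨?_, (mem_TT.mp hu).1⟩
            exact hV.cT _ _ (TT_mono (n_le_sk A S.k) le_rfl hu)
          rw [if_pos h0, if_neg h1, if_pos hwX]
          linarith
      · have h1 : ¬ S1.good w := fun h => h0 (Disjoint.mono_right (hPB' w.2.1 w.2.2) h)
        rw [if_neg h0, if_neg h1]
        linarith
    have hk1 : (0 : ℝ) ≤ (A.h : ℝ) / A.Kc := by positivity
    have hk2 : (0 : ℝ) ≤ (A.Th : ℝ) / A.Bm := by positivity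
    have e1 : S1.pot A w = (if S1.good w then min 1 ((S.k : ℝ) / A.Kc + (S.b : ℝ) / A.Bm) else 1) +
      (A.h : ℝ) / A.Kc * ((A.n : ℝ) + (A.n : ℝ) ^ 2 - (S1.PB w.2.1 w.2.2 ∩ S.Q).card -
        (S.cumn w.1 w.2.2 ∩ S.Q).card) +
      (A.Th : ℝ) / A.Bm * ((A.n : ℝ) + A.n * A.sm - (S1.PB w.2.1 w.2.2 ∩ S.Q).card -
        (S.cum w.1 w.2.2 ∩ S.Q).card) +
      4 / (A.Th : ℝ) * ((A.n : ℝ) * A.sm - (S.cum w.1 w.2.2).card) +
      4 / (A.Th : ℝ) * ((A.n : ℝ) - (S1.PB w.2.1 w.2.2).card) := rfl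
    have e0 : S0.pot A w = (if S0.good w then min 1 ((S.k : ℝ) / A.Kc + (S.b : ℝ) / A.Bm) else 1) +
      (A.h : ℝ) / A.Kc * ((A.n : ℝ) + (A.n : ℝ) ^ 2 - (S0.PB w.2.1 w.2.2 ∩ S.Q).card -
        (S.cumn w.1 w.2.2 ∩ S.Q).card) +
      (A.Th : ℝ) / A.Bm * ((A.n : ℝ) + A.n * A.sm - (S0.PB w.2.1 w.2.2 ∩ S.Q).card -
        (S.cum w.1 w.2.2 ∩ S.Q).card) +
      4 / (A.Th : ℝ) * ((A.n : ℝ) * A.sm - (S.cum w.1 w.2.2).card) +
      4 / (A.Th : ℝ) * ((A.n : ℝ) - (S0.PB w.2.1 w.2.2).card) := rfl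
    rw [e1, e0, hcard]
    have hA1 := mul_le_mul_of_nonneg_left hint hk1
    have hA2 := mul_le_mul_of_nonneg_left hint hk2
    have hr : 4 / (A.Th : ℝ) * ((A.n : ℝ) - ((S0.PB w.2.1 w.2.2).card + (N (wy w)).card)) =
        4 / (A.Th : ℝ) * ((A.n : ℝ) - (S0.PB w.2.1 w.2.2).card) -
        4 / (A.Th : ℝ) * ((N (wy w)).card : ℝ) := by ring
    rw [hr]
    nlinarith [hfirst, hA1, hA2]
  calc ∑ w ∈ S.R, S1.pot A w
      ≤ ∑ w ∈ S.R, (S0.pot A w + (if w ∈ X then (1 : ℝ) else 0)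
          - 4 / (A.Th : ℝ) * ((N (wy w)).card : ℝ)) := Finset.sum_le_sum hterm
    _ = ∑ w ∈ S.R, S0.pot A w + X.card
          - 4 / (A.Th : ℝ) * ∑ w ∈ S.R, ((N (wy w)).card : ℝ) := by
        rw [Finset.sum_sub_distrib, Finset.sum_add_distrib, Finset.mul_sum]
        congr 2
        rw [Finset.sum_ite_mem, Finset.inter_eq_right.mpr hXR, Finset.sum_const,
          nsmul_eq_mul, mul_one]
    _ ≤ ∑ w ∈ S.R, S0.pot A w := by linarith

end Pool.Agent.LinOT
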