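import Pool.Agent.Lib.MP_ae38e0_lc.Half.SubX
import Pool.Agent.Lib.MP_ae38e0_lc.Half.SubY

set_option autoImplicit false

/-!
# Half-algebraic attack: the turn of a party at a closed state
-/

namespace Pool.Agent.LinOT

open Classical

variable {K : Type} [Field K] {ι : Type} [Fintype ι] {L : Submodule K ((ι → K) → K)} [Fintype L]
  {StX StY RX RY M X Y : Type} [Fintype RX] [Fintype RY]

omit [Fintype L] [Fintype RX] [Fintype RY] in
/-- The potential depends only on some of the data. -/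
theorem pot_congr (A : Par) (S S' : HSt L StX StY RX RY) (w : RX × RY × L) (h1 : S.Q = S'.Q)
    (h2 : S.PB w.2.1 w.2.2 = S'.PB w.2.1 w.2.2) (h3 : S.cum w.1 w.2.2 = S'.cum w.1 w.2.2)
    (h4 : S.cumn w.1 w.2.2 = S'.cumn w.1 w.2.2) (h5 : S.k = S'.k) (h6 : S.b = S'.b) :
    S.pot A w = S'.pot A w := by
  unfold HSt.pot HSt.good
  rw [h1, h2, h3, h4, h5, h6]

omit [Fintype L] [Fintype RX] [Fintype RY] in
theorem pot_updX_congr (A : Par) (S : HSt L StX StY RX RY) (T T' : Side (ι → K) K StX RX)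
    (w : RX × RY × L) (h : T.q w.1 w.2.2 = T'.q w.1 w.2.2) :
    (S.updX A T).pot A w = (S.updX A T').pot A w := by
  apply pot_congr
  · rfl
  · rfl
  · simp only [HSt.updX, h]
  · simp only [HSt.updX, h]
  · rfl
  · rfl

omit [Fintype L] [Fintype RX] [Fintype RY] in
theorem pot_updX_self (A : Par) (S : HSt L StX StY RX RY) (hV : S.Valid A)
    (T : Side (ι → K) K StX RX) (w : RX × RY × L) (h : T.q w.1 w.2.2 = S.SX.q w.1 w.2.2) :
    (S.updX A T).pot A w = S.pot A w := by
  apply pot_congr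
  · rfl
  · rfl
  · simp only [HSt.updX, h]
    exact Finset.union_eq_left.mpr (hV.cT w.1 w.2.2)
  · simp only [HSt.updX, h]
    exact Finset.union_eq_left.mpr (hV.cTn w.1 w.2.2)
  · rfl
  · rfl

omit [Fintype L] [Fintype RX] [Fintype RY] in
theorem pot_updY_congr (A : Par) (S : HSt L StX StY RX RY) (T T' : Side (ι → K) K StY RY)
    (w : RX × RY × L) (h : T.q w.2.1 w.2.2 = T'.q w.2.1 w.2.2) :
    (S.updY T).pot A w = (S.updY T').pot A w := by
  apply pot_congr
  · rfl
  · simp only [HSt.updY, HSt.PB, h]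
  · rfl
  · rfl
  · rfl
  · rfl

omit [Fintype L] [Fintype RX] [Fintype RY] in
theorem pot_updY_self (A : Par) (S : HSt L StX StY RX RY)
    (T : Side (ι → K) K StY RY) (w : RX × RY × L) (h : T.q w.2.1 w.2.2 = S.SY.q w.2.1 w.2.2) :
    (S.updY T).pot A w = S.pot A w := by
  apply pot_congr
  · rfl
  · simp only [HSt.updY, HSt.PB, h]
  · rfl
  · rfl
  · rfl
  · rfl

/-- The turn of the linear party at a closed state. -/
theorem turn_x (hL : ∀ O, O ∈ L ↔ ∃ f : ι → K, O = ev f) (A : Par) (hA : A.Ok)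
    (PX : Party (ι → K) K M X) (S : HSt L PX.St StY RX RY) (hV : S.Valid A) (hC : S.Clo A)
    (m : M)
    (hlen : ∀ r (O : L), (S.SX.q r O ++ (PX.step (S.SX.s r O) m).asked O).length ≤ A.n)
    (a : RX × RY × L → M) :
    ∑ w ∈ S.R, (S.updX A (S.SX.next PX m (a w))).pot A w ≤ ∑ w ∈ S.R, S.pot A w := by
  have h1 : ∀ j, ∑ w ∈ S.R, (S.updX A (S.SX.part PX m j)).pot A w ≤
      ∑ w ∈ S.R, S.pot A w := by
    intro j
    induction j with
    | zero =>
      refine le_of_eq (Finset.sum_congr rfl fun w _ => ?_)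
      apply pot_updX_self A S hV
      simp [Side.part]
    | succ j ih => exact (sub_x hL A hA PX S hV hC m hlen j).trans ih
  refine le_trans (le_of_eq (Finset.sum_congr rfl fun w _ => ?_)) (h1 A.n)
  apply pot_updX_congr
  simp only [Side.next, Side.part]
  rw [List.take_of_length_le]
  have := hlen w.1 w.2.2
  rw [List.length_append] at this
  omega

/-- The turn of the other party at a closed state. -/
theorem turn_y (hL : ∀ O, O ∈ L ↔ ∃ f : ι → K, O = ev f) (A : Par) (hA : A.Ok)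
    (PY : Party (ι → K) K M Y) (S : HSt L StX PY.St RX RY) (hV : S.Valid A) (hC : S.Clo A)
    (m : M) (N : ℕ) (hN : ∀ r (O : L), ((PY.step (S.SY.s r O) m).asked O).length ≤ N)
    (hlen : ∀ r (O : L), (lp (S.SY.q r O ++ (PY.step (S.SY.s r O) m).asked O)).card ≤ A.n)
    (a : RX × RY × L → M) :
    ∑ w ∈ S.R, (S.updY (S.SY.next PY m (a w))).pot A w ≤ ∑ w ∈ S.R, S.pot A w := by
  have h1 : ∀ j, ∑ w ∈ S.R, (S.updY (S.SY.part PY m j)).pot A w ≤
      ∑ w ∈ S.R, S.pot A w := by
    intro j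
    induction j with
    | zero =>
      refine le_of_eq (Finset.sum_congr rfl fun w _ => ?_)
      apply pot_updY_self A S
      simp [Side.part]
    | succ j ih => exact (sub_y hL A hA PY S hV hC m hlen j).trans ih
  refine le_trans (le_of_eq (Finset.sum_congr rfl fun w _ => ?_)) (h1 N)
  apply pot_updY_congr
  simp only [Side.next, Side.part]
  rw [List.take_of_length_le]
  exact hN w.2.1 w.2.2

end Pool.Agent.LinOT
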